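import Pool.Agent.U279.GP.CntTot

/-!
# The number of codes with `k` words for all `k`
-/

set_option autoImplicit false

namespace Pool.Agent.U279.GP

open Set Finset Filter Topology
open Pool.Agent.U180.CG (cl cl_symm cl_refl nb mem_nb nb_card sparse Dl Nk Z Z_pos inds mem_inds
  ball_pos card_word X1 X2 h X1_pos X2_pos vol_asym mid_asym Dl_asym poly_small exp_small
  exists_W)
open Pool.Agent.U180.BC (Word ball)

variable {n t k : ℕ}

/-- The number of the small codes, explicit form. -/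
theorem pk_small (ht : Even t) (htn : 2 * t ≤ n) {y : ℝ} (hy1 : y ≤ 1)
    (hn : 4 ≤ n)
    (hs : ∀ s : ℕ, 1 ≤ s → s ≤ n → ((n : ℝ) + 1 - 2 * s) ^ 2 < 4 * (t : ℝ) * ((n : ℝ) - t) →
      (2 : ℝ) ^ n ≤ Real.exp (-(y * n)) ^ 2 * ball n t * n.choose s)
    (hV : (1 + 2 * n) * Real.exp (y * n) ≤ ball n t) {U : ℝ} (hU0 : 0 < U)
    (hU : k * ((ball n t : ℝ) / 2 ^ n) = U * n) (hUy : U ≤ y) (h : Nk n t k ≠ 0) :
    Real.log (Pool.Agent.U180.CG.Pk n t k) ≤ -(k * (U / 2 * n - 4)) := by
  have hb := ball_pos n t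
  have hnR : (4 : ℝ) ≤ n := by exact_mod_cast hn
  have hn0 : (0 : ℝ) < n := by linarith
  have h2n : (0 : ℝ) < 2 ^ n := by positivity
  have hk0 : 0 < k := by
    rcases Nat.eq_zero_or_pos k with rfl | hk
    · rw [Nat.cast_zero, zero_mul] at hU
      have : 0 < U * n := by positivity
      linarith
    · exact hk
  have hkR : (0 : ℝ) < k := by exact_mod_cast hk0
  obtain ⟨w, hw⟩ : ∃ w, w = U * n := ⟨_, rfl⟩
  rw [← hw] at hU
  have hw0 : 0 < w := by rw [hw]; positivity
  have hwy : w ≤ y * n := by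
    rw [hw]
    exact mul_le_mul_of_nonneg_right hUy hn0.le
  have hyn : y * n ≤ 1 * n := mul_le_mul_of_nonneg_right hy1 hn0.le
  have hE0 := Real.exp_pos (y * n)
  have hwe : Real.exp w ≤ Real.exp (y * n) := Real.exp_le_exp.2 hwy
  have hwe2 : w * Real.exp w ≤ n * Real.exp (y * n) :=
    mul_le_mul (by linarith) hwe (Real.exp_pos _).le hn0.le
  have hab : w * Real.exp w / ball n t ≤ 1 / 2 := by
    rw [div_le_iff₀ hb]
    nlinarith
  have h2 := Pool.Agent.U180.CG.prs_le ht htn (κ := Real.exp (-(y * n))) (Real.exp_pos _).le hs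
    hw0 hab
  have e1 : Pool.Agent.U180.CG.prs n t w =
      ball n t / 2 ^ n * Real.log (Z (cl n t) (w * Real.exp w / ball n t) univ) := rfl
  rw [e1] at h2
  have hlam : 0 < w * Real.exp w / ball n t := by positivity
  have h3 := nk_mul_le (n := n) (t := t) (k := k) hlam.le
  have hNk : (0 : ℝ) < Nk n t k := by exact_mod_cast Nat.pos_of_ne_zero h
  have h4 := Real.log_le_log (by positivity) h3
  rw [Real.log_mul hNk.ne' (by positivity), Real.log_pow, Real.log_div (by positivity) hb.ne',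
    Real.log_mul hw0.ne' (Real.exp_pos _).ne', Real.log_exp] at h4
  have h6 : 2 * (Real.exp (-(y * n)) + w / ball n t) * (w * Real.exp w) ≤ 3 * w := by
    have e2 : 2 * (Real.exp (-(y * n)) + w / ball n t) * (w * Real.exp w) =
        2 * w * (Real.exp (-(y * n)) * Real.exp w) + 2 * w * (w * Real.exp w / ball n t) := by
      ring
    rw [e2]
    have e3 : Real.exp (-(y * n)) * Real.exp w ≤ 1 := by
      rw [← Real.exp_add, Real.exp_le_one_iff]
      linarith
    have h7 := mul_le_mul_of_nonneg_left e3 (show 0 ≤ 2 * w by linarith)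
    have h8 := mul_le_mul_of_nonneg_left hab (show 0 ≤ 2 * w by linarith)
    linarith
  have hD0 : 0 < (ball n t : ℝ) / 2 ^ n := by positivity
  have h5 : ball n t / 2 ^ n * (Real.log (Nk n t k) + k * (Real.log w + w - Real.log (ball n t))) ≤
      4 * w + w ^ 2 / 2 :=
    (mul_le_mul_of_nonneg_left h4 hD0.le).trans (h2.trans (by linarith))
  have h8 : Real.log (Nk n t k) + k * (Real.log w + w - Real.log (ball n t)) ≤
      k * (4 + w / 2) := by
    have e3 : (ball n t : ℝ) / 2 ^ n = w / k := by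
      rw [← hU]
      field_simp
    rw [e3] at h5
    have e4 : 4 * w + w ^ 2 / 2 = w / k * (k * (4 + w / 2)) := by
      field_simp
    rw [e4] at h5
    exact le_of_mul_le_mul_left h5 (by positivity)
  have hf : Real.log (k.factorial : ℝ) ≤ k * Real.log k := by
    rw [← Real.log_pow]
    refine Real.log_le_log (by exact_mod_cast Nat.factorial_pos k) ?_
    exact_mod_cast Nat.factorial_le_pow k
  have hf0 : (0 : ℝ) < k.factorial := by exact_mod_cast Nat.factorial_pos k
  have hP : Real.log (Pool.Agent.U180.CG.Pk n t k) =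
      Real.log (k.factorial : ℝ) + Real.log (Nk n t k) - k * (n * Real.log 2) := by
    unfold Pool.Agent.U180.CG.Pk
    rw [Real.log_div (by positivity) (by positivity), Real.log_mul hf0.ne' hNk.ne', Real.log_pow,
      Real.log_pow]
  have hlu : Real.log k + Real.log (ball n t) - n * Real.log 2 = Real.log w := by
    have := congrArg Real.log hU
    rw [Real.log_mul hkR.ne' hD0.ne', Real.log_div hb.ne' h2n.ne', Real.log_pow] at this
    linarith
  rw [hP]
  have h9 : (k : ℝ) * Real.log k + k * Real.log (ball n t) - k * (n * Real.log 2) =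
      k * Real.log w := by
    calc (k : ℝ) * Real.log k + k * Real.log (ball n t) - k * (n * Real.log 2) =
          k * (Real.log k + Real.log (ball n t) - n * Real.log 2) := by ring
      _ = k * Real.log w := by rw [hlu]
  have e5 : k * (Real.log w + w - Real.log (ball n t)) =
      k * Real.log w + k * w - k * Real.log (ball n t) := by ring
  rw [e5] at h8
  have e6 : -((k : ℝ) * (U / 2 * n - 4)) = k * (4 + w / 2) - k * w := by
    rw [hw]
    ring
  rw [e6]
  linarith

/-- The exponent for the number of the codes. -/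
noncomputable def ex (X U : ℝ) : ℝ := if U ≤ X then U / 2 else X - X ^ 2 / (2 * U)

theorem ex_le {X θ ε U y : ℝ} (_hX : 0 < X) (hθ0 : 0 < θ) (hθ1 : θ ≤ ε / 2) (hθ2 : θ ≤ X / 2)
    (hy : y = X - θ) (hUy : y ≤ U) : ex X U - ε / 2 ≤ y - y ^ 2 / (2 * U) := by
  have hy0 : 0 < y := by linarith
  have hU0 : 0 < U := by linarith
  unfold ex
  split_ifs with hUX
  · have h6 : U / 2 - (y - y ^ 2 / (2 * U)) = (U - y) ^ 2 / (2 * U) := by
      field_simp
      ring
    have h7 : (U - y) ^ 2 ≤ θ ^ 2 := pow_le_pow_left₀ (by linarith) (by linarith) 2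
    have h9 : θ * θ ≤ ε / 2 * U := mul_le_mul hθ1 (by linarith) hθ0.le (by linarith)
    have h8 : (U - y) ^ 2 / (2 * U) ≤ ε / 2 := by
      rw [div_le_iff₀ (by positivity)]
      have h10 : 0 < ε * U := mul_pos (by linarith) hU0
      linarith
    linarith
  · have h6 : y ^ 2 / (2 * U) ≤ X ^ 2 / (2 * U) :=
      div_le_div_of_nonneg_right (pow_le_pow_left₀ hy0.le (by linarith) 2) (by positivity)
    linarith

/-- The number of codes with `k` words for all `k`, asymptotically. -/
theorem cntk_ev {δ : ℝ} (h0 : 0 < δ) (h1 : δ < 1 / 2) {ε : ℝ} (hε : 0 < ε) :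
    ∃ η : ℝ, 0 < η ∧ ∃ n₀ : ℕ, ∀ n : ℕ, n₀ ≤ n → ∀ t : ℕ, Even t → |(t : ℝ) - δ * n| ≤ η * n →
    ∀ (k : ℕ) (U : ℝ), k * ((ball n t : ℝ) / 2 ^ n) = U * n →
      Pool.Agent.U180.CG.Pk n t k ≤ Real.exp (-((ex (X1 δ) U - ε) * n * k)) := by
  have hX1 := X1_pos h0 h1
  obtain ⟨θ, hθ⟩ : ∃ θ, θ = min (ε / 2) (X1 δ / 2) := ⟨_, rfl⟩
  have hθ0 : 0 < θ := by rw [hθ]; exact lt_min (by linarith) (by linarith)
  have hθ1 : θ ≤ ε / 2 := hθ ▸ min_le_left _ _
  have hθ2 : θ ≤ X1 δ / 2 := hθ ▸ min_le_right _ _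
  obtain ⟨y, hy⟩ : ∃ y, y = X1 δ - θ := ⟨_, rfl⟩
  have hy0 : 0 < y := by linarith
  obtain ⟨e8, he8⟩ : ∃ e8, e8 = min θ (h δ / 8) := ⟨_, rfl⟩
  have hhp := h_pos h0 h1
  have he80 : 0 < e8 := by
    rw [he8]
    exact lt_min hθ0 (by linarith)
  have he81 : e8 ≤ θ := he8 ▸ min_le_left _ _
  have he82 : e8 ≤ h δ / 8 := he8 ▸ min_le_right _ _
  obtain ⟨η₁, hη₁, A1⟩ := vol_asym h0 h1 he80
  obtain ⟨η₂, hη₂, A2⟩ := mid_asym h0 h1 he80
  refine ⟨min η₁ η₂, lt_min hη₁ hη₂, ?_⟩
  obtain ⟨C, hC⟩ : ∃ C, C = 3 + (4 + Real.log y ^ 2 / y) + 3 / y := ⟨_, rfl⟩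
  have A3 : ∀ᶠ n : ℕ in atTop, max (C / (ε / 8)) (1 / (y * y)) ≤ (n : ℝ) :=
    tendsto_natCast_atTop_atTop.eventually_ge_atTop _
  have A4 : ∀ᶠ n : ℕ in atTop, Real.log n ≤ ε / 8 * n := by
    have h2 := Real.isLittleO_log_id_atTop.bound (show 0 < ε / 8 by positivity)
    filter_upwards [tendsto_natCast_atTop_atTop.eventually h2, eventually_ge_atTop 1] with n h3 hn
    have hnR : (1 : ℝ) ≤ n := by exact_mod_cast hn
    rw [id, Real.norm_of_nonneg (Real.log_nonneg hnR), Real.norm_of_nonneg (by linarith)] at h3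
    exact h3
  obtain ⟨n₀, hn₀⟩ := eventually_atTop.1 (((A1.and A2).and (A3.and A4)).and
    ((poly_small (ε := h δ / 16) (by linarith)).and (eventually_ge_atTop 4)))
  refine ⟨n₀, fun n hn t hte ht k U hU => ?_⟩
  obtain ⟨⟨⟨B1, B2⟩, B3, B3'⟩, B4, B5⟩ := hn₀ n hn
  have hnR : (4 : ℝ) ≤ n := by exact_mod_cast B5
  have hn0 : (0 : ℝ) < n := by linarith
  obtain ⟨C1, C2, C3, C4⟩ := B1 t (ht.trans (mul_le_mul_of_nonneg_right (min_le_left _ _) hn0.le))
  have C5 := B2 t (ht.trans (mul_le_mul_of_nonneg_right (min_le_right _ _) hn0.le))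
  have hb := ball_pos n t
  have hX1l := X1_le (δ := δ)
  have hh1 := h_le_one (δ := δ)
  have hs : ∀ s : ℕ, 1 ≤ s → s ≤ n → ((n : ℝ) + 1 - 2 * s) ^ 2 < 4 * (t : ℝ) * ((n : ℝ) - t) →
      (2 : ℝ) ^ n ≤ Real.exp (-(y * n)) ^ 2 * ball n t * n.choose s := by
    intro s hs1 hsn hs
    have h4 := C5 s hs1 hsn hs
    have e2 : (2 : ℝ) ^ n = Real.exp (Real.log 2 * n) := by
      rw [mul_comm, Real.exp_nat_mul, Real.exp_log (by norm_num)]
    have e3 : Real.exp (-(y * n)) ^ 2 = Real.exp (-(2 * y * n)) := by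
      rw [← Real.exp_nat_mul]
      congr 1
      push_cast
      ring
    rw [e2, e3]
    calc Real.exp (Real.log 2 * n) ≤ Real.exp (-(2 * y * n)) *
          Real.exp ((h δ - e8) * n) *
            Real.exp ((h (1 / 2 - √(δ * (1 - δ))) - e8) * n) := by
          rw [← Real.exp_add, ← Real.exp_add, Real.exp_le_exp]
          have e4 : 2 * X1 δ = h δ + h (1 / 2 - √(δ * (1 - δ))) - Real.log 2 := by
            unfold X1
            ring
          have e5 : -(2 * y * n) + (h δ - e8) * n +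
              (h (1 / 2 - √(δ * (1 - δ))) - e8) * n =
              (h δ + h (1 / 2 - √(δ * (1 - δ))) - 2 * y - 2 * e8) * n := by ring
          rw [e5]
          exact mul_le_mul_of_nonneg_right (by linarith) hn0.le
      _ ≤ _ := by
          refine mul_le_mul (mul_le_mul_of_nonneg_left C1 (Real.exp_pos _).le) h4
            (Real.exp_pos _).le (by positivity)
  have hV : (1 + 2 * n) * Real.exp (y * n) ≤ ball n t := by
    have h2 : 1 + (n : ℝ) ≤ Real.exp (h δ / 16 * n) := by linarith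
    have h3 : 2 ≤ Real.exp (h δ / 16 * n) := by linarith
    calc (1 + 2 * n) * Real.exp (y * n) ≤
          (Real.exp (h δ / 16 * n) * Real.exp (h δ / 16 * n)) * Real.exp (y * n) := by
          refine mul_le_mul_of_nonneg_right ?_ (Real.exp_pos _).le
          nlinarith
      _ = Real.exp ((h δ / 8 + y) * n) := by
          rw [← Real.exp_add, ← Real.exp_add]
          congr 1
          ring
      _ ≤ Real.exp ((h δ - e8) * n) := by
          rw [Real.exp_le_exp]
          exact mul_le_mul_of_nonneg_right (by linarith) hn0.le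
      _ ≤ ball n t := C1
  have hVn : (ball n t : ℝ) ≤ 2 ^ n := by
    have h2 := Finset.card_le_univ (nb (fun x y : Word n => hammingDist x y ≤ t) univ
      (fun _ => true))
    rw [nb_card t, Fintype.card_fun, Fintype.card_bool, Fintype.card_fin] at h2
    exact_mod_cast h2
  have hXn : 1 ≤ Real.exp (y * n) * y := by
    have h2 : 1 / (y * y) ≤ n := (le_max_right _ _).trans B3
    rw [div_le_iff₀ (by positivity)] at h2
    have h3 := Real.add_one_le_exp (y * n)
    have h4 : y * n * y ≤ Real.exp (y * n) * y :=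
      mul_le_mul_of_nonneg_right (by linarith) hy0.le
    nlinarith
  by_cases hz : Nk n t k = 0
  · unfold Pool.Agent.U180.CG.Pk
    rw [hz, Nat.cast_zero, mul_zero, zero_div]
    exact (Real.exp_pos _).le
  rcases Nat.eq_zero_or_pos k with rfl | hk
  · rw [Nat.cast_zero, mul_zero, neg_zero, Real.exp_zero]
    unfold Pool.Agent.U180.CG.Pk
    rw [pow_zero, div_one, Nat.factorial_zero, Nat.cast_one, one_mul]
    have h2 : Nk n t 0 ≤ 1 := by
      unfold Nk
      rw [Finset.card_le_one]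
      intro a ha b hb
      rw [mem_filter, Finset.card_eq_zero] at ha hb
      rw [ha.2, hb.2]
    exact_mod_cast h2
  have hP0 : 0 < Pool.Agent.U180.CG.Pk n t k := by
    unfold Pool.Agent.U180.CG.Pk
    have h3 : (0 : ℝ) < Nk n t k := by exact_mod_cast Nat.pos_of_ne_zero hz
    have h4 : (0 : ℝ) < k.factorial := by exact_mod_cast Nat.factorial_pos k
    positivity
  have hkR : (0 : ℝ) < k := by exact_mod_cast hk
  have hU0 : 0 < U := by
    have h2 : 0 < U * n := by
      rw [← hU]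
      positivity
    exact pos_of_mul_pos_left h2 hn0.le
  rw [← Real.log_le_iff_le_exp hP0]
  have hC0 : 7 ≤ C := by
    have h2 : 0 ≤ Real.log y ^ 2 / y := by positivity
    have h3 : 0 ≤ 3 / y := by positivity
    rw [hC]
    linarith
  have h3 : C ≤ ε / 8 * n := by
    have h4 : C / (ε / 8) ≤ n := (le_max_left _ _).trans B3
    rw [div_le_iff₀ (by positivity)] at h4
    linarith
  have key : ∀ A : ℝ, Real.log (Pool.Agent.U180.CG.Pk n t k) ≤ -(k * A) →
      (ex (X1 δ) U - ε) * n ≤ A →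
      Real.log (Pool.Agent.U180.CG.Pk n t k) ≤ -((ex (X1 δ) U - ε) * n * k) := by
    intro A hA hA2
    refine hA.trans (neg_le_neg ?_)
    rw [mul_comm]
    exact mul_le_mul_of_nonneg_left hA2 hkR.le
  rcases le_total U y with hUy | hUy
  · refine key _ (pk_small hte C3 (by linarith) B5 hs hV hU0 hU hUy hz) ?_
    unfold ex
    rw [if_pos (by linarith)]
    have : 0 ≤ ε * n := by positivity
    linarith
  · have h2 := pk_le hte C3 hy0 (by linarith) hy0 B5 hs hV hVn hXn hU hUy hz
    rw [← hC] at h2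
    refine key _ h2 ?_
    have e1 : y * n - y ^ 2 * n / (2 * U) = (y - y ^ 2 / (2 * U)) * n := by ring
    rw [e1]
    have h5 : ex (X1 δ) U - ε / 2 ≤ y - y ^ 2 / (2 * U) := ex_le hX1 hθ0 hθ1 hθ2 hy hUy
    have h6 := mul_le_mul_of_nonneg_right h5 hn0.le
    have h7 : 0 ≤ ε * n := by positivity
    have e2 : (ex (X1 δ) U - ε) * n = (ex (X1 δ) U - ε / 2) * n - ε / 2 * n := by ring
    rw [e2]
    linarith

end Pool.Agent.U279.GP
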