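import Pool.Agent.U279.PR.Shearer

/-!
# Independent sets in random geometric graphs over a homogeneous space

`N` independent random points with the law `μ`; two points `x`, `y` are close if `E x y`; every point
is close to a set of points of measure `v`.
-/

set_option autoImplicit false

namespace Pool.Agent.U279.GP

open MeasureTheory Set Finset ProbabilityTheory
open scoped ENNReal NNReal
open Pool.Agent.U279.PR (eb am sf shearer eb_nonneg eb_mono sf_anti sf_ge)

variable {Ω : Type} [MeasurableSpace Ω] {N m k : ℕ}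

/-- The law of `N` independent points. -/
noncomputable def law (μ : Measure Ω) (N : ℕ) : Measure (Fin N → Ω) :=
  Measure.pi fun _ : Fin N => μ

instance (μ : Measure Ω) [IsProbabilityMeasure μ] : IsProbabilityMeasure (law μ N) := by
  unfold law; infer_instance

/-- The points with indices in `s` are mutually not close. -/
def Pk (E : Ω → Ω → Prop) (s : Finset (Fin N)) (X : Fin N → Ω) : Prop :=
  ∀ i ∈ s, ∀ j ∈ s, i ≠ j → ¬ E (X i) (X j)

/-- The largest number of the points which are mutually not close. -/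
noncomputable def best (E : Ω → Ω → Prop) (X : Fin N → Ω) : ℕ :=
  sSup {k | ∃ s : Finset (Fin N), Pk E s X ∧ s.card = k}

section best

variable {E : Ω → Ω → Prop}

omit [MeasurableSpace Ω] in
theorem Pk.mono {s t : Finset (Fin N)} {X : Fin N → Ω} (h : Pk E t X) (hst : s ⊆ t) :
    Pk E s X := fun i hi j hj hij => h i (hst hi) j (hst hj) hij

omit [MeasurableSpace Ω] in
theorem best_bdd (X : Fin N → Ω) :
    BddAbove {k | ∃ s : Finset (Fin N), Pk E s X ∧ s.card = k} :=
  ⟨N, by rintro _ ⟨s, -, rfl⟩; simpa using s.card_le_univ⟩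

omit [MeasurableSpace Ω] in
theorem exists_best (X : Fin N → Ω) :
    ∃ s : Finset (Fin N), Pk E s X ∧ s.card = best E X :=
  Nat.sSup_mem (s := {k | ∃ s : Finset (Fin N), Pk E s X ∧ s.card = k})
    ⟨0, ∅, fun i hi => absurd hi (Finset.notMem_empty i), rfl⟩ (best_bdd X)

omit [MeasurableSpace Ω] in
theorem le_best {X : Fin N → Ω} {s : Finset (Fin N)} (h : Pk E s X) :
    s.card ≤ best E X := le_csSup (best_bdd X) ⟨s, h, rfl⟩

omit [MeasurableSpace Ω] in
theorem le_best_iff {X : Fin N → Ω} :
    k ≤ best E X ↔ ∃ s : Finset (Fin N), s.card = k ∧ Pk E s X := by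
  constructor
  · intro h
    obtain ⟨s, hs, hc⟩ := exists_best (E := E) X
    obtain ⟨t, ht, htc⟩ := Finset.exists_subset_card_eq (s := s) (n := k) (by omega)
    exact ⟨t, htc, hs.mono ht⟩
  · rintro ⟨s, rfl, hs⟩
    exact le_best hs

omit [MeasurableSpace Ω] in
/-- More points contain larger families. -/
theorem best_mono (h : m ≤ N) (X : Fin N → Ω) :
    best E (fun i => X (Fin.castLE h i)) ≤ best E X := by
  classical
  obtain ⟨s, hs, hc⟩ := exists_best (E := E) (fun i => X (Fin.castLE h i))
  have hinj : Function.Injective (Fin.castLE h) := Fin.castLE_injective h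
  rw [← hc, ← Finset.card_image_of_injective s hinj]
  refine le_best ?_
  intro i hi j hj hij
  obtain ⟨a, ha, rfl⟩ := Finset.mem_image.1 hi
  obtain ⟨b, hb, rfl⟩ := Finset.mem_image.1 hj
  exact hs a ha b hb fun h => hij (by rw [h])

end best

section measure

variable (μ : Measure Ω) [IsProbabilityMeasure μ]

/-- The law of a subfamily. -/
theorem map_inj {f : Fin k → Fin N} (hf : Function.Injective f) :
    (law μ N).map (fun X i => X (f i)) = law μ k := by
  have h1 : iIndepFun (fun (i : Fin N) (X : Fin N → Ω) => X i) (law μ N) :=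
    iIndepFun_pi (X := fun _ x => x) (μ := fun _ : Fin N => μ) fun i => aemeasurable_id
  have h2 := h1.precomp hf
  rw [iIndepFun_iff_map_fun_eq_pi_map (fun i => (measurable_pi_apply _).aemeasurable)] at h2
  rw [h2]
  unfold law
  congr 1
  funext i
  exact (measurePreserving_eval (fun _ : Fin N => μ) (f i)).map_eq

theorem law_mono (E : Ω → Ω → Prop) (h : m ≤ N) (c v : ℝ) (hv : 0 ≤ v) :
    (law μ N).real {X | best E X * v < c} ≤ (law μ m).real {X | best E X * v < c} := by
  have hm : Measurable fun (X : Fin N → Ω) (i : Fin m) => X (Fin.castLE h i) :=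
    measurable_pi_lambda _ fun i => measurable_pi_apply _
  have h1 := Measure.le_map_apply (μ := law μ N) hm.aemeasurable
    {X : Fin m → Ω | best E X * v < c}
  rw [map_inj μ (Fin.castLE_injective h)] at h1
  have h2 : {X : Fin N → Ω | best E X * v < c} ⊆
      (fun (X : Fin N → Ω) (i : Fin m) => X (Fin.castLE h i)) ⁻¹'
        {X : Fin m → Ω | best E X * v < c} := by
    intro X hX
    simp only [Set.mem_ofPred_eq, Set.mem_preimage] at hX ⊢
    have h3 : (best E (fun i => X (Fin.castLE h i)) : ℝ) ≤ best E X := by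
      exact_mod_cast best_mono h X
    exact (mul_le_mul_of_nonneg_right h3 hv).trans_lt hX
  exact ENNReal.toReal_mono (measure_ne_top _ _) ((measure_mono h2).trans h1)

/-- Resampling a coordinate. -/
theorem resample (j : Fin N) :
    MeasurePreserving (fun p : (Fin N → Ω) × Ω => Function.update p.1 j p.2)
      ((law μ N).prod μ) (law μ N) := by
  have hm : Measurable fun p : (Fin N → Ω) × Ω => Function.update p.1 j p.2 := by
    refine measurable_pi_iff.2 fun i => ?_
    by_cases h : i = j
    · subst h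
      simpa using measurable_snd
    · simp only [Function.update_of_ne h]
      exact (measurable_pi_apply i).comp measurable_fst
  refine ⟨hm, ?_⟩
  refine (Measure.pi_eq fun s hs => ?_).symm
  rw [Measure.map_apply hm (MeasurableSet.univ_pi hs)]
  have h1 : (fun p : (Fin N → Ω) × Ω => Function.update p.1 j p.2) ⁻¹' (Set.univ.pi s) =
      (Set.univ.pi (Function.update s j Set.univ)) ×ˢ (s j) := by
    ext p
    simp only [Set.mem_preimage, Set.mem_univ_pi, Set.mem_prod]
    constructor
    · intro h
      refine ⟨fun i => ?_, by simpa using h j⟩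
      by_cases hi : i = j
      · subst hi; simp
      · have := h i
        simpa [hi] using this
    · rintro ⟨ha, hb⟩ i
      by_cases hi : i = j
      · subst hi; simpa using hb
      · have := ha i
        simpa [hi] using this
  rw [h1, Measure.prod_prod]
  unfold law
  rw [Measure.pi_pi, ← Finset.mul_prod_erase univ _ (Finset.mem_univ j),
    ← Finset.mul_prod_erase univ (fun i => μ (s i)) (Finset.mem_univ j)]
  simp only [Function.update_self, measure_univ, one_mul]
  rw [mul_comm]
  congr 1
  refine Finset.prod_congr rfl fun i hi => ?_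
  rw [Function.update_of_ne (Finset.ne_of_mem_erase hi)]

theorem lint_resample (j : Fin N) (f : (Fin N → Ω) → ℝ≥0∞) (hf : Measurable f) :
    ∫⁻ X, f X ∂(law μ N) =
      ∫⁻ X, ∫⁻ t, f (Function.update X j t) ∂μ ∂(law μ N) := by
  rw [← (resample μ j).lintegral_comp hf]
  exact lintegral_prod (fun p : (Fin N → Ω) × Ω => f (Function.update p.1 j p.2))
    (hf.comp (resample μ j).measurable).aemeasurable

theorem meas_update (j : Fin N) (f : (Fin N → Ω) → ℝ≥0∞) (hf : Measurable f) :
    Measurable fun X => ∫⁻ t, f (Function.update X j t) ∂μ :=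
  (hf.comp (resample μ j).measurable).lintegral_prod_right'

/-- A relation between the coordinates `i` and `j` which has constant probability for each value of
the coordinate `i` is independent of the events which do not depend on `j`. -/
theorem indep_gen (E : Ω → Ω → Prop) (hE : MeasurableSet {p : Ω × Ω | E p.1 p.2}) (v : ℝ≥0∞)
    (hv : ∀ x, μ {y | E x y} = v) {i j : Fin N} (hij : i ≠ j) (A : Set (Fin N → Ω))
    (hA : MeasurableSet A) (hAj : ∀ X t, Function.update X j t ∈ A ↔ X ∈ A) :
    law μ N (A ∩ {X | E (X i) (X j)}) = law μ N A * v := by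
  have hm : Measurable fun X : Fin N → Ω => (X i, X j) :=
    (measurable_pi_apply i).prodMk (measurable_pi_apply j)
  have hB : MeasurableSet {X : Fin N → Ω | E (X i) (X j)} := hm hE
  rw [← lintegral_indicator_one (hA.inter hB), lint_resample μ j _
    (measurable_one.indicator (hA.inter hB)), ← lintegral_indicator_one hA,
    ← lintegral_mul_const _ (measurable_one.indicator hA)]
  refine lintegral_congr fun X => ?_
  by_cases hX : X ∈ A
  · have h1 : ∀ t, (A ∩ {X : Fin N → Ω | E (X i) (X j)}).indicator 1 (Function.update X j t) =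
        ({y | E (X i) y} : Set Ω).indicator (1 : Ω → ℝ≥0∞) t := by
      intro t
      by_cases ht : E (X i) t
      · rw [Set.indicator_of_mem, Set.indicator_of_mem]
        · rfl
        · exact ht
        · refine ⟨(hAj X t).2 hX, ?_⟩
          simpa [Function.update_of_ne hij] using ht
      · rw [Set.indicator_of_notMem, Set.indicator_of_notMem]
        · exact ht
        · rintro ⟨-, h⟩
          apply ht
          simpa [Function.update_of_ne hij] using h
    rw [lintegral_congr h1, lintegral_indicator_one, hv, Set.indicator_of_mem hX]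
    · simp
    · have : Measurable fun y : Ω => (X i, y) := measurable_const.prodMk measurable_id
      exact this hE
  · have h1 : ∀ t, (A ∩ {X : Fin N → Ω | E (X i) (X j)}).indicator 1 (Function.update X j t) =
        (0 : ℝ≥0∞) := by
      intro t
      rw [Set.indicator_of_notMem]
      rintro ⟨h, -⟩
      exact hX ((hAj X t).1 h)
    rw [lintegral_congr h1, Set.indicator_of_notMem hX]
    simp

end measure

/-- A homogeneous relation. -/
structure Geo (μ : Measure Ω) (E : Ω → Ω → Prop) (v τ : ℝ) : Prop where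
  symm : ∀ x y, E x y → E y x
  meas : MeasurableSet {p : Ω × Ω | E p.1 p.2}
  vol : ∀ x, μ {y | E x y} = ENNReal.ofReal v
  vpos : 0 < v
  tau : 0 ≤ τ
  tri : ∀ x, ∫⁻ u in {u | E x u}, μ ({y | E x y} ∩ {y | E u y}) ∂μ ≤ ENNReal.ofReal τ

section geo

variable {μ : Measure Ω} [IsProbabilityMeasure μ] {E : Ω → Ω → Prop} {v τ : ℝ}

/-- The event that two points are close. -/
def nrE (E : Ω → Ω → Prop) (N : ℕ) (p : Fin N × Fin N) : Set (Fin N → Ω) :=
  {X | E (X p.1) (X p.2)}

omit [IsProbabilityMeasure μ] in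
theorem nrE_swap (G : Geo μ E v τ) (p : Fin N × Fin N) : nrE E N (p.2, p.1) = nrE E N p := by
  ext X
  exact ⟨G.symm _ _, G.symm _ _⟩

omit [IsProbabilityMeasure μ] in
theorem nrE_meas (G : Geo μ E v τ) (p : Fin N × Fin N) : MeasurableSet (nrE E N p) := by
  have hm : Measurable fun X : Fin N → Ω => (X p.1, X p.2) :=
    (measurable_pi_apply p.1).prodMk (measurable_pi_apply p.2)
  exact hm G.meas

theorem nrE_inter (G : Geo μ E v τ) {p : Fin N × Fin N} (hp : p.1 ≠ p.2)
    (A : Set (Fin N → Ω)) (hA : MeasurableSet A)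
    (hAj : ∀ X t, Function.update X p.2 t ∈ A ↔ X ∈ A) :
    law μ N (A ∩ nrE E N p) = law μ N A * ENNReal.ofReal v :=
  indep_gen μ E G.meas _ G.vol hp A hA hAj

theorem nrE_one (G : Geo μ E v τ) {p : Fin N × Fin N} (hp : p.1 ≠ p.2) :
    law μ N (nrE E N p) = ENNReal.ofReal v := by
  have h := nrE_inter G hp Set.univ MeasurableSet.univ fun X t => by simp
  simpa using h

omit [MeasurableSpace Ω] in
theorem nrE_update (E : Ω → Ω → Prop) (p : Fin N × Fin N) (j : Fin N) (h1 : j ≠ p.1)
    (h2 : j ≠ p.2) (X : Fin N → Ω) (t : Ω) :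
    Function.update X j t ∈ nrE E N p ↔ X ∈ nrE E N p := by
  simp only [nrE, Set.mem_ofPred_eq, Function.update_of_ne h1.symm, Function.update_of_ne h2.symm]

theorem nrE_two (G : Geo μ E v τ) {p q : Fin N × Fin N} (hp : p.1 < p.2)
    (hq : q.1 < q.2) (hpq : p ≠ q) :
    law μ N (nrE E N p ∩ nrE E N q) = ENNReal.ofReal v ^ 2 := by
  rw [sq]
  by_cases h : q.2 ≠ p.1 ∧ q.2 ≠ p.2
  · rw [nrE_inter G hq.ne _ (nrE_meas G p) (nrE_update E p q.2 h.1 h.2), nrE_one G hp.ne]
  · have h1 : q.1 ≠ p.1 ∧ q.1 ≠ p.2 := by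
      by_cases h2 : q.2 = p.1
      · have : q.1 < p.1 := by rw [← h2]; exact hq
        exact ⟨this.ne, (this.trans hp).ne⟩
      · have h3 : q.2 = p.2 := by
          by_contra h4
          exact h ⟨h2, h4⟩
        refine ⟨fun h4 => hpq (Prod.ext h4.symm h3.symm), ?_⟩
        rw [← h3]
        exact hq.ne
    have hsw : nrE E N q = nrE E N (q.2, q.1) := (nrE_swap G q).symm
    rw [hsw]
    have := nrE_inter G (p := (q.2, q.1)) hq.ne' _ (nrE_meas G p)
      (nrE_update E p q.1 h1.1 h1.2)
    rw [this, nrE_one G hp.ne]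

/-- The indicator of a close pair. -/
noncomputable def ind (E : Ω → Ω → Prop) (N : ℕ) (p : Fin N × Fin N) : (Fin N → Ω) → ℝ :=
  (nrE E N p).indicator 1

theorem ind_memLp (G : Geo μ E v τ) (p : Fin N × Fin N) : MemLp (ind E N p) 2 (law μ N) := by
  unfold ind
  exact (memLp_const (1 : ℝ)).indicator (nrE_meas G p)

theorem ind_int (G : Geo μ E v τ) {p : Fin N × Fin N} (hp : p.1 < p.2) :
    ∫ X, ind E N p X ∂(law μ N) = v := by
  unfold ind
  rw [integral_indicator_one (nrE_meas G p), measureReal_def, nrE_one G hp.ne,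
    ENNReal.toReal_ofReal G.vpos.le]

theorem ind_cov (G : Geo μ E v τ) {p q : Fin N × Fin N} (hp : p.1 < p.2)
    (hq : q.1 < q.2) (hpq : p ≠ q) : cov[ind E N p, ind E N q; law μ N] = 0 := by
  rw [covariance_eq_sub (ind_memLp G p) (ind_memLp G q), ind_int G hp, ind_int G hq]
  have h : ind E N p * ind E N q = (nrE E N p ∩ nrE E N q).indicator 1 := by
    unfold ind
    rw [Set.inter_indicator_one]
  rw [h, integral_indicator_one ((nrE_meas G p).inter (nrE_meas G q)), measureReal_def,
    nrE_two G hp hq hpq, ENNReal.toReal_pow, ENNReal.toReal_ofReal G.vpos.le]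
  ring

theorem ind_var (G : Geo μ E v τ) {p : Fin N × Fin N} (hp : p.1 < p.2) :
    Var[ind E N p; law μ N] ≤ v := by
  refine (variance_le_expectation_sq (ind_memLp G p).aestronglyMeasurable).trans (le_of_eq ?_)
  rw [← ind_int G hp]
  congr 1
  funext X
  unfold ind
  by_cases h : X ∈ nrE E N p
  · simp [Set.indicator_of_mem h]
  · simp [Set.indicator_of_notMem h]

/-- The pairs. -/
def prs (N : ℕ) : Finset (Fin N × Fin N) := univ.filter fun p => p.1 < p.2

/-- The number of close pairs is concentrated. -/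
theorem edges_le (G : Geo μ E v τ) {η : ℝ} (hη : 0 < η) (hC : 0 < (prs N).card) :
    (law μ N).real {X | (1 + η) * ((prs N).card * v) ≤ ∑ p ∈ prs N, ind E N p X} ≤
      1 / (η ^ 2 * ((prs N).card * v)) := by
  have hv := G.vpos
  have hC' : (0 : ℝ) < (prs N).card := by exact_mod_cast hC
  set W : (Fin N → Ω) → ℝ := fun X => ∑ p ∈ prs N, ind E N p X with hW
  have hmem : MemLp W 2 (law μ N) := memLp_finsetSum _ fun p _ => ind_memLp G p
  have hlt : ∀ p ∈ prs N, p.1 < p.2 := fun p hp => (Finset.mem_filter.1 hp).2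
  have hint : ∫ X, W X ∂(law μ N) = (prs N).card * v := by
    rw [hW, integral_finsetSum _ fun p _ => (ind_memLp G p).integrable one_le_two,
      Finset.sum_congr rfl fun p hp => ind_int G (hlt p hp), Finset.sum_const, nsmul_eq_mul]
  have hvar : Var[W; law μ N] ≤ (prs N).card * v := by
    rw [hW, variance_fun_sum' fun p _ => ind_memLp G p]
    have h1 : ∀ p ∈ prs N, ∑ q ∈ prs N, cov[ind E N p, ind E N q; law μ N] ≤ v := by
      intro p hp
      rw [Finset.sum_eq_single_of_mem p hp fun q hq hqp =>
        ind_cov G (hlt p hp) (hlt q hq) hqp.symm,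
        covariance_self (ind_memLp G p).aemeasurable]
      exact ind_var G (hlt p hp)
    refine (Finset.sum_le_sum h1).trans ?_
    rw [Finset.sum_const, nsmul_eq_mul]
  have hc : 0 < η * ((prs N).card * v) := by positivity
  have h := meas_ge_le_variance_div_sq hmem hc
  rw [hint] at h
  have hsub : {X | (1 + η) * ((prs N).card * v) ≤ W X} ⊆
      {X | η * ((prs N).card * v) ≤ |W X - (prs N).card * v|} := by
    intro X hX
    simp only [Set.mem_ofPred_eq] at hX ⊢
    refine le_trans ?_ (le_abs_self _)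
    linarith
  have h2 := (measure_mono hsub).trans h
  have h3 := ENNReal.toReal_mono ENNReal.ofReal_ne_top h2
  have h0 : 0 ≤ Var[W; law μ N] / (η * ((prs N).card * v)) ^ 2 :=
    div_nonneg (variance_nonneg _ _) (sq_nonneg _)
  rw [ENNReal.toReal_ofReal h0] at h3
  refine h3.trans ?_
  rw [div_le_div_iff₀ (by positivity) (by positivity)]
  have h4 := mul_le_mul_of_nonneg_right hvar
    (show 0 ≤ η ^ 2 * ((prs N).card * v) by positivity)
  refine h4.trans (le_of_eq ?_)
  ring

/-- The event that three points are mutually close. -/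
def tri (E : Ω → Ω → Prop) (N : ℕ) (i j k : Fin N) : Set (Fin N → Ω) :=
  nrE E N (i, j) ∩ (nrE E N (i, k) ∩ nrE E N (j, k))

omit [IsProbabilityMeasure μ] in
theorem tri_meas (G : Geo μ E v τ) (i j k : Fin N) : MeasurableSet (tri E N i j k) :=
  (nrE_meas G _).inter ((nrE_meas G _).inter (nrE_meas G _))

theorem tri_le (G : Geo μ E v τ) {i j k : Fin N} (hij : i ≠ j) (hik : i ≠ k) (hjk : j ≠ k) :
    law μ N (tri E N i j k) ≤ ENNReal.ofReal τ := by
  have hT : ∀ x, MeasurableSet {y | E x y} := fun x => by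
    have : Measurable fun y : Ω => (x, y) := measurable_const.prodMk measurable_id
    exact this G.meas
  have hf : Measurable ((tri E N i j k).indicator (1 : (Fin N → Ω) → ℝ≥0∞)) :=
    measurable_one.indicator (tri_meas G i j k)
  rw [← lintegral_indicator_one (tri_meas G i j k), lint_resample μ k _ hf,
    lint_resample μ j _ (meas_update μ k _ hf)]
  have h1 : ∀ X : Fin N → Ω, ∀ u t, Function.update (Function.update X j u) k t i = X i ∧
      Function.update (Function.update X j u) k t j = u ∧
      Function.update (Function.update X j u) k t k = t := by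
    intro X u t
    refine ⟨?_, ?_, ?_⟩
    · rw [Function.update_of_ne hik, Function.update_of_ne hij]
    · rw [Function.update_of_ne hjk, Function.update_self]
    · rw [Function.update_self]
  have h2 : ∀ X : Fin N → Ω, ∀ u, ∫⁻ t, (tri E N i j k).indicator (1 : (Fin N → Ω) → ℝ≥0∞)
      (Function.update (Function.update X j u) k t) ∂μ =
      ({u | E (X i) u} : Set Ω).indicator (fun u => μ ({y | E (X i) y} ∩ {y | E u y})) u := by
    intro X u
    by_cases hu : E (X i) u
    · rw [Set.indicator_of_mem (show u ∈ {u | E (X i) u} from hu),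
        ← lintegral_indicator_one ((hT (X i)).inter (hT u))]
      refine lintegral_congr fun t => ?_
      obtain ⟨e1, e2, e3⟩ := h1 X u t
      by_cases ht : t ∈ ({y | E (X i) y} ∩ {y | E u y} : Set Ω)
      · rw [Set.indicator_of_mem ht, Set.indicator_of_mem]
        · rfl
        · unfold tri nrE
          simp only [Set.mem_inter_iff, Set.mem_ofPred_eq, e1, e2, e3]
          exact ⟨hu, ht.1, ht.2⟩
      · rw [Set.indicator_of_notMem ht, Set.indicator_of_notMem]
        unfold tri nrE
        simp only [Set.mem_inter_iff, Set.mem_ofPred_eq, e1, e2, e3]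
        exact fun h => ht ⟨h.2.1, h.2.2⟩
    · rw [Set.indicator_of_notMem (show u ∉ {u | E (X i) u} from hu)]
      refine (lintegral_congr fun t => ?_).trans lintegral_zero
      obtain ⟨e1, e2, e3⟩ := h1 X u t
      rw [Set.indicator_of_notMem]
      unfold tri nrE
      simp only [Set.mem_inter_iff, Set.mem_ofPred_eq, e1, e2, e3]
      exact fun h => hu h.1
  calc _ = ∫⁻ X : Fin N → Ω, ∫⁻ u, ({u | E (X i) u} : Set Ω).indicator
        (fun u => μ ({y | E (X i) y} ∩ {y | E u y})) u ∂μ ∂(law μ N) :=
        lintegral_congr fun X => lintegral_congr fun u => h2 X u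
    _ ≤ ∫⁻ _ : Fin N → Ω, ENNReal.ofReal τ ∂(law μ N) := by
        refine lintegral_mono fun X => ?_
        simp only
        rw [lintegral_indicator (hT (X i))]
        exact G.tri (X i)
    _ = ENNReal.ofReal τ := by simp

/-! ### The good event -/

/-- Splitting a symmetric sum over the pairs. -/
theorem sum_pairs (f : Fin m × Fin m → ℝ) (hf : ∀ p, f (p.2, p.1) = f p) :
    ∑ p, f p = 2 * ∑ p ∈ prs m, f p + ∑ i, f (i, i) := by
  rw [← Finset.sum_filter_add_sum_filter_not univ (fun p : Fin m × Fin m => p.1 < p.2) f]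
  have h1 : ∑ p ∈ univ.filter (fun p : Fin m × Fin m => ¬ p.1 < p.2), f p =
      ∑ p ∈ univ.filter (fun p : Fin m × Fin m => p.2 < p.1), f p +
        ∑ p ∈ univ.filter (fun p : Fin m × Fin m => p.1 = p.2), f p := by
    rw [← Finset.sum_union]
    · congr 1
      ext p
      simp only [Finset.mem_filter, Finset.mem_univ, true_and, Finset.mem_union]
      constructor
      · intro h
        rcases lt_or_eq_of_le (not_lt.1 h) with h2 | h2
        · exact Or.inl h2
        · exact Or.inr h2.symm
      · rintro (h | h)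
        · exact not_lt.2 h.le
        · rw [h]; exact lt_irrefl _
    · rw [Finset.disjoint_filter]
      intro p _ h1 h2
      rw [h2] at h1
      exact lt_irrefl _ h1
  have h2 : ∑ p ∈ univ.filter (fun p : Fin m × Fin m => p.2 < p.1), f p =
      ∑ p ∈ prs m, f p := by
    refine Finset.sum_bij' (fun p _ => (p.2, p.1)) (fun p _ => (p.2, p.1)) ?_ ?_ ?_ ?_ ?_
    · intro p hp
      exact Finset.mem_filter.2 ⟨Finset.mem_univ _, (Finset.mem_filter.1 hp).2⟩
    · intro p hp
      exact Finset.mem_filter.2 ⟨Finset.mem_univ _, (Finset.mem_filter.1 hp).2⟩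
    · intro p _; rfl
    · intro p _; rfl
    · intro p _; exact (hf p).symm
  have h3 : ∑ p ∈ univ.filter (fun p : Fin m × Fin m => p.1 = p.2), f p = ∑ i, f (i, i) := by
    refine Finset.sum_bij' (fun p _ => p.1) (fun i _ => (i, i)) ?_ ?_ ?_ ?_ ?_
    · intro p _; exact Finset.mem_univ _
    · intro i _; exact Finset.mem_filter.2 ⟨Finset.mem_univ _, rfl⟩
    · intro p hp
      exact Prod.ext rfl (Finset.mem_filter.1 hp).2
    · intro i _; rfl
    · intro p hp
      have := (Finset.mem_filter.1 hp).2
      congr 1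
      exact Prod.ext rfl this.symm
  rw [h1, h2, h3]
  unfold prs
  ring

theorem card_prs (m : ℕ) : (m : ℝ) ^ 2 = 2 * (prs m).card + m := by
  have h := sum_pairs (m := m) (fun _ => 1) fun _ => rfl
  simp only [Finset.sum_const, Finset.card_univ, Fintype.card_prod, Fintype.card_fin,
    nsmul_eq_mul, mul_one] at h
  push_cast at h
  rw [sq]
  exact h

/-- Two of the points are close. -/
def adj (E : Ω → Ω → Prop) (X : Fin m → Ω) (i j : Fin m) : Prop := i ≠ j ∧ E (X i) (X j)

omit [IsProbabilityMeasure μ] in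
theorem adj_symm (G : Geo μ E v τ) (X : Fin m → Ω) (i j : Fin m) (h : adj E X i j) :
    adj E X j i := ⟨h.1.symm, G.symm _ _ h.2⟩

omit [MeasurableSpace Ω] in
theorem adj_irrefl (X : Fin m → Ω) (i : Fin m) : ¬ adj E X i i := fun h => h.1 rfl

open Classical in
omit [IsProbabilityMeasure μ] in
theorem eb_univ (G : Geo μ E v τ) (X : Fin m → Ω) :
    eb (adj E X) univ univ = 2 * ∑ p ∈ prs m, ind E m p X := by
  have h1 : eb (adj E X) univ univ = ∑ p : Fin m × Fin m, am (adj E X) p.1 p.2 := by
    unfold eb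
    rw [← Finset.univ_product_univ, Finset.sum_product]
  have h2 := sum_pairs (m := m) (fun p => am (adj E X) p.1 p.2) fun p => by
    unfold am
    have : adj E X p.2 p.1 ↔ adj E X p.1 p.2 := ⟨adj_symm G X _ _, adj_symm G X _ _⟩
    simp only [this]
  have h3 : ∑ i, am (adj E X) i i = 0 := Finset.sum_eq_zero fun i _ => by
    unfold am
    rw [if_neg (adj_irrefl X i)]
  rw [h1, h2, h3, add_zero]
  congr 1
  refine Finset.sum_congr rfl fun p hp => ?_
  have hlt := (Finset.mem_filter.1 hp).2
  unfold am ind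
  by_cases h : E (X p.1) (X p.2)
  · rw [if_pos ⟨hlt.ne, h⟩, Set.indicator_of_mem (show X ∈ nrE E m p from h)]
    rfl
  · rw [if_neg fun h' => h h'.2, Set.indicator_of_notMem (show X ∉ nrE E m p from h)]

open Classical in
/-- The points in close triples. -/
noncomputable def Bd (E : Ω → Ω → Prop) (X : Fin m → Ω) : Finset (Fin m) :=
  univ.filter fun i => ∃ j k, i ≠ j ∧ i ≠ k ∧ j ≠ k ∧ X ∈ tri E m i j k

open Classical in
/-- The number of close triples. -/
noncomputable def nT (E : Ω → Ω → Prop) (m : ℕ) (X : Fin m → Ω) : ℝ≥0∞ :=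
  ∑ i : Fin m, ∑ j : Fin m, ∑ k : Fin m,
    if i ≠ j ∧ i ≠ k ∧ j ≠ k then (tri E m i j k).indicator 1 X else 0

omit [IsProbabilityMeasure μ] in
theorem nT_meas (G : Geo μ E v τ) : Measurable (nT E m) := by
  unfold nT
  refine Finset.measurable_sum _ fun i _ => Finset.measurable_sum _ fun j _ =>
    Finset.measurable_sum _ fun k _ => ?_
  split_ifs
  · exact measurable_one.indicator (tri_meas G i j k)
  · exact measurable_const

open Classical in
omit [MeasurableSpace Ω] in
theorem Bd_le (X : Fin m → Ω) : ((Bd E X).card : ℝ≥0∞) ≤ nT E m X := by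
  have h1 : ((Bd E X).card : ℝ≥0∞) = ∑ i : Fin m, if i ∈ Bd E X then 1 else 0 := by
    rw [Finset.sum_boole]
    simp
  rw [h1]
  unfold nT
  refine Finset.sum_le_sum fun i _ => ?_
  by_cases hi : i ∈ Bd E X
  · rw [if_pos hi]
    obtain ⟨j, k, h⟩ := (Finset.mem_filter.1 hi).2
    calc (1 : ℝ≥0∞) = (if i ≠ j ∧ i ≠ k ∧ j ≠ k then (tri E m i j k).indicator 1 X else 0) := by
          rw [if_pos ⟨h.1, h.2.1, h.2.2.1⟩, Set.indicator_of_mem h.2.2.2]
          rfl
      _ ≤ ∑ k : Fin m, if i ≠ j ∧ i ≠ k ∧ j ≠ k then (tri E m i j k).indicator 1 X else 0 :=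
          Finset.single_le_sum (f := fun k => if i ≠ j ∧ i ≠ k ∧ j ≠ k then
            (tri E m i j k).indicator (1 : (Fin m → Ω) → ℝ≥0∞) X else 0) (fun _ _ => zero_le)
            (Finset.mem_univ k)
      _ ≤ _ := Finset.single_le_sum (f := fun j => ∑ k : Fin m, if i ≠ j ∧ i ≠ k ∧ j ≠ k then
            (tri E m i j k).indicator (1 : (Fin m → Ω) → ℝ≥0∞) X else 0) (fun _ _ => zero_le)
            (Finset.mem_univ j)
  · rw [if_neg hi]
    exact zero_le

theorem nT_int (G : Geo μ E v τ) :
    ∫⁻ X, nT E m X ∂(law μ m) ≤ (m : ℝ≥0∞) * (m * (m * ENNReal.ofReal τ)) := by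
  unfold nT
  set b := ENNReal.ofReal τ with hb
  have hm : ∀ i j k : Fin m, Measurable fun X : Fin m → Ω =>
      if i ≠ j ∧ i ≠ k ∧ j ≠ k then (tri E m i j k).indicator (1 : (Fin m → Ω) → ℝ≥0∞) X
        else 0 := by
    intro i j k
    split_ifs
    · exact measurable_one.indicator (tri_meas G i j k)
    · exact measurable_const
  rw [lintegral_finsetSum _ fun i _ => Finset.measurable_sum _ fun j _ =>
    Finset.measurable_sum _ fun k _ => hm i j k]
  have h1 : ∀ i : Fin m, ∫⁻ X, ∑ j : Fin m, ∑ k : Fin m,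
      (if i ≠ j ∧ i ≠ k ∧ j ≠ k then (tri E m i j k).indicator (1 : (Fin m → Ω) → ℝ≥0∞) X
        else 0) ∂(law μ m) ≤ m * (m * b) := by
    intro i
    rw [lintegral_finsetSum _ fun j _ => Finset.measurable_sum _ fun k _ => hm i j k]
    have h2 : ∀ j : Fin m, ∫⁻ X, ∑ k : Fin m,
        (if i ≠ j ∧ i ≠ k ∧ j ≠ k then (tri E m i j k).indicator (1 : (Fin m → Ω) → ℝ≥0∞) X
          else 0) ∂(law μ m) ≤ m * b := by
      intro j
      rw [lintegral_finsetSum _ fun k _ => hm i j k]
      have h3 : ∀ k : Fin m, ∫⁻ X,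
          (if i ≠ j ∧ i ≠ k ∧ j ≠ k then (tri E m i j k).indicator (1 : (Fin m → Ω) → ℝ≥0∞) X
            else 0) ∂(law μ m) ≤ b := by
        intro k
        by_cases h : i ≠ j ∧ i ≠ k ∧ j ≠ k
        · simp only [if_pos h]
          rw [lintegral_indicator_one (tri_meas G i j k)]
          exact tri_le G h.1 h.2.1 h.2.2
        · simp only [if_neg h]
          simp
      refine (Finset.sum_le_sum fun k _ => h3 k).trans ?_
      simp
    refine (Finset.sum_le_sum fun j _ => h2 j).trans ?_
    simp
  refine (Finset.sum_le_sum fun i _ => h1 i).trans ?_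
  simp

/-- Few points are in close triples. -/
theorem Bd_prob (G : Geo μ E v τ) (hm : 1 ≤ m) {η : ℝ} (hη : 0 < η) :
    (law μ m).real {X | η * m ≤ (Bd E X).card} ≤ m ^ 2 * τ / η := by
  have hmR : (0 : ℝ) < m := by exact_mod_cast hm
  have hτ := G.tau
  have hc : ENNReal.ofReal (η * m) ≠ 0 := by
    rw [Ne, ENNReal.ofReal_eq_zero, not_le]
    positivity
  have hsub : {X : Fin m → Ω | η * m ≤ (Bd E X).card} ⊆
      {X | ENNReal.ofReal (η * m) ≤ nT E m X} := by
    intro X hX
    simp only [Set.mem_ofPred_eq] at hX ⊢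
    refine le_trans ?_ (Bd_le X)
    rw [← ENNReal.ofReal_natCast]
    exact ENNReal.ofReal_le_ofReal hX
  have h1 := (measure_mono hsub).trans
    (meas_ge_le_lintegral_div (μ := law μ m) (nT_meas G).aemeasurable hc ENNReal.ofReal_ne_top)
  have h2 : (∫⁻ X, nT E m X ∂(law μ m)) / ENNReal.ofReal (η * m) ≤
      ENNReal.ofReal (m ^ 2 * τ / η) := by
    refine (ENNReal.div_le_div_right (nT_int G) _).trans ?_
    rw [← ENNReal.ofReal_natCast, ← ENNReal.ofReal_mul (by positivity),
      ← ENNReal.ofReal_mul (by positivity), ← ENNReal.ofReal_mul (by positivity),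
      ← ENNReal.ofReal_div_of_pos (by positivity)]
    refine ENNReal.ofReal_le_ofReal (le_of_eq ?_)
    field_simp
  have h3 := ENNReal.toReal_mono ENNReal.ofReal_ne_top (h1.trans h2)
  rwa [ENNReal.toReal_ofReal (by positivity)] at h3

omit [IsProbabilityMeasure μ] in
/-- Points with few close pairs and few points in close triples contain a large family. -/
theorem best_ge (G : Geo μ E v τ) (hm : 1 ≤ m) {η : ℝ} (h0 : 0 < η) (h1 : η < 1)
    (hL : 1 ≤ Real.log (m * v)) (X : Fin m → Ω)
    (hB : ((Bd E X).card : ℝ) ≤ η * m)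
    (hE : ∑ p ∈ prs m, ind E m p X ≤ (1 + η) * ((prs m).card * v)) :
    (1 - η) ^ 2 / (1 + η) * (Real.log (m * v) - 1) ≤ best E X * v := by
  classical
  have hmR : (0 : ℝ) < m := by exact_mod_cast hm
  have hv := G.vpos
  set L := m * v with hLdef
  have hL0 : 0 < L := by positivity
  set S : Finset (Fin m) := univ \ Bd E X with hS
  have hScard : (1 - η) * m ≤ S.card := by
    have h2 : (S.card : ℝ) = m - (Bd E X).card := by
      rw [hS, Finset.card_sdiff_of_subset (Finset.subset_univ _), Finset.card_univ,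
        Fintype.card_fin, Nat.cast_sub]
      simpa using (Bd E X).card_le_univ
    rw [h2]
    linarith
  have hSpos : (0 : ℝ) < S.card := lt_of_lt_of_le (by nlinarith) hScard
  obtain ⟨I, hIS, hI, hIc⟩ := shearer (adj E X) (adj_symm G X) (adj_irrefl X) _ S rfl (by
    intro a ha b hb c hc hab hbc hac
    rw [hS, Finset.mem_sdiff] at ha
    apply ha.2
    refine Finset.mem_filter.2 ⟨Finset.mem_univ _, b, c, hab.1, hac.1, hbc.1, ?_⟩
    exact ⟨hab.2, hac.2, hbc.2⟩)
  have hIbest : I.card ≤ best E X := le_best fun i hi j hj hij h => hI i hi j hj ⟨hij, h⟩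
  have heb : eb (adj E X) S S ≤ (1 + η) * m * L := by
    refine (eb_mono (adj E X) (Finset.subset_univ S)).trans ?_
    rw [eb_univ G X]
    have h2 := card_prs m
    have h3 : 2 * ((1 + η) * ((prs m).card * v)) ≤ (1 + η) * m * L := by
      have h4 : 2 * ((prs m).card : ℝ) ≤ m ^ 2 := by linarith
      have h5 := mul_le_mul_of_nonneg_right h4 (show 0 ≤ (1 + η) * v by positivity)
      rw [hLdef]
      nlinarith
    linarith
  set d := (1 + η) / (1 - η) * L with hd
  have h1' : 0 < 1 - η := by linarith
  have hd0 : 0 < d := by positivity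
  have hdL : L ≤ d := by
    rw [hd]
    have : 1 ≤ (1 + η) / (1 - η) := by
      rw [le_div_iff₀ h1']
      linarith
    nlinarith
  have hdle : eb (adj E X) S S / S.card ≤ d := by
    rw [div_le_iff₀ hSpos]
    refine heb.trans ?_
    calc (1 + η) * m * L = d * ((1 - η) * m) := by
          rw [hd]
          field_simp
      _ ≤ d * S.card := mul_le_mul_of_nonneg_left hScard hd0.le
  have hsf : (Real.log L - 1) / d ≤ sf (eb (adj E X) S S / S.card) := by
    refine le_trans ?_ (sf_anti (div_nonneg (eb_nonneg _ _ _) hSpos.le) hdle)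
    refine le_trans ?_ (sf_ge hd0)
    refine div_le_div_of_nonneg_right ?_ hd0.le
    have : Real.log L ≤ Real.log (1 + d) := Real.log_le_log hL0 (by linarith)
    linarith
  have h2 : (1 - η) * m * ((Real.log L - 1) / d) ≤ best E X := by
    have h3 : 0 ≤ (Real.log L - 1) / d := div_nonneg (by linarith) hd0.le
    calc (1 - η) * m * ((Real.log L - 1) / d) ≤ S.card * ((Real.log L - 1) / d) :=
          mul_le_mul_of_nonneg_right hScard h3
      _ ≤ S.card * sf (eb (adj E X) S S / S.card) := mul_le_mul_of_nonneg_left hsf hSpos.le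
      _ ≤ I.card := hIc
      _ ≤ best E X := by exact_mod_cast hIbest
  have h3 := mul_le_mul_of_nonneg_right h2 hv.le
  refine le_trans (le_of_eq ?_) h3
  rw [hd, hLdef]
  field_simp

/-- **The lower bound for `m` points.** -/
theorem low_m (G : Geo μ E v τ) (hm : 2 ≤ m) {η : ℝ} (h0 : 0 < η)
    (h1 : η < 1) (hL : 1 ≤ Real.log (m * v)) :
    (law μ m).real {X | best E X * v < (1 - η) ^ 2 / (1 + η) * (Real.log (m * v) - 1)} ≤
      4 * v / (η ^ 2 * (m * v) ^ 2) + m ^ 2 * τ / η := by
  have hmR : (2 : ℝ) ≤ m := by exact_mod_cast hm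
  have hv := G.vpos
  have hC := card_prs m
  have hC1 : (m : ℝ) ^ 2 / 4 ≤ (prs m).card := by nlinarith
  have hC0 : 0 < (prs m).card := by
    have : (0 : ℝ) < (prs m).card := lt_of_lt_of_le (by positivity) hC1
    exact_mod_cast this
  have hsub : {X : Fin m → Ω | best E X * v <
      (1 - η) ^ 2 / (1 + η) * (Real.log (m * v) - 1)} ⊆
      {X | (1 + η) * ((prs m).card * v) ≤ ∑ p ∈ prs m, ind E m p X} ∪
        {X | η * m ≤ (Bd E X).card} := by
    intro X hX
    by_contra hcon
    simp only [Set.mem_union, Set.mem_ofPred_eq, not_or, not_le] at hcon hX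
    exact absurd (best_ge G (by omega) h0 h1 hL X hcon.2.le hcon.1.le) (not_le.2 hX)
  refine (measureReal_mono hsub (measure_ne_top _ _)).trans ?_
  refine (measureReal_union_le _ _).trans ?_
  refine add_le_add ?_ (Bd_prob G (by omega) h0)
  refine (edges_le G h0 hC0).trans ?_
  have h2 : (m : ℝ) ^ 2 / 4 * v ≤ (prs m).card * v :=
    mul_le_mul_of_nonneg_right hC1 hv.le
  have h3 : 4 * v / (η ^ 2 * (m * v) ^ 2) = 1 / (η ^ 2 * ((m : ℝ) ^ 2 / 4 * v)) := by
    field_simp
  rw [h3]
  exact one_div_le_one_div_of_le (by positivity) (mul_le_mul_of_nonneg_left h2 (by positivity))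

end geo

end Pool.Agent.U279.GP
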