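import Pool.Agent.U279.GP.Cnt
import Pool.Agent.U180.CG.Crit

/-!
# The number of all codes
-/

set_option autoImplicit false

namespace Pool.Agent.U279.GP

open Set Finset Filter Topology
open Pool.Agent.U180.CG (cl cl_symm cl_refl nb mem_nb nb_card sparse Dl Nk Z Z_pos inds mem_inds
  ball_pos card_word X1 X2 h X1_pos X2_pos vol_asym mid_asym Dl_asym poly_small exp_small
  exists_W)
open Pool.Agent.U180.BC (Word ball)

variable {n t k : ℕ}

/-- The subsets of a best code. -/
theorem choose_le (n t k : ℕ) :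
    (Pool.Agent.U180.CG.A n (t + 1)).choose k ≤ Nk n t k := by
  classical
  obtain ⟨C, hC1, hC2⟩ : Pool.Agent.U180.CG.A n (t + 1) ∈
      {k | ∃ C : Finset (Word n), Pool.Agent.U180.CG.IsCode (t + 1) C ∧ C.card = k} :=
    Nat.sSup_mem ⟨0, ∅, by
      intro x hx
      simp at hx, rfl⟩ (Pool.Agent.U180.CG.A_bdd n (t + 1))
  rw [← hC2, ← Finset.card_powersetCard]
  unfold Nk
  refine Finset.card_le_card fun I hI => ?_
  rw [mem_powersetCard] at hI
  rw [mem_filter, mem_inds]
  refine ⟨⟨subset_univ _, ?_⟩, hI.2⟩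
  rw [← Pool.Agent.U180.CG.isCode_iff]
  intro x hx z hz
  exact hC1 x (hI.1 hx) z (hI.1 hz)

/-- The number of all codes and the partition function. -/
theorem card_le_Z {lam : ℝ} (hl : 0 < lam) (hl1 : lam ≤ 1) :
    ((inds (cl n t) (univ : Finset (Word n))).card : ℝ) * lam ^ Pool.Agent.U180.CG.A n (t + 1) ≤
      Z (cl n t) lam univ := by
  classical
  unfold Z
  rw [← nsmul_eq_mul, ← Finset.sum_const]
  refine Finset.sum_le_sum fun I hI => ?_
  rw [mem_inds] at hI
  exact pow_le_pow_of_le_one hl.le hl1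
    (Pool.Agent.U180.CG.card_le_A (Pool.Agent.U180.CG.isCode_iff.2 hI.2))

/-- The number of all codes, explicit form. -/
theorem gen_le (ht : Even t) (htn : 2 * t ≤ n) {y X : ℝ} (hy : 0 < y) (hy1 : y ≤ 1) (hX : 0 < X)
    (hn : 4 ≤ n)
    (hs : ∀ s : ℕ, 1 ≤ s → s ≤ n → ((n : ℝ) + 1 - 2 * s) ^ 2 < 4 * (t : ℝ) * ((n : ℝ) - t) →
      (2 : ℝ) ^ n ≤ Real.exp (-(y * n)) ^ 2 * ball n t * n.choose s)
    (hV : (1 + 2 * n) * Real.exp (y * n) ≤ ball n t) (hVn : (ball n t : ℝ) ≤ 2 ^ n)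
    (hXn : 1 ≤ Real.exp (y * n) * X) {U : ℝ}
    (hU : k * ((ball n t : ℝ) / 2 ^ n) = U * n) (hXU : X ≤ U) (h : Nk n t k ≠ 0) {Q : ℝ}
    (hQ0 : 0 < Q) (hQ : ∀ lam : ℝ, 0 < lam → lam ≤ 1 → Q * lam ^ k ≤ Z (cl n t) lam univ) :
    Real.log Q ≤ k * (n * Real.log 2 - Real.log k - y * n + y ^ 2 * n / (2 * U) + Real.log n +
      (3 + (4 + Real.log X ^ 2 / X) + 3 / X)) := by
  have hb := ball_pos n t
  have hnR : (4 : ℝ) ≤ n := by exact_mod_cast hn
  have hn0 : (0 : ℝ) < n := by linarith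
  have hU0 : 0 < U := by linarith
  have h2n : (0 : ℝ) < 2 ^ n := by positivity
  have hk0 : 0 < k := by
    rcases Nat.eq_zero_or_pos k with rfl | hk
    · rw [Nat.cast_zero, zero_mul] at hU
      have : 0 < U * n := by positivity
      linarith
    · exact hk
  have hkR : (0 : ℝ) < k := by exact_mod_cast hk0
  have h1 := k_le ht htn (Real.exp_pos _).le hs hk0 h
  rw [hU] at h1
  have hE0 := Real.exp_pos (y * n)
  have hV1 : Real.exp (y * n) ≤ ball n t := by nlinarith
  -- the activity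
  obtain ⟨a, ha⟩ : ∃ a, a = Real.exp (y * n) * U := ⟨_, rfl⟩
  have ha0 : 0 < a := by rw [ha]; positivity
  have ha1 : 1 ≤ a := by
    rw [ha]
    exact hXn.trans (mul_le_mul_of_nonneg_left hXU (Real.exp_pos _).le)
  have hEE : Real.exp (y * n) * Real.exp (-(y * n)) = 1 := by
    rw [← Real.exp_add]
    simp
  have han : a * n ≤ 2 * ball n t := by
    calc a * n = Real.exp (y * n) * (U * n) := by rw [ha]; ring
      _ ≤ Real.exp (y * n) * (Real.exp (-(y * n)) * ball n t + 1) :=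
          mul_le_mul_of_nonneg_left h1 hE0.le
      _ = (Real.exp (y * n) * Real.exp (-(y * n))) * ball n t + Real.exp (y * n) := by ring
      _ ≤ 2 * ball n t := by rw [hEE]; linarith
  have hab : a / ball n t ≤ 1 / 2 := by
    rw [div_le_iff₀ hb]
    nlinarith
  obtain ⟨w, hw, he⟩ := exists_W a ha0.le
  have hw0 : 0 < w := by
    rcases hw.eq_or_lt with h2 | h2
    · rw [← h2, zero_mul] at he
      exact absurd he.symm ha0.ne'
    · exact h2
  obtain ⟨L, hL⟩ : ∃ L, L = Real.log U := ⟨_, rfl⟩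
  obtain ⟨s, hs'⟩ : ∃ s, s = y * n + L := ⟨_, rfl⟩
  have hloga : Real.log a = s := by
    rw [ha, Real.log_mul (Real.exp_pos _).ne' hU0.ne', Real.log_exp, hs', hL]
  have hs0 : 0 ≤ s := by
    rw [← hloga]
    exact Real.log_nonneg ha1
  have hws : w ≤ 1 + s := by
    by_contra hcon
    push Not at hcon
    have h4 : a < w * Real.exp w := by
      calc a = 1 * Real.exp s := by rw [← hloga, Real.exp_log ha0, one_mul]
        _ < w * Real.exp w :=
            mul_lt_mul'' (by linarith) (Real.exp_lt_exp.2 (by linarith)) zero_le_one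
              (Real.exp_pos _).le
    linarith
  have h2 := Pool.Agent.U180.CG.prs_le ht htn (κ := Real.exp (-(y * n))) (Real.exp_pos _).le hs
    hw0 (by rw [he]; exact hab)
  have e1 : Pool.Agent.U180.CG.prs n t w =
      ball n t / 2 ^ n * Real.log (Z (cl n t) (w * Real.exp w / ball n t) univ) := rfl
  rw [e1, he] at h2
  -- the number of codes
  have hlam : 0 < a / ball n t := by positivity
  have h3 := hQ _ hlam (by linarith)
  have h4 := Real.log_le_log (by positivity) h3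
  rw [Real.log_mul hQ0.ne' (by positivity), Real.log_pow, Real.log_div ha0.ne' hb.ne', hloga] at h4
  have hD0 : 0 < (ball n t : ℝ) / 2 ^ n := by positivity
  -- the error terms
  have hUn : U * n ≤ 2 * 2 ^ n := by
    have : Real.exp (-(y * n)) ≤ 1 := by
      rw [Real.exp_le_one_iff]
      have : 0 < y * n := by positivity
      linarith
    have h6 : Real.exp (-(y * n)) * ball n t ≤ 1 * 2 ^ n :=
      mul_le_mul this hVn hb.le zero_le_one
    have h7 : (1 : ℝ) ≤ 2 ^ n := one_le_pow₀ (by norm_num)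
    linarith
  have hlogU : L ≤ n := by
    have h6 : U ≤ 2 ^ n := by nlinarith
    have h7 := Real.log_le_log hU0 h6
    rw [Real.log_pow] at h7
    have h8 : (n : ℝ) * Real.log 2 ≤ n * 1 :=
      mul_le_mul_of_nonneg_left (by linarith [Real.log_two_lt_d9]) hn0.le
    rw [hL]
    linarith
  have hyn : y * n ≤ 1 * n := mul_le_mul_of_nonneg_right hy1 hn0.le
  have hs2 : s ≤ 2 * n := by
    rw [hs']
    linarith
  have h6 : 2 * (Real.exp (-(y * n)) + w / ball n t) * a ≤ 4 * U := by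
    have h7 : 2 * (Real.exp (-(y * n)) + w / ball n t) * a =
        2 * (Real.exp (y * n) * Real.exp (-(y * n))) * U +
          2 * (w * Real.exp (y * n) / ball n t) * U := by
      rw [ha]
      field_simp
    rw [h7, hEE]
    have h8 : w * Real.exp (y * n) / ball n t ≤ 1 := by
      rw [div_le_one hb]
      refine le_trans (mul_le_mul_of_nonneg_right ?_ hE0.le) hV
      linarith
    have h9 := mul_le_mul_of_nonneg_right h8 hU0.le
    linarith
  have hLU : L ≤ U := by
    rw [hL]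
    linarith [Real.log_le_sub_one_of_pos hU0]
  have hK := sq_log_le hX hXU
  rw [← hL] at hK
  obtain ⟨K, hKd⟩ : ∃ K, K = 4 + Real.log X ^ 2 / X := ⟨_, rfl⟩
  rw [← hKd] at hK ⊢
  have hK0 : 0 ≤ K := by rw [hKd]; positivity
  have h7 : w + w ^ 2 / 2 + 4 * U ≤ y ^ 2 * n ^ 2 / 2 + (3 + K + 3 / X) * (U * n) :=
    arith hnR hU0 hy hy1 hX hXU hLU hK hK0 hs' hw hws
  have h5 : ball n t / 2 ^ n * (Real.log Q + k * (s - Real.log (ball n t))) ≤
      y ^ 2 * n ^ 2 / 2 + (3 + K + 3 / X) * (U * n) :=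
    (mul_le_mul_of_nonneg_left h4 hD0.le).trans (h2.trans (by linarith))
  have h8 : Real.log Q + k * (s - Real.log (ball n t)) ≤
      k * (y ^ 2 * n / (2 * U) + (3 + K + 3 / X)) := by
    have e3 : (ball n t : ℝ) / 2 ^ n = U * n / k := by
      rw [← hU]
      field_simp
    rw [e3] at h5
    have e4 : y ^ 2 * n ^ 2 / 2 + (3 + K + 3 / X) * (U * n) =
        U * n / k * (k * (y ^ 2 * n / (2 * U) + (3 + K + 3 / X))) := by
      field_simp
    rw [e4] at h5
    exact le_of_mul_le_mul_left h5 (by positivity)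
  have hlu : Real.log k + Real.log (ball n t) - n * Real.log 2 = L + Real.log n := by
    have := congrArg Real.log hU
    rw [Real.log_mul hkR.ne' hD0.ne', Real.log_div hb.ne' h2n.ne', Real.log_pow,
      Real.log_mul hU0.ne' hn0.ne'] at this
    rw [hL]
    linarith
  have h9 : (k : ℝ) * Real.log k + k * Real.log (ball n t) - k * (n * Real.log 2) =
      k * L + k * Real.log n := by
    calc (k : ℝ) * Real.log k + k * Real.log (ball n t) - k * (n * Real.log 2) =
          k * (Real.log k + Real.log (ball n t) - n * Real.log 2) := by ring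
      _ = k * (L + Real.log n) := by rw [hlu]
      _ = k * L + k * Real.log n := by ring
  have e5 : k * (s - Real.log (ball n t)) = k * (y * n) + k * L - k * Real.log (ball n t) := by
    rw [hs']
    ring
  rw [e5] at h8
  have e6 : (k : ℝ) * (n * Real.log 2 - Real.log k - y * n + y ^ 2 * n / (2 * U) + Real.log n +
      (3 + K + 3 / X)) = k * (n * Real.log 2) - k * Real.log k - k * (y * n) +
        k * (y ^ 2 * n / (2 * U) + (3 + K + 3 / X)) + k * Real.log n := by
    ring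
  rw [e6]
  linarith

/-- The number of all codes, asymptotically. -/
theorem all_ev {δ : ℝ} (h0 : 0 < δ) (h1 : δ < 1 / 2) {ε : ℝ} (hε : 0 < ε) :
    ∃ η : ℝ, 0 < η ∧ ∃ n₀ : ℕ, ∀ n : ℕ, n₀ ≤ n → ∀ t : ℕ, Even t → |(t : ℝ) - δ * n| ≤ η * n →
      Real.log ((inds (cl n t) (univ : Finset (Word n))).card : ℝ) ≤
        (h δ - X1 δ + ε) * n * Pool.Agent.U180.CG.A n (t + 1) +
          (X1 δ ^ 2 / 2 + ε) * n ^ 2 * (2 ^ n / ball n t) := by
  have hX1 := X1_pos h0 h1
  obtain ⟨θ, hθ⟩ : ∃ θ, θ = min (ε / 2) (X1 δ / 2) := ⟨_, rfl⟩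
  have hθ0 : 0 < θ := by rw [hθ]; exact lt_min (by linarith) (by linarith)
  have hθ1 : θ ≤ ε / 2 := hθ ▸ min_le_left _ _
  have hθ2 : θ ≤ X1 δ / 2 := hθ ▸ min_le_right _ _
  obtain ⟨y, hy⟩ : ∃ y, y = X1 δ - θ := ⟨_, rfl⟩
  have hy0 : 0 < y := by linarith
  obtain ⟨e8, he8⟩ : ∃ e8, e8 = min θ (h δ / 8) := ⟨_, rfl⟩
  have hhp := h_pos h0 h1
  have he80 : 0 < e8 := by
    rw [he8]
    exact lt_min hθ0 (by linarith)
  have he81 : e8 ≤ θ := he8 ▸ min_le_left _ _
  have he82 : e8 ≤ h δ / 8 := he8 ▸ min_le_right _ _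
  obtain ⟨η₁, hη₁, A1⟩ := vol_asym h0 h1 he80
  obtain ⟨η₂, hη₂, A2⟩ := mid_asym h0 h1 he80
  refine ⟨min η₁ η₂, lt_min hη₁ hη₂, ?_⟩
  have A3 : ∀ᶠ n : ℕ in atTop, 8 / ε ≤ (n : ℝ) :=
    tendsto_natCast_atTop_atTop.eventually_ge_atTop _
  obtain ⟨n₀, hn₀⟩ := eventually_atTop.1 (((A1.and A2).and A3).and
    ((poly_small (ε := h δ / 16) (by linarith)).and (eventually_ge_atTop 4)))
  refine ⟨n₀, fun n hn t hte ht => ?_⟩
  obtain ⟨⟨⟨B1, B2⟩, B3⟩, B4, B5⟩ := hn₀ n hn
  have hnR : (4 : ℝ) ≤ n := by exact_mod_cast B5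
  have hn0 : (0 : ℝ) < n := by linarith
  obtain ⟨C1, C2, C3, C4⟩ := B1 t (ht.trans (mul_le_mul_of_nonneg_right (min_le_left _ _) hn0.le))
  have C5 := B2 t (ht.trans (mul_le_mul_of_nonneg_right (min_le_right _ _) hn0.le))
  have hb := ball_pos n t
  have hX1l := X1_le (δ := δ)
  have hh1 := h_le_one (δ := δ)
  have hs : ∀ s : ℕ, 1 ≤ s → s ≤ n → ((n : ℝ) + 1 - 2 * s) ^ 2 < 4 * (t : ℝ) * ((n : ℝ) - t) →
      (2 : ℝ) ^ n ≤ Real.exp (-(y * n)) ^ 2 * ball n t * n.choose s := by
    intro s hs1 hsn hs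
    have h4 := C5 s hs1 hsn hs
    have e2 : (2 : ℝ) ^ n = Real.exp (Real.log 2 * n) := by
      rw [mul_comm, Real.exp_nat_mul, Real.exp_log (by norm_num)]
    have e3 : Real.exp (-(y * n)) ^ 2 = Real.exp (-(2 * y * n)) := by
      rw [← Real.exp_nat_mul]
      congr 1
      push_cast
      ring
    rw [e2, e3]
    calc Real.exp (Real.log 2 * n) ≤ Real.exp (-(2 * y * n)) *
          Real.exp ((h δ - e8) * n) *
            Real.exp ((h (1 / 2 - √(δ * (1 - δ))) - e8) * n) := by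
          rw [← Real.exp_add, ← Real.exp_add, Real.exp_le_exp]
          have e4 : 2 * X1 δ = h δ + h (1 / 2 - √(δ * (1 - δ))) - Real.log 2 := by
            unfold X1
            ring
          have e5 : -(2 * y * n) + (h δ - e8) * n +
              (h (1 / 2 - √(δ * (1 - δ))) - e8) * n =
              (h δ + h (1 / 2 - √(δ * (1 - δ))) - 2 * y - 2 * e8) * n := by ring
          rw [e5]
          exact mul_le_mul_of_nonneg_right (by linarith) hn0.le
      _ ≤ _ := by
          refine mul_le_mul (mul_le_mul_of_nonneg_left C1 (Real.exp_pos _).le) h4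
            (Real.exp_pos _).le (by positivity)
  have hV : (1 + 2 * n) * Real.exp (y * n) ≤ ball n t := by
    have h2 : 1 + (n : ℝ) ≤ Real.exp (h δ / 16 * n) := by linarith
    have h3 : 2 ≤ Real.exp (h δ / 16 * n) := by linarith
    calc (1 + 2 * n) * Real.exp (y * n) ≤
          (Real.exp (h δ / 16 * n) * Real.exp (h δ / 16 * n)) * Real.exp (y * n) := by
          refine mul_le_mul_of_nonneg_right ?_ (Real.exp_pos _).le
          nlinarith
      _ = Real.exp ((h δ / 8 + y) * n) := by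
          rw [← Real.exp_add, ← Real.exp_add]
          congr 1
          ring
      _ ≤ Real.exp ((h δ - e8) * n) := by
          rw [Real.exp_le_exp]
          exact mul_le_mul_of_nonneg_right (by linarith) hn0.le
      _ ≤ ball n t := C1
  -- the activity `exp (y n)`
  obtain ⟨a, ha⟩ : ∃ a, a = Real.exp (y * n) := ⟨_, rfl⟩
  have ha0 : 0 < a := by rw [ha]; positivity
  have hyn0 : 0 < y * n := by positivity
  have hyn : y * n ≤ 1 * n := mul_le_mul_of_nonneg_right (by linarith) hn0.le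
  have hEE : a * Real.exp (-(y * n)) = 1 := by
    rw [ha, ← Real.exp_add]
    simp
  rw [← ha] at hV
  have hab : a / ball n t ≤ 1 / 2 := by
    rw [div_le_iff₀ hb]
    nlinarith
  obtain ⟨w, hw, he⟩ := exists_W a ha0.le
  have hw0 : 0 < w := by
    rcases hw.eq_or_lt with h2 | h2
    · rw [← h2, zero_mul] at he
      exact absurd he.symm ha0.ne'
    · exact h2
  have hws : w ≤ 1 + y * n := by
    by_contra hcon
    push Not at hcon
    have h4 : a < w * Real.exp w := by
      calc a = 1 * Real.exp (y * n) := by rw [ha, one_mul]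
        _ < w * Real.exp w :=
            mul_lt_mul'' (by linarith) (Real.exp_lt_exp.2 (by linarith)) zero_le_one
              (Real.exp_pos _).le
    linarith
  have h2 := Pool.Agent.U180.CG.prs_le hte C3 (κ := Real.exp (-(y * n))) (Real.exp_pos _).le hs
    hw0 (by rw [he]; exact hab)
  have e1 : Pool.Agent.U180.CG.prs n t w =
      ball n t / 2 ^ n * Real.log (Z (cl n t) (w * Real.exp w / ball n t) univ) := rfl
  rw [e1, he] at h2
  have h6 : 2 * (Real.exp (-(y * n)) + w / ball n t) * a ≤ 4 := by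
    have h7 : 2 * (Real.exp (-(y * n)) + w / ball n t) * a =
        2 * (a * Real.exp (-(y * n))) + 2 * (w * a / ball n t) := by
      field_simp
    rw [h7, hEE]
    have h8 : w * a / ball n t ≤ 1 := by
      rw [div_le_one hb]
      refine le_trans (mul_le_mul_of_nonneg_right ?_ ha0.le) hV
      linarith
    linarith
  have h7 : ball n t / 2 ^ n * Real.log (Z (cl n t) (a / ball n t) univ) ≤
      (X1 δ ^ 2 / 2 + ε) * n ^ 2 := by
    refine h2.trans ?_
    have h8 : w ^ 2 ≤ (1 + y * n) ^ 2 := pow_le_pow_left₀ hw0.le hws 2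
    have h9 : y ^ 2 ≤ X1 δ ^ 2 := pow_le_pow_left₀ hy0.le (by linarith) 2
    have h10 : y ^ 2 * n ^ 2 ≤ X1 δ ^ 2 * n ^ 2 := mul_le_mul_of_nonneg_right h9 (by positivity)
    have h11 : 8 ≤ ε * n := by
      rw [div_le_iff₀ hε] at B3
      linarith
    have h12 : 8 * (n : ℝ) ≤ ε * n ^ 2 := by
      have := mul_le_mul_of_nonneg_right h11 hn0.le
      calc 8 * (n : ℝ) ≤ ε * n * n := this
        _ = ε * n ^ 2 := by ring
    have e2 : (1 + y * n) ^ 2 = 1 + 2 * (y * n) + y ^ 2 * n ^ 2 := by ring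
    rw [e2] at h8
    have e3 : (X1 δ ^ 2 / 2 + ε) * n ^ 2 = X1 δ ^ 2 * n ^ 2 / 2 + ε * n ^ 2 := by ring
    rw [e3]
    linarith
  have hlam : 0 < a / ball n t := by positivity
  have h8 := card_le_Z (n := n) (t := t) hlam (by linarith)
  have hc0 : (0 : ℝ) < ((inds (cl n t) (univ : Finset (Word n))).card : ℝ) := by
    have : (∅ : Finset (Word n)) ∈ inds (cl n t) (univ : Finset (Word n)) := by
      rw [mem_inds]
      refine ⟨empty_subset _, ?_⟩
      rw [← Pool.Agent.U180.CG.isCode_iff]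
      intro x hx
      simp at hx
    exact_mod_cast Finset.card_pos.2 ⟨_, this⟩
  have h9 := Real.log_le_log (by positivity) h8
  rw [Real.log_mul hc0.ne' (by positivity), Real.log_pow, Real.log_div ha0.ne' hb.ne', ha,
    Real.log_exp, ← ha] at h9
  have h10 : Real.log (Z (cl n t) (a / ball n t) univ) ≤
      (X1 δ ^ 2 / 2 + ε) * n ^ 2 * (2 ^ n / ball n t) := by
    have hD0 : 0 < (2 : ℝ) ^ n / ball n t := by positivity
    have := mul_le_mul_of_nonneg_right h7 hD0.le
    refine le_trans (le_of_eq ?_) this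
    field_simp
  have h11 : Real.log (ball n t) ≤ (h δ + e8) * n := by
    rw [Real.log_le_iff_le_exp hb]
    exact C2
  have h12 : Real.log (ball n t) - y * n ≤ (h δ - X1 δ + ε) * n := by
    have h13 : e8 * n ≤ ε / 2 * n := mul_le_mul_of_nonneg_right (by linarith) hn0.le
    have h14 : θ * n ≤ ε / 2 * n := mul_le_mul_of_nonneg_right hθ1 hn0.le
    rw [hy]
    linarith
  have h13 := mul_le_mul_of_nonneg_left h12
    (Nat.cast_nonneg (α := ℝ) (Pool.Agent.U180.CG.A n (t + 1)))
  linarith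

/-- The number of all codes, relative to the number of all sets of the size of the best codes. -/
theorem tot_ev {δ : ℝ} (h0 : 0 < δ) (h1 : δ < 1 / 2) {ε : ℝ} (hε : 0 < ε) :
    ∃ η : ℝ, 0 < η ∧ ∃ n₀ : ℕ, ∀ n : ℕ, n₀ ≤ n → ∀ t : ℕ, Even t → |(t : ℝ) - δ * n| ≤ η * n →
      Real.log ((inds (cl n t) (univ : Finset (Word n))).card : ℝ) ≤
        ((Real.log 2 - X1 δ + ε) * n - Real.log (Pool.Agent.U180.CG.A n (t + 1))) *
          Pool.Agent.U180.CG.A n (t + 1) + (X1 δ ^ 2 / 2 + ε) * n ^ 2 * (2 ^ n / ball n t) := by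
  have hX1 := X1_pos h0 h1
  obtain ⟨θ, hθ⟩ : ∃ θ, θ = min (ε / 4) (X1 δ / 2) := ⟨_, rfl⟩
  have hθ0 : 0 < θ := by rw [hθ]; exact lt_min (by linarith) (by linarith)
  have hθ1 : θ ≤ ε / 4 := hθ ▸ min_le_left _ _
  have hθ2 : θ ≤ X1 δ / 2 := hθ ▸ min_le_right _ _
  obtain ⟨y, hy⟩ : ∃ y, y = X1 δ - θ := ⟨_, rfl⟩
  have hy0 : 0 < y := by linarith
  obtain ⟨e8, he8⟩ : ∃ e8, e8 = min θ (h δ / 8) := ⟨_, rfl⟩
  have hhp := h_pos h0 h1
  have he80 : 0 < e8 := by
    rw [he8]
    exact lt_min hθ0 (by linarith)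
  have he81 : e8 ≤ θ := he8 ▸ min_le_left _ _
  have he82 : e8 ≤ h δ / 8 := he8 ▸ min_le_right _ _
  obtain ⟨η₁, hη₁, A1⟩ := vol_asym h0 h1 he80
  obtain ⟨η₂, hη₂, A2⟩ := mid_asym h0 h1 he80
  obtain ⟨η₃, hη₃, n₃, hall⟩ := all_ev h0 h1 (half_pos hε)
  refine ⟨min η₃ (min η₁ η₂), lt_min hη₃ (lt_min hη₁ hη₂), ?_⟩
  obtain ⟨C, hC⟩ : ∃ C, C = 3 + (4 + Real.log (X1 δ) ^ 2 / X1 δ) + 3 / X1 δ := ⟨_, rfl⟩
  have A3 : ∀ᶠ n : ℕ in atTop, max (C / (ε / 4)) (1 / (y * X1 δ)) ≤ (n : ℝ) :=
    tendsto_natCast_atTop_atTop.eventually_ge_atTop _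
  have A4 : ∀ᶠ n : ℕ in atTop, Real.log n ≤ ε / 4 * n := by
    have h2 := Real.isLittleO_log_id_atTop.bound (show 0 < ε / 4 by positivity)
    filter_upwards [tendsto_natCast_atTop_atTop.eventually h2, eventually_ge_atTop 1] with n h3 hn
    have hnR : (1 : ℝ) ≤ n := by exact_mod_cast hn
    rw [id, Real.norm_of_nonneg (Real.log_nonneg hnR), Real.norm_of_nonneg (by linarith)] at h3
    exact h3
  obtain ⟨n₀, hn₀⟩ := eventually_atTop.1 (((A1.and A2).and (A3.and A4)).and
    ((poly_small (ε := h δ / 16) (by linarith)).and (eventually_ge_atTop 4)))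
  refine ⟨max n₃ n₀, fun n hn t hte ht => ?_⟩
  obtain ⟨⟨⟨B1, B2⟩, B3, B3'⟩, B4, B5⟩ := hn₀ n ((le_max_right _ _).trans hn)
  have hnR : (4 : ℝ) ≤ n := by exact_mod_cast B5
  have hn0 : (0 : ℝ) < n := by linarith
  have hall := hall n ((le_max_left _ _).trans hn) t hte
    (ht.trans (mul_le_mul_of_nonneg_right (min_le_left _ _) hn0.le))
  have ht := ht.trans (mul_le_mul_of_nonneg_right (min_le_right _ _) hn0.le)
  obtain ⟨C1, C2, C3, C4⟩ := B1 t (ht.trans (mul_le_mul_of_nonneg_right (min_le_left _ _) hn0.le))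
  have C5 := B2 t (ht.trans (mul_le_mul_of_nonneg_right (min_le_right _ _) hn0.le))
  have hb := ball_pos n t
  have hX1l := X1_le (δ := δ)
  have hh1 := h_le_one (δ := δ)
  have hs : ∀ s : ℕ, 1 ≤ s → s ≤ n → ((n : ℝ) + 1 - 2 * s) ^ 2 < 4 * (t : ℝ) * ((n : ℝ) - t) →
      (2 : ℝ) ^ n ≤ Real.exp (-(y * n)) ^ 2 * ball n t * n.choose s := by
    intro s hs1 hsn hs
    have h4 := C5 s hs1 hsn hs
    have e2 : (2 : ℝ) ^ n = Real.exp (Real.log 2 * n) := by
      rw [mul_comm, Real.exp_nat_mul, Real.exp_log (by norm_num)]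
    have e3 : Real.exp (-(y * n)) ^ 2 = Real.exp (-(2 * y * n)) := by
      rw [← Real.exp_nat_mul]
      congr 1
      push_cast
      ring
    rw [e2, e3]
    calc Real.exp (Real.log 2 * n) ≤ Real.exp (-(2 * y * n)) *
          Real.exp ((h δ - e8) * n) *
            Real.exp ((h (1 / 2 - √(δ * (1 - δ))) - e8) * n) := by
          rw [← Real.exp_add, ← Real.exp_add, Real.exp_le_exp]
          have e4 : 2 * X1 δ = h δ + h (1 / 2 - √(δ * (1 - δ))) - Real.log 2 := by
            unfold X1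
            ring
          have e5 : -(2 * y * n) + (h δ - e8) * n +
              (h (1 / 2 - √(δ * (1 - δ))) - e8) * n =
              (h δ + h (1 / 2 - √(δ * (1 - δ))) - 2 * y - 2 * e8) * n := by ring
          rw [e5]
          exact mul_le_mul_of_nonneg_right (by linarith) hn0.le
      _ ≤ _ := by
          refine mul_le_mul (mul_le_mul_of_nonneg_left C1 (Real.exp_pos _).le) h4
            (Real.exp_pos _).le (by positivity)
  have hV : (1 + 2 * n) * Real.exp (y * n) ≤ ball n t := by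
    have h2 : 1 + (n : ℝ) ≤ Real.exp (h δ / 16 * n) := by linarith
    have h3 : 2 ≤ Real.exp (h δ / 16 * n) := by linarith
    calc (1 + 2 * n) * Real.exp (y * n) ≤
          (Real.exp (h δ / 16 * n) * Real.exp (h δ / 16 * n)) * Real.exp (y * n) := by
          refine mul_le_mul_of_nonneg_right ?_ (Real.exp_pos _).le
          nlinarith
      _ = Real.exp ((h δ / 8 + y) * n) := by
          rw [← Real.exp_add, ← Real.exp_add]
          congr 1
          ring
      _ ≤ Real.exp ((h δ - e8) * n) := by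
          rw [Real.exp_le_exp]
          exact mul_le_mul_of_nonneg_right (by linarith) hn0.le
      _ ≤ ball n t := C1
  have hVn : (ball n t : ℝ) ≤ 2 ^ n := by
    have h2 := Finset.card_le_univ (nb (fun x y : Word n => hammingDist x y ≤ t) univ
      (fun _ => true))
    rw [nb_card t, Fintype.card_fun, Fintype.card_bool, Fintype.card_fin] at h2
    exact_mod_cast h2
  have hXn : 1 ≤ Real.exp (y * n) * X1 δ := by
    have h2 : 1 / (y * X1 δ) ≤ n := (le_max_right _ _).trans B3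
    rw [div_le_iff₀ (by positivity)] at h2
    have h3 := Real.add_one_le_exp (y * n)
    have h4 : y * n * X1 δ ≤ Real.exp (y * n) * X1 δ :=
      mul_le_mul_of_nonneg_right (by linarith) hX1.le
    nlinarith
  -- the size of the best codes
  obtain ⟨m, hm⟩ : ∃ m, m = Pool.Agent.U180.CG.A n (t + 1) := ⟨_, rfl⟩
  rw [← hm] at hall ⊢
  have hm1 : 1 ≤ m := by
    rw [hm]
    exact Pool.Agent.U180.CG.A_pos _ _
  have hmR : (1 : ℝ) ≤ m := by exact_mod_cast hm1
  have h2n : (0 : ℝ) < 2 ^ n := by positivity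
  obtain ⟨U, hUd⟩ : ∃ U, U = m * ((ball n t : ℝ) / 2 ^ n) / n := ⟨_, rfl⟩
  have hU : m * ((ball n t : ℝ) / 2 ^ n) = U * n := by
    rw [hUd]
    field_simp
  have hB0 : 0 ≤ (2 : ℝ) ^ n / ball n t := by positivity
  rcases le_total (X1 δ) U with hXU | hXU
  · have hz : Nk n t m ≠ 0 := by
      have h2 := choose_le n t m
      rw [← hm, Nat.choose_self] at h2
      omega
    have hc0 : (0 : ℝ) < ((inds (cl n t) (univ : Finset (Word n))).card : ℝ) := by
      have : (∅ : Finset (Word n)) ∈ inds (cl n t) (univ : Finset (Word n)) := by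
        rw [mem_inds]
        refine ⟨empty_subset _, ?_⟩
        rw [← Pool.Agent.U180.CG.isCode_iff]
        intro x hx
        simp at hx
      exact_mod_cast Finset.card_pos.2 ⟨_, this⟩
    have h2 := gen_le hte C3 hy0 (by linarith) hX1 B5 hs hV hVn hXn hU hXU hz hc0
      (fun lam hl hl1 => by
        rw [hm]
        exact card_le_Z hl hl1)
    rw [← hC] at h2
    refine h2.trans ?_
    have hU0 : 0 < U := by linarith
    have h3 : C ≤ ε / 4 * n := by
      have h4 : C / (ε / 4) ≤ n := (le_max_left _ _).trans B3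
      rw [div_le_iff₀ (by positivity)] at h4
      linarith
    have h4 : (m : ℝ) * (y ^ 2 * n / (2 * U)) ≤ X1 δ ^ 2 / 2 * n ^ 2 * (2 ^ n / ball n t) := by
      have e1 : (m : ℝ) * (y ^ 2 * n / (2 * U)) = y ^ 2 / 2 * n ^ 2 * (2 ^ n / ball n t) := by
        rw [hUd]
        field_simp
      rw [e1]
      have h5 : y ^ 2 ≤ X1 δ ^ 2 := pow_le_pow_left₀ hy0.le (by linarith) 2
      exact mul_le_mul_of_nonneg_right (mul_le_mul_of_nonneg_right (by linarith) (by positivity))
        hB0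
    have h5 : n * Real.log 2 - Real.log m - y * n + Real.log n + C ≤
        (Real.log 2 - X1 δ + ε) * n - Real.log m := by
      have h6 : θ * n ≤ ε / 4 * n := mul_le_mul_of_nonneg_right hθ1 hn0.le
      have h7 : 0 ≤ ε * n := by positivity
      rw [hy]
      linarith
    have h6 := mul_le_mul_of_nonneg_left h5 (show (0 : ℝ) ≤ m by linarith)
    have h7 : 0 ≤ ε * n ^ 2 * (2 ^ n / ball n t) := by positivity
    have e1 : (m : ℝ) * (n * Real.log 2 - Real.log m - y * n + y ^ 2 * n / (2 * U) +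
        Real.log n + C) = m * (n * Real.log 2 - Real.log m - y * n + Real.log n + C) +
          m * (y ^ 2 * n / (2 * U)) := by ring
    have e2 : (X1 δ ^ 2 / 2 + ε) * n ^ 2 * (2 ^ n / ball n t) =
        X1 δ ^ 2 / 2 * n ^ 2 * (2 ^ n / ball n t) + ε * n ^ 2 * (2 ^ n / ball n t) := by ring
    rw [e1, e2]
    linarith
  · refine hall.trans ?_
    have h2 : (m : ℝ) ≤ n * (2 ^ n / ball n t) := by
      have h3 : U * n ≤ 1 * n := mul_le_mul_of_nonneg_right (by linarith) hn0.le
      rw [← hU] at h3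
      calc (m : ℝ) = m * ((ball n t : ℝ) / 2 ^ n) * (2 ^ n / ball n t) := by field_simp
        _ ≤ (1 * n) * (2 ^ n / ball n t) := mul_le_mul_of_nonneg_right h3 hB0
        _ = _ := by ring
    have h3 := Real.log_le_log (by linarith) h2
    rw [Real.log_mul hn0.ne' (by positivity), Real.log_div h2n.ne' hb.ne', Real.log_pow] at h3
    have h4 : (h δ - e8) * n ≤ Real.log (ball n t) := by
      rw [Real.le_log_iff_exp_le hb]
      exact C1
    have h5 : (h δ - X1 δ + ε / 2) * n ≤ (Real.log 2 - X1 δ + ε) * n - Real.log m := by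
      have h6 : e8 * n ≤ ε / 4 * n := mul_le_mul_of_nonneg_right (by linarith) hn0.le
      linarith
    have h6 := mul_le_mul_of_nonneg_right h5 (show (0 : ℝ) ≤ m by linarith)
    have h7 : 0 ≤ ε * n ^ 2 * (2 ^ n / ball n t) := by positivity
    have e2 : (X1 δ ^ 2 / 2 + ε) * n ^ 2 * (2 ^ n / ball n t) =
        (X1 δ ^ 2 / 2 + ε / 2) * n ^ 2 * (2 ^ n / ball n t) +
          ε * n ^ 2 * (2 ^ n / ball n t) / 2 := by ring
    rw [e2]
    linarith

end Pool.Agent.U279.GP
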