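import Pool.Agent.U279.GP.Base
import Pool.Agent.U180.CG.Canon

/-!
# Codes inside random sets of words: the geometry of the cube and the union bound
-/

set_option autoImplicit false

namespace Pool.Agent.U279.GP

open MeasureTheory Set Finset ProbabilityTheory
open scoped ENNReal NNReal
open Pool.Agent.U180.CG (cl cl_symm cl_refl nb mem_nb nb_card sparse Dl Nk Z Z_pos inds mem_inds
  ball_pos card_word)
open Pool.Agent.U180.BC (Word ball)

variable {n t N k : ℕ}

/-- The uniform law on the words. -/
noncomputable def unif (n : ℕ) : Measure (Word n) := ((2 : ℝ≥0∞) ^ n)⁻¹ • Measure.count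

theorem unif_fin (S : Finset (Word n)) : unif n (S : Set (Word n)) = S.card / 2 ^ n := by
  unfold unif
  rw [Measure.smul_apply, Measure.count_apply_finset, smul_eq_mul, mul_comm, div_eq_mul_inv]

theorem unif_set (P : Word n → Prop) [DecidablePred P] :
    unif n {y | P y} = ENNReal.ofReal ((univ.filter P).card / 2 ^ n) := by
  have h : {y | P y} = ((univ.filter P : Finset (Word n)) : Set (Word n)) := by
    ext y
    simp
  rw [h, unif_fin, ENNReal.ofReal_div_of_pos (by positivity), ENNReal.ofReal_natCast,
    ENNReal.ofReal_pow (by norm_num), ENNReal.ofReal_ofNat]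

instance : IsProbabilityMeasure (unif n) := ⟨by
  have h := unif_fin (n := n) univ
  rw [Finset.coe_univ] at h
  rw [h, card_univ, Fintype.card_fun, Fintype.card_bool, Fintype.card_fin]
  push_cast
  exact ENNReal.div_self (by positivity) (ENNReal.pow_ne_top (by norm_num))⟩

theorem lint_unif (S : Finset (Word n)) (f : Word n → ℝ≥0∞) :
    ∫⁻ u in (S : Set (Word n)), f u ∂(unif n) = (∑ u ∈ S, f u) / 2 ^ n := by
  rw [← lintegral_indicator (Set.toFinite _).measurableSet]
  unfold unif
  rw [lintegral_smul_measure, lintegral_count, tsum_fintype, smul_eq_mul, mul_comm,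
    ← div_eq_mul_inv]
  congr 1
  rw [← Finset.sum_filter_add_sum_filter_not univ (fun u => u ∈ S)]
  have h1 : ∑ u ∈ univ.filter (fun u => ¬ u ∈ S), (S : Set (Word n)).indicator f u = 0 := by
    refine Finset.sum_eq_zero fun u hu => ?_
    rw [Set.indicator_of_notMem]
    exact fun h => (Finset.mem_filter.1 hu).2 (by simpa using h)
  have h2 : univ.filter (fun u => u ∈ S) = S := by ext u; simp
  rw [h1, add_zero, h2]
  exact Finset.sum_congr rfl fun u hu => Set.indicator_of_mem (by simpa using hu) _

open Classical in
/-- The number of close pairs in a ball. -/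
theorem pairs_ball (htn : t ≤ n) {z : ℝ} (hz : 0 < z) (hz1 : z ≤ 1) (x : Word n) :
    (∑ u ∈ univ.filter (fun u => cl n t x u),
      ((univ.filter fun y => cl n t x y ∧ cl n t u y).card : ℝ)) ≤ 2 * ball n t * Dl n t z := by
  set B : Finset (Word n) := univ.filter (fun u => cl n t x u) with hB
  have hBc : B.card = ball n t := by
    rw [← nb_card t x]
    unfold nb
    rfl
  -- the ordered pairs
  set P : Finset (Word n × Word n) := (B ×ˢ B).filter fun p => cl n t p.1 p.2 with hP
  set P1 : Finset (Word n × Word n) := P.filter fun p => hammingDist x p.2 ≤ hammingDist x p.1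
    with hP1
  set P2 : Finset (Word n × Word n) := P.filter fun p => hammingDist x p.1 ≤ hammingDist x p.2
    with hP2
  have e1 : (∑ u ∈ B, ((univ.filter fun y => cl n t x y ∧ cl n t u y).card : ℝ)) = P.card := by
    rw [hP, Finset.card_filter, Finset.sum_product]
    push_cast
    refine Finset.sum_congr rfl fun u _ => ?_
    have h3 : (univ.filter fun y => cl n t x y ∧ cl n t u y) = B.filter fun y => cl n t u y := by
      rw [hB, Finset.filter_filter]
    rw [h3, Finset.card_filter]
    push_cast
    rfl
  have e2 : P.card ≤ P1.card + P2.card := by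
    rw [← Finset.filter_union_filter_not_eq (fun p => hammingDist x p.2 ≤ hammingDist x p.1) P]
    refine (Finset.card_union_le _ _).trans ?_
    refine Nat.add_le_add le_rfl (Finset.card_le_card ?_)
    intro p hp
    rw [Finset.mem_filter] at hp ⊢
    exact ⟨hp.1, by omega⟩
  have e3 : P2.card = P1.card := by
    refine Finset.card_bij' (fun p _ => (p.2, p.1)) (fun p _ => (p.2, p.1)) ?_ ?_ ?_ ?_
    · intro p hp
      rw [hP2, hP, Finset.mem_filter, Finset.mem_filter, Finset.mem_product] at hp
      rw [hP1, hP, Finset.mem_filter, Finset.mem_filter, Finset.mem_product]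
      exact ⟨⟨⟨hp.1.1.2, hp.1.1.1⟩, cl_symm n t _ _ hp.1.2⟩, hp.2⟩
    · intro p hp
      rw [hP1, hP, Finset.mem_filter, Finset.mem_filter, Finset.mem_product] at hp
      rw [hP2, hP, Finset.mem_filter, Finset.mem_filter, Finset.mem_product]
      exact ⟨⟨⟨hp.1.1.2, hp.1.1.1⟩, cl_symm n t _ _ hp.1.2⟩, hp.2⟩
    · intro p _; rfl
    · intro p _; rfl
  have e4 : (P1.card : ℝ) ≤ ball n t * Dl n t z := by
    have h4 : (P1.card : ℝ) = ∑ u ∈ B, (((nb (fun x y => hammingDist x y ≤ t) univ x).filter
        fun v => hammingDist u v ≤ t ∧ hammingDist x v ≤ hammingDist x u).card : ℝ) := by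
      rw [hP1, hP, Finset.filter_filter, Finset.card_filter, Finset.sum_product]
      push_cast
      refine Finset.sum_congr rfl fun u _ => ?_
      rw [Finset.card_filter]
      push_cast
      refine Finset.sum_congr (by rw [hB]; rfl) fun v _ => ?_
      exact if_congr Iff.rfl rfl rfl
    rw [h4]
    refine (Finset.sum_le_sum (g := fun _ => Dl n t z) fun u hu => ?_).trans ?_
    · exact sparse htn hz hz1 x u (mem_nb.2 ⟨Finset.mem_univ _, (Finset.mem_filter.1 hu).2⟩)
    · rw [Finset.sum_const, nsmul_eq_mul, hBc]
  rw [e1]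
  have e5 : (P.card : ℝ) ≤ P1.card + P2.card := by exact_mod_cast e2
  rw [e3] at e5
  linarith

/-- The cube is homogeneous. -/
theorem geo (htn : t ≤ n) {z : ℝ} (hz : 0 < z) (hz1 : z ≤ 1) :
    Geo (unif n) (cl n t) (ball n t / 2 ^ n)
      (2 * (ball n t / 2 ^ n) ^ 2 * (Dl n t z / ball n t)) where
  symm := cl_symm n t
  meas := (Set.toFinite _).measurableSet
  vol x := by
    classical
    rw [unif_set]
    congr 3
    rw [← nb_card t x]
    rfl
  vpos := div_pos (ball_pos n t) (by positivity)
  tau := by
    have := ball_pos n t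
    have : 0 ≤ Dl n t z := by
      unfold Dl
      positivity
    positivity
  tri x := by
    classical
    have hb := ball_pos n t
    have h1 : {u | cl n t x u} =
        ((univ.filter (fun u => cl n t x u) : Finset (Word n)) : Set (Word n)) := by
      ext y
      simp
    rw [h1, lint_unif]
    have h2 : ∀ u, unif n (((univ.filter (fun u => cl n t x u) : Finset (Word n)) : Set (Word n)) ∩
        {y | cl n t u y}) =
        ENNReal.ofReal ((univ.filter fun y => cl n t x y ∧ cl n t u y).card / 2 ^ n) := by
      intro u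
      rw [← unif_set (fun y => cl n t x y ∧ cl n t u y)]
      congr 1
      ext y
      simp
    simp only [h2]
    have h2n : ((2 : ℝ≥0∞) ^ n) = ENNReal.ofReal (2 ^ n) := by
      rw [ENNReal.ofReal_pow (by norm_num), ENNReal.ofReal_ofNat]
    rw [← ENNReal.ofReal_sum_of_nonneg fun u _ => by positivity, h2n,
      ← ENNReal.ofReal_div_of_pos (by positivity)]
    refine ENNReal.ofReal_le_ofReal ?_
    rw [← Finset.sum_div]
    have h3 := pairs_ball htn hz hz1 x
    have h4 : 2 * ((ball n t : ℝ) / 2 ^ n) ^ 2 * (Dl n t z / ball n t) =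
        2 * ball n t * Dl n t z / 2 ^ n / 2 ^ n := by
      field_simp
    rw [h4]
    gcongr

/-! ### The union bound -/

/-- The number of ordered codes. -/
theorem card_conf (n t k : ℕ) :
    ((univ : Finset (Fin k → Word n)).filter
      fun x => ∀ i j, i < j → ¬ hammingDist (x i) (x j) ≤ t).card ≤ k.factorial * Nk n t k := by
  classical
  set S := (univ : Finset (Fin k → Word n)).filter
      fun x => ∀ i j, i < j → ¬ hammingDist (x i) (x j) ≤ t with hS
  have hne : ∀ x ∈ S, ∀ i j, i ≠ j → ¬ hammingDist (x i) (x j) ≤ t := by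
    intro x hx i j hij
    have h := (Finset.mem_filter.1 hx).2
    rcases lt_or_gt_of_ne hij with h1 | h1
    · exact h i j h1
    · rw [hammingDist_comm]
      exact h j i h1
  have hinj : ∀ x ∈ S, Function.Injective x := by
    intro x hx i j hij
    by_contra h
    apply hne x hx i j h
    rw [hij, hammingDist_self]
    exact Nat.zero_le _
  have hmaps : ∀ x ∈ S, Finset.image x univ ∈
      (inds (cl n t) (univ : Finset (Word n))).filter fun I => I.card = k := by
    intro x hx
    rw [Finset.mem_filter, mem_inds]
    refine ⟨⟨Finset.subset_univ _, ?_⟩, ?_⟩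
    · intro a ha b hb hab
      obtain ⟨i, -, rfl⟩ := Finset.mem_image.1 ha
      obtain ⟨j, -, rfl⟩ := Finset.mem_image.1 hb
      exact hne x hx i j fun h => hab (by rw [h])
    · rw [Finset.card_image_of_injective _ (hinj x hx), Finset.card_univ, Fintype.card_fin]
  have h1 := Finset.card_le_mul_card_image_of_maps_to hmaps k.factorial ?_
  · exact h1
  · intro I hI
    have hIc : I.card = k := (Finset.mem_filter.1 hI).2
    have h2 : (S.filter fun x => Finset.image x univ = I).card ≤
        Fintype.card (Fin k ↪ I) := by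
      rw [← Fintype.card_coe]
      refine Fintype.card_le_of_injective (fun x => (⟨fun i => ⟨x.1 i, ?_⟩, ?_⟩ : Fin k ↪ I)) ?_
      · have h3 := (Finset.mem_filter.1 x.2).2
        have h4 : x.1 i ∈ Finset.image x.1 univ := Finset.mem_image_of_mem _ (Finset.mem_univ i)
        rwa [h3] at h4
      · intro i j hij
        exact hinj x.1 (Finset.mem_filter.1 x.2).1 (congrArg Subtype.val hij)
      · intro x y hxy
        apply Subtype.ext
        funext i
        have := congrArg (fun f : Fin k ↪ I => ((f i : I) : Word n)) hxy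
        exact this
    refine h2.trans ?_
    rw [Fintype.card_embedding_eq, Fintype.card_coe, hIc, Fintype.card_fin,
      Nat.descFactorial_self]

/-- The law of `N` words counts. -/
theorem law_count (A : Set (Fin N → Word n)) [DecidablePred (· ∈ A)] :
    (law (unif n) N).real A =
      ((univ : Finset (Fin N → Word n)).filter (· ∈ A)).card / ((2 : ℝ) ^ n) ^ N := by
  classical
  have h1 : ∀ X : Fin N → Word n, law (unif n) N {X} = (((2 : ℝ≥0∞) ^ n)⁻¹) ^ N := by
    intro X
    unfold law
    rw [Measure.pi_singleton]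
    have h2 : ∀ i, unif n {X i} = ((2 : ℝ≥0∞) ^ n)⁻¹ := by
      intro i
      have := unif_fin (n := n) {X i}
      rw [Finset.coe_singleton] at this
      rw [this, Finset.card_singleton, Nat.cast_one, one_div]
    simp only [h2]
    rw [Finset.prod_const, Finset.card_univ, Fintype.card_fin]
  have h2 : A = ((univ.filter (· ∈ A) : Finset (Fin N → Word n)) : Set (Fin N → Word n)) := by
    ext X
    simp
  rw [measureReal_def]
  conv_lhs => rw [h2]
  rw [← MeasureTheory.sum_measure_singleton]
  simp only [h1]
  rw [Finset.sum_const, nsmul_eq_mul, ENNReal.toReal_mul, ENNReal.toReal_natCast,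
    ENNReal.toReal_pow, ENNReal.toReal_inv, ENNReal.toReal_pow, ENNReal.toReal_ofNat, inv_pow,
    ← div_eq_mul_inv]

/-- The probability that the points with indices in a given set form a code. -/
theorem law_Pk (s : Finset (Fin N)) (hs : s.card = k) :
    (law (unif n) N).real {X | Pk (cl n t) s X} ≤ k.factorial * Nk n t k / ((2 : ℝ) ^ n) ^ k := by
  classical
  have hf := (s.orderEmbOfFin hs).injective
  have h1 : {X : Fin N → Word n | Pk (cl n t) s X} ⊆ (fun X i => X (s.orderEmbOfFin hs i)) ⁻¹'
      {x : Fin k → Word n | ∀ i j, i < j → ¬ hammingDist (x i) (x j) ≤ t} := by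
    intro X h i j hij
    exact h _ (s.orderEmbOfFin_mem hs i) _ (s.orderEmbOfFin_mem hs j)
        fun he => hij.ne (hf he)
  have h2 : Measurable (fun (X : Fin N → Word n) (i : Fin k) => X (s.orderEmbOfFin hs i)) :=
    measurable_pi_lambda _ fun i => measurable_pi_apply _
  refine (measureReal_mono h1 (measure_ne_top _ _)).trans ?_
  rw [← map_measureReal_apply h2 (Set.toFinite _).measurableSet, map_inj (unif n) hf,
    law_count]
  refine div_le_div_of_nonneg_right ?_ (by positivity)
  have h3 := card_conf n t k
  have h4 : ((univ.filter (· ∈ {x : Fin k → Word n | ∀ i j, i < j →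
      ¬ hammingDist (x i) (x j) ≤ t})).card : ℝ) =
      ((univ : Finset (Fin k → Word n)).filter
        fun x => ∀ i j, i < j → ¬ hammingDist (x i) (x j) ≤ t).card := by
    congr 2
  rw [h4]
  exact_mod_cast h3

/-- The union bound. -/
theorem law_best_le (k : ℕ) : (law (unif n) N).real {X | k ≤ best (cl n t) X} ≤
    N.choose k * (k.factorial * Nk n t k / ((2 : ℝ) ^ n) ^ k) := by
  classical
  have h1 : {X : Fin N → Word n | k ≤ best (cl n t) X} ⊆
      ⋃ s ∈ (univ : Finset (Fin N)).powersetCard k, {X | Pk (cl n t) s X} := by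
    intro X hX
    obtain ⟨s, hs, hp⟩ := le_best_iff.1 hX
    exact Set.mem_biUnion (Finset.mem_powersetCard.2 ⟨Finset.subset_univ s, hs⟩) hp
  refine (measureReal_mono h1 (measure_ne_top _ _)).trans ?_
  refine (measureReal_biUnion_finset_le _ _).trans ?_
  refine (Finset.sum_le_sum fun s hs => law_Pk s (Finset.mem_powersetCard.1 hs).2).trans ?_
  rw [Finset.sum_const, Finset.card_powersetCard, Finset.card_univ, Fintype.card_fin,
    nsmul_eq_mul]

/-- The upper bound with the partition function. -/
theorem law_best_le_Z {l : ℝ} (hl : 0 < l) (k : ℕ) :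
    (law (unif n) N).real {X | k ≤ best (cl n t) X} ≤
      (N / (l * 2 ^ n)) ^ k * Z (cl n t) l univ := by
  classical
  refine (law_best_le k).trans ?_
  have h1 : l ^ k * Nk n t k ≤ Z (cl n t) l univ := by
    have h2 : ∑ I ∈ (inds (cl n t) (univ : Finset (Word n))).filter (fun I => I.card = k),
        l ^ I.card ≤ Z (cl n t) l univ :=
      Finset.sum_le_sum_of_subset_of_nonneg (Finset.filter_subset _ _) fun _ _ _ => by positivity
    refine le_trans (le_of_eq ?_) h2
    rw [Finset.sum_congr rfl (g := fun _ => l ^ k)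
        (fun I hI => by rw [(mem_filter.1 hI).2]), Finset.sum_const, nsmul_eq_mul, mul_comm]
    rfl
  have h2 : (N.choose k : ℝ) ≤ N ^ k / k.factorial := Nat.choose_le_pow_div k N
  have hk : (0 : ℝ) < k.factorial := by exact_mod_cast k.factorial_pos
  calc (N.choose k : ℝ) * (k.factorial * Nk n t k / ((2 : ℝ) ^ n) ^ k) ≤
        N ^ k / k.factorial * (k.factorial * Nk n t k / ((2 : ℝ) ^ n) ^ k) :=
        mul_le_mul_of_nonneg_right h2 (by positivity)
    _ = (N / (l * 2 ^ n)) ^ k * (l ^ k * Nk n t k) := by
        rw [div_pow, mul_pow]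
        field_simp
    _ ≤ _ := mul_le_mul_of_nonneg_left h1 (by positivity)

end Pool.Agent.U279.GP
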