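import Pool.Agent.U279.GP.Local

/-!
# Codes inside random sets of words: the lower bound
-/

set_option autoImplicit false

namespace Pool.Agent.U279.GP

open MeasureTheory Set Finset ProbabilityTheory Filter Topology
open scoped ENNReal NNReal
open Pool.Agent.U180.CG (cl cl_symm cl_refl nb mem_nb nb_card sparse Dl Nk Z Z_pos inds mem_inds
  ball_pos card_word Ind X1 X2 h X1_pos X2_pos vol_asym mid_asym Dl_asym poly_small exp_small
  zz zz_spec X2_le)
open Pool.Agent.U180.BC (Word ball)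

variable {n t N m C : ℕ}

open Classical in
theorem dg_eq (X : Fin m → Word n) (i : Fin m) :
    dg (cl n t) X i = ((univ.erase i).filter fun j => cl n t (X i) (X j)).card := by
  unfold dg
  rw [Finset.card_filter]
  push_cast
  refine Finset.sum_congr rfl fun j _ => ?_
  unfold ind
  by_cases h : cl n t (X i) (X j)
  · rw [if_pos h, Set.indicator_of_mem (show X ∈ nrE (cl n t) m (i, j) from h)]
    rfl
  · rw [if_neg h, Set.indicator_of_notMem (show X ∉ nrE (cl n t) m (i, j) from h)]

/-- The bad points. -/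
def Bx (n t C : ℕ) (η : ℝ) (X : Fin m → Word n) (i : Fin m) : Prop :=
  (1 + η) * (m * (ball n t / 2 ^ n)) ≤ dg (cl n t) X i ∨ Dn n t C X i

open Classical in
/-- The set of the bad points. -/
noncomputable def BS (n t C : ℕ) (η : ℝ) (X : Fin m → Word n) : Finset (Fin m) :=
  univ.filter (Bx n t C η X)

/-- The probability that a point is bad. -/
noncomputable def bb (n t C : ℕ) (η z : ℝ) (m : ℕ) : ℝ :=
  1 / (η ^ 2 * (m * (ball n t / 2 ^ n))) +
    (1 + m * (ball n t / 2 ^ n)) * (m * (Dl n t z / 2 ^ n)) ^ C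

theorem Bx_prob (htn : t ≤ n) {z : ℝ} (hz : 0 < z) (hz1 : z ≤ 1) (C : ℕ) {η : ℝ} (hη : 0 < η)
    (i : Fin m) : (law (unif n) m).real {X | Bx n t C η X i} ≤ bb n t C η z m := by
  have h1 : {X : Fin m → Word n | Bx n t C η X i} =
      {X | (1 + η) * (m * (ball n t / 2 ^ n)) ≤ dg (cl n t) X i} ∪ {X | Dn n t C X i} := rfl
  rw [h1]
  refine (measureReal_union_le _ _).trans ?_
  exact add_le_add (deg_prob (geo htn hz hz1) hη i) (Dn_prob htn hz hz1 C i)

theorem BS_prob (htn : t ≤ n) {z : ℝ} (hz : 0 < z) (hz1 : z ≤ 1) (C : ℕ) (hm : 1 ≤ m) {η : ℝ}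
    (hη : 0 < η) :
    (law (unif n) m).real {X | η * m ≤ (BS n t C η X).card} ≤ bb n t C η z m / η := by
  classical
  have hmR : (0 : ℝ) < m := by exact_mod_cast hm
  have hD0 : 0 ≤ Dl n t z := by
    unfold Dl
    positivity
  have hb : 0 ≤ bb n t C η z m := by
    unfold bb
    positivity
  have hc : ENNReal.ofReal (η * m) ≠ 0 := by
    rw [Ne, ENNReal.ofReal_eq_zero, not_le]
    positivity
  set f : (Fin m → Word n) → ℝ≥0∞ := fun X => ∑ i : Fin m,
    ({X : Fin m → Word n | Bx n t C η X i} : Set (Fin m → Word n)).indicator 1 X with hf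
  have hfm : Measurable f :=
    Finset.measurable_sum _ fun i _ => measurable_one.indicator (msb _)
  have hsub : {X : Fin m → Word n | η * m ≤ (BS n t C η X).card} ⊆
      {X | ENNReal.ofReal (η * m) ≤ f X} := by
    intro X hX
    simp only [Set.mem_ofPred_eq] at hX ⊢
    have h1 : ((BS n t C η X).card : ℝ≥0∞) = f X := by
      rw [hf]
      unfold BS
      rw [Finset.card_filter]
      push_cast
      refine Finset.sum_congr rfl fun i _ => ?_
      by_cases h : Bx n t C η X i
      · rw [if_pos h, Set.indicator_of_mem (show X ∈ {X | Bx n t C η X i} from h)]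
        rfl
      · rw [if_neg h, Set.indicator_of_notMem (show X ∉ {X | Bx n t C η X i} from h)]
    rw [← h1, ← ENNReal.ofReal_natCast]
    exact ENNReal.ofReal_le_ofReal hX
  have h1 := (measure_mono hsub).trans
    (meas_ge_le_lintegral_div (μ := law (unif n) m) hfm.aemeasurable hc ENNReal.ofReal_ne_top)
  have h2 : ∫⁻ X, f X ∂(law (unif n) m) ≤ m * ENNReal.ofReal (bb n t C η z m) := by
    rw [hf, lintegral_finsetSum _ fun i _ => measurable_one.indicator (msb _)]
    refine (Finset.sum_le_sum (g := fun _ => ENNReal.ofReal (bb n t C η z m)) fun i _ => ?_).trans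
      (by simp)
    rw [lintegral_indicator_one (msb _)]
    have h3 := Bx_prob (m := m) htn hz hz1 C hη i
    rw [measureReal_def] at h3
    exact (ENNReal.le_ofReal_iff_toReal_le (measure_ne_top _ _) hb).2 h3
  have h3 : (∫⁻ X, f X ∂(law (unif n) m)) / ENNReal.ofReal (η * m) ≤
      ENNReal.ofReal (bb n t C η z m / η) := by
    refine (ENNReal.div_le_div_right h2 _).trans ?_
    rw [← ENNReal.ofReal_natCast, ← ENNReal.ofReal_mul (by positivity),
      ← ENNReal.ofReal_div_of_pos (by positivity)]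
    refine ENNReal.ofReal_le_ofReal (le_of_eq ?_)
    field_simp
  have h4 := ENNReal.toReal_mono ENNReal.ofReal_ne_top (h1.trans h3)
  rwa [ENNReal.toReal_ofReal (by positivity)] at h4

open Classical in
/-- Few bad points: a large code. -/
theorem best_ge2 (hm : 1 ≤ m) {η : ℝ} (h0 : 0 < η) (h1 : η < 1) {w : ℝ} (hw : 0 < w)
    (hwη : 2 * (w * Real.exp w / (1 + (1 + η) * (m * (ball n t / 2 ^ n)))) * (C + 1) ≤ η)
    (X : Fin m → Word n) (hB : ((BS n t C η X).card : ℝ) < η * m) :
    (1 - η) ^ 2 * w * ((m * (ball n t / 2 ^ n)) / (1 + (1 + η) * (m * (ball n t / 2 ^ n)))) ≤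
      best (cl n t) X * (ball n t / 2 ^ n) := by
  have hmR : (0 : ℝ) < m := by exact_mod_cast hm
  have hb := ball_pos n t
  obtain ⟨v, hv⟩ : ∃ v : ℝ, v = ball n t / 2 ^ n := ⟨_, rfl⟩
  have hv0 : 0 < v := by rw [hv]; positivity
  obtain ⟨V, hV⟩ : ∃ V : ℝ, V = 1 + (1 + η) * (m * v) := ⟨_, rfl⟩
  have hV0 : 0 < V := by rw [hV]; positivity
  rw [← hv, ← hV] at hwη ⊢
  set P : Fin m → Prop := fun i => ¬ Bx n t C η X i with hP
  set c : {i // P i} → {i // P i} → Prop := fun i j => cl n t (X i.1) (X j.1) with hc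
  have hcard : (1 - η) * m ≤ Fintype.card {i // P i} := by
    have h2 : (Fintype.card {i // P i} : ℝ) = m - (BS n t C η X).card := by
      have h3 := Finset.card_filter_add_card_filter_not (s := (univ : Finset (Fin m)))
        (fun i => Bx n t C η X i)
      rw [Finset.card_univ, Fintype.card_fin] at h3
      rw [Fintype.card_subtype]
      have h4 : ((univ.filter fun i => Bx n t C η X i).card : ℝ) +
          (univ.filter fun i => ¬ Bx n t C η X i).card = m := by exact_mod_cast h3
      have h5 : (BS n t C η X) = univ.filter fun i => Bx n t C η X i := rfl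
      rw [h5]
      linarith
    rw [h2]
    linarith
  have hpos : (0 : ℝ) < Fintype.card {i // P i} := lt_of_lt_of_le (by nlinarith) hcard
  have hne : Nonempty {i // P i} := by
    rw [← Fintype.card_pos_iff]
    exact_mod_cast hpos
  have hr : ∀ x, c x x := fun x => cl_refl n t _
  have hs : ∀ x y, c x y → c y x := fun x y h => cl_symm n t _ _ h
  have hVn : ∀ x, ((nb c univ x).card : ℝ) ≤ V := by
    intro x
    have h2 : (nb c univ x).card ≤ ((univ.erase x.1).filter fun j => cl n t (X x.1) (X j)).card +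
        1 := by
      rw [← Finset.card_map (Function.Embedding.subtype P)]
      refine (Finset.card_le_card ?_).trans (Finset.card_insert_le x.1 _)
      intro j hj
      rw [Finset.mem_map] at hj
      obtain ⟨u, hu, rfl⟩ := hj
      rw [Finset.mem_insert, Finset.mem_filter, Finset.mem_erase]
      by_cases h : u.1 = x.1
      · exact Or.inl h
      · exact Or.inr ⟨⟨h, Finset.mem_univ _⟩, (mem_nb.1 hu).2⟩
    have h3 : dg (cl n t) X x.1 < (1 + η) * (m * v) := by
      by_contra hcon
      push Not at hcon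
      exact x.2 (Or.inl (by rw [← hv]; exact hcon))
    rw [dg_eq] at h3
    have h4 : ((nb c univ x).card : ℝ) ≤
        (((univ.erase x.1).filter fun j => cl n t (X x.1) (X j)).card : ℝ) + 1 := by
      exact_mod_cast h2
    rw [hV]
    linarith
  have hΔ : ∀ x, ∀ u ∈ nb c univ x, (((nb c univ x).filter fun v => c u v ∧
      hammingDist (X x.1) (X v.1) ≤ hammingDist (X x.1) (X u.1)).card : ℝ) ≤ C + 1 := by
    intro x u hu
    set S := (nb c univ x).filter fun v => c u v ∧
      hammingDist (X x.1) (X v.1) ≤ hammingDist (X x.1) (X u.1) with hS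
    have h2 : ((S.erase x).erase u).card < C := by
      by_contra hcon
      push Not at hcon
      obtain ⟨s, hsS, hsC⟩ := Finset.exists_subset_card_eq hcon
      apply x.2
      refine Or.inr ⟨u.1, (mem_nb.1 hu).2, s.map (Function.Embedding.subtype P),
        by rw [Finset.card_map, hsC], ?_, ?_, ?_⟩
      · intro h
        rw [Finset.mem_map] at h
        obtain ⟨a, ha, hax⟩ := h
        have : a = x := Subtype.ext hax
        subst this
        have h3 := hsS ha
        rw [Finset.mem_erase, Finset.mem_erase] at h3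
        exact h3.2.1 rfl
      · intro h
        rw [Finset.mem_map] at h
        obtain ⟨a, ha, hax⟩ := h
        have : a = u := Subtype.ext hax
        subst this
        have h3 := hsS ha
        rw [Finset.mem_erase] at h3
        exact h3.1 rfl
      · intro j hj
        rw [Finset.mem_map] at hj
        obtain ⟨a, ha, rfl⟩ := hj
        have h3 := Finset.mem_of_mem_erase (Finset.mem_of_mem_erase (hsS ha))
        rw [hS, Finset.mem_filter] at h3
        exact ⟨(mem_nb.1 h3.1).2, h3.2.1, h3.2.2⟩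
    have h3 : S.card ≤ ((S.erase x).erase u).card + 2 := by
      have e1 := Finset.pred_card_le_card_erase (s := S) (a := x)
      have e2 := Finset.pred_card_le_card_erase (s := S.erase x) (a := u)
      omega
    have h4 : S.card ≤ C + 1 := by omega
    exact_mod_cast h4
  have hη1 : 2 * (w * Real.exp w / V) * (C + 1) ≤ 1 := hwη.trans h1.le
  obtain ⟨I, hI, hIc⟩ := large_ind hr hs hVn
    (fun x v => hammingDist (X x.1) (X v.1)) (C + 1) hΔ hw hη1
  have h2 : I.card ≤ best (cl n t) X := by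
    rw [← Finset.card_map (Function.Embedding.subtype P)]
    refine le_best ?_
    intro i hi j hj hij
    rw [Finset.mem_map] at hi hj
    obtain ⟨a, ha, rfl⟩ := hi
    obtain ⟨b, hb', rfl⟩ := hj
    exact hI a ha b hb' fun h => hij (by rw [h])
  have h3 : (1 - η) * w ≤ V / Fintype.card {i // P i} * I.card :=
    (mul_le_mul_of_nonneg_right (by linarith) hw.le).trans hIc
  rw [div_mul_eq_mul_div, le_div_iff₀ hpos] at h3
  have h4 : (1 - η) * w * ((1 - η) * m) ≤ V * I.card := by
    refine le_trans (mul_le_mul_of_nonneg_left hcard ?_) h3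
    exact mul_nonneg (by linarith) hw.le
  have h5 : (1 - η) ^ 2 * w * (m * v / V) = ((1 - η) * w * ((1 - η) * m)) / V * v := by
    field_simp
  rw [h5]
  refine mul_le_mul_of_nonneg_right ?_ hv0.le
  rw [div_le_iff₀ hV0]
  have h6 : (I.card : ℝ) ≤ best (cl n t) X := by exact_mod_cast h2
  nlinarith [mul_le_mul_of_nonneg_left h6 hV0.le]

/-- **The lower bound for `m` points.** -/
theorem low_m2 (htn : t ≤ n) {z : ℝ} (hz : 0 < z) (hz1 : z ≤ 1) (hm : 1 ≤ m) {η : ℝ} (h0 : 0 < η)
    (h1 : η < 1) {w : ℝ} (hw : 0 < w)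
    (hwη : 2 * (w * Real.exp w / (1 + (1 + η) * (m * (ball n t / 2 ^ n)))) * (C + 1) ≤ η) :
    (law (unif n) m).real {X | best (cl n t) X * (ball n t / 2 ^ n) < (1 - η) ^ 2 * w *
      ((m * (ball n t / 2 ^ n)) / (1 + (1 + η) * (m * (ball n t / 2 ^ n))))} ≤
      bb n t C η z m / η := by
  refine (measureReal_mono ?_ (measure_ne_top _ _)).trans (BS_prob htn hz hz1 C hm h0)
  intro X hX
  simp only [Set.mem_ofPred_eq] at hX ⊢
  by_contra hcon
  push Not at hcon
  exact absurd (best_ge2 hm h0 h1 hw hwη X hcon) (not_le.2 hX)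

/-- **The lower bound, asymptotically.** -/
theorem low_ev {δ : ℝ} (hδ0 : 0 < δ) (hδ1 : δ < 1 / 2) {ε : ℝ} (hε : 0 < ε) :
    ∃ η : ℝ, 0 < η ∧ ∃ n₀ : ℕ, ∀ n : ℕ, n₀ ≤ n → ∀ t : ℕ, |(t : ℝ) - δ * n| ≤ η * n →
    ∀ (x : ℝ) (N : ℕ), Real.exp (x * n) ≤ N * (ball n t / 2 ^ n) →
    (law (unif n) N).real {X | best (cl n t) X * (ball n t / 2 ^ n) <
      (min x (X2 δ) - ε) * n} ≤ ε := by
  have hX2 := X2_pos hδ0 hδ1
  have hX2h := X2_le hδ0 hδ1
  have hh1 : h δ ≤ 1 := by
    have h3 : h δ ≤ Real.log 2 := Real.binEntropy_le_log_two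
    linarith [Real.log_two_lt_d9]
  have triv : ∀ (n t N : ℕ) (w : ℝ), w ≤ ε → (law (unif n) N).real {X | best (cl n t) X *
      (ball n t / 2 ^ n) < (w - ε) * n} ≤ ε := by
    intro n t N w hw
    have hb := ball_pos n t
    have : {X : Fin N → Word n | best (cl n t) X * (ball n t / 2 ^ n) < (w - ε) * n} = ∅ := by
      ext X
      simp only [Set.mem_ofPred_eq, Set.mem_empty_iff_false, iff_false, not_lt]
      have h1 : (w - ε) * n ≤ 0 :=
        mul_nonpos_of_nonpos_of_nonneg (by linarith) (Nat.cast_nonneg n)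
      have h2 : 0 ≤ best (cl n t) X * ((ball n t : ℝ) / 2 ^ n) := by positivity
      linarith
    rw [this]
    simpa using hε.le
  by_cases hε1 : X2 δ ≤ ε
  · exact ⟨1, one_pos, 0, fun n _ t _ x N _ => triv n t N _ ((min_le_right _ _).trans hε1)⟩
  push Not at hε1
  have hε2 : ε < 1 := by linarith
  obtain ⟨hz0, hz1, -⟩ := zz_spec hδ0 hδ1
  obtain ⟨e8, he8⟩ : ∃ e8, e8 = ε / 8 := ⟨_, rfl⟩
  have he80 : 0 < e8 := by rw [he8]; positivity
  obtain ⟨η₁, hη₁, A1⟩ := vol_asym hδ0 hδ1 he80
  obtain ⟨η₃, hη₃, A3⟩ := Dl_asym hδ0 hδ1 he80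
  refine ⟨min η₁ η₃, lt_min hη₁ hη₃, ?_⟩
  obtain ⟨C, hC⟩ := exists_nat_ge (8 / ε)
  set η : ℝ := ε / 16 with hη
  have hη0 : 0 < η := by positivity
  have hη1 : η < 1 := by linarith
  have E1 : ∀ᶠ n : ℕ in atTop, Real.exp (-(ε / 2 * (n : ℝ))) ≤ η ^ 3 * ε / 2 :=
    exp_small (by positivity) (by positivity)
  have E2 : ∀ᶠ n : ℕ in atTop, Real.exp (-(1 * (n : ℝ))) ≤ ε * η / (6 * 2 ^ C) :=
    exp_small one_pos (by positivity)
  have E3 : ∀ᶠ n : ℕ in atTop, Real.exp (-(ε / 8 * (n : ℝ))) ≤ η / (2 * (C + 1)) :=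
    exp_small (by positivity) (by positivity)
  have E4 : ∀ᶠ n : ℕ in atTop, (n : ℝ) + 1 ≤ Real.exp (ε / 8 * n) := poly_small (by positivity)
  have E5 : ∀ᶠ n : ℕ in atTop, Real.exp (-(ε / 2 * (n : ℝ))) ≤ η :=
    exp_small (by positivity) hη0
  have E6 : ∀ᶠ n : ℕ in atTop, 2 / ε ≤ (n : ℝ) :=
    tendsto_natCast_atTop_atTop.eventually_ge_atTop _
  obtain ⟨n₀, hn₀⟩ := eventually_atTop.1 ((((A1.and E1).and (E2.and E3)).and (E4.and E5)).and
    (E6.and (eventually_ge_atTop 1)))
  refine ⟨n₀, fun n hn t ht x N hN => ?_⟩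
  obtain ⟨⟨⟨⟨B1, F1⟩, F2, F3⟩, F4, F5⟩, F6, F7⟩ := hn₀ n hn
  have hnR : (1 : ℝ) ≤ n := by exact_mod_cast F7
  have hn0 : (0 : ℝ) < n := by linarith
  obtain ⟨C1, C2, C3, C4⟩ := B1 t (ht.trans (mul_le_mul_of_nonneg_right (min_le_left _ _) hn0.le))
  have C6 := A3 n t (by omega) (ht.trans (mul_le_mul_of_nonneg_right (min_le_right _ _) hn0.le))
  obtain ⟨z, hzdef⟩ : ∃ z, z = zz δ := ⟨_, rfl⟩
  rw [← hzdef] at hz0 hz1 C6
  have hb := ball_pos n t
  obtain ⟨v, hv⟩ : ∃ v : ℝ, v = ball n t / 2 ^ n := ⟨_, rfl⟩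
  have hv0 : 0 < v := by rw [hv]; positivity
  have hv1 : v ≤ 1 := by
    rw [hv, div_le_one (by positivity)]
    have h2 := Finset.card_le_univ (nb (fun x y : Word n => hammingDist x y ≤ t) univ
      (fun _ => true))
    rw [nb_card t, Fintype.card_fun, Fintype.card_bool, Fintype.card_fin] at h2
    exact_mod_cast h2
  obtain ⟨w, hw⟩ : ∃ w, w = min x (X2 δ) := ⟨_, rfl⟩
  have hwx : w ≤ x := hw ▸ min_le_left _ _
  have hws : w ≤ X2 δ := hw ▸ min_le_right _ _
  rw [← hw]
  by_cases hwε : w ≤ ε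
  · exact triv n t N w hwε
  push Not at hwε
  have hw1 : w ≤ 1 := by linarith
  rw [← hv] at hN ⊢
  -- the number of the points
  obtain ⟨L1, hL1⟩ : ∃ L1, L1 = Real.exp ((w - ε / 2) * n) := ⟨_, rfl⟩
  have hL1e : Real.exp (ε / 2 * n) ≤ L1 := by
    rw [hL1, Real.exp_le_exp]
    exact mul_le_mul_of_nonneg_right (by linarith) hn0.le
  have hL1ge : 1 ≤ L1 := (Real.one_le_exp (by positivity)).trans hL1e
  obtain ⟨m, hm⟩ : ∃ m, m = ⌈L1 / v⌉₊ := ⟨_, rfl⟩
  have hm1 : L1 ≤ m * v := by
    have := Nat.le_ceil (L1 / v)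
    rwa [div_le_iff₀ hv0, ← hm] at this
  have hm2 : m * v < L1 + v := by
    have := Nat.ceil_lt_add_one (a := L1 / v) (by positivity)
    have h2 := mul_lt_mul_of_pos_right this hv0
    rw [add_mul, div_mul_cancel₀ _ hv0.ne', one_mul, ← hm] at h2
    exact h2
  have hm3 : m * v ≤ 2 * L1 := by linarith
  have hmN : m ≤ N := by
    have h1 : L1 * Real.exp (ε / 2 * n) ≤ N * v := by
      refine le_trans ?_ hN
      rw [hL1, ← Real.exp_add, Real.exp_le_exp]
      have e1 : (w - ε / 2) * n + ε / 2 * n = w * n := by ring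
      rw [e1]
      exact mul_le_mul_of_nonneg_right hwx hn0.le
    have h2 : 2 ≤ Real.exp (ε / 2 * n) := by
      rw [div_le_iff₀ hε] at F6
      have := Real.add_one_le_exp (ε / 2 * (n : ℝ))
      linarith
    have h2' : L1 * 2 ≤ L1 * Real.exp (ε / 2 * n) := mul_le_mul_of_nonneg_left h2 (by linarith)
    have h3 : (m : ℝ) * v ≤ N * v := by linarith
    have h4 := le_of_mul_le_mul_right h3 hv0
    exact_mod_cast h4
  have hmpos : 1 ≤ m := by
    rw [hm, Nat.one_le_iff_ne_zero, ← Nat.pos_iff_ne_zero]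
    exact Nat.ceil_pos.2 (by positivity)
  have hmR : (1 : ℝ) ≤ m := by exact_mod_cast hmpos
  have hmono := law_mono (unif n) (cl n t) hmN ((w - ε) * n) v hv0.le
  refine hmono.trans ?_
  -- the parameter
  obtain ⟨u, hu⟩ : ∃ u, u = (w - 3 * ε / 4) * n := ⟨_, rfl⟩
  have hu0 : 0 < u := by
    rw [hu]
    exact mul_pos (by linarith) hn0
  have hun : u ≤ n := by
    rw [hu]
    have : (w - 3 * ε / 4) * n ≤ 1 * n := mul_le_mul_of_nonneg_right (by linarith) hn0.le
    linarith
  have hmv0 : 0 < (m : ℝ) * v := by linarith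
  have hV : L1 ≤ 1 + (1 + η) * (m * v) := by
    have : 0 ≤ η * (m * v) := by positivity
    linarith
  have hwη : 2 * (u * Real.exp u / (1 + (1 + η) * (m * (ball n t / 2 ^ n)))) * (C + 1) ≤ η := by
    rw [← hv]
    have h1 : u * Real.exp u / (1 + (1 + η) * (m * v)) ≤ Real.exp (-(ε / 8 * n)) := by
      rw [div_le_iff₀ (by linarith)]
      refine le_trans ?_ (mul_le_mul_of_nonneg_left hV (Real.exp_pos _).le)
      calc u * Real.exp u ≤ Real.exp (ε / 8 * n) * Real.exp u :=
            mul_le_mul_of_nonneg_right (by linarith) (Real.exp_pos _).le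
        _ = Real.exp (-(ε / 8 * n)) * L1 := by
            rw [hL1, ← Real.exp_add, ← Real.exp_add, hu]
            congr 1
            ring
    have h2 := h1.trans F3
    have hC0 : (0 : ℝ) < C + 1 := by positivity
    calc 2 * (u * Real.exp u / (1 + (1 + η) * (m * v))) * (C + 1) ≤
          2 * (η / (2 * (C + 1))) * (C + 1) := by
          refine mul_le_mul_of_nonneg_right ?_ hC0.le
          linarith
      _ = η := by field_simp
  have hlow := low_m2 (n := n) (t := t) (m := m) (C := C) (by omega) hz0 hz1 hmpos hη0 hη1 hu0 hwη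
  rw [← hv] at hlow
  have hsub : {X : Fin m → Word n | best (cl n t) X * v < (w - ε) * n} ⊆
      {X | best (cl n t) X * v < (1 - η) ^ 2 * u * ((m * v) / (1 + (1 + η) * (m * v)))} := by
    intro X hX
    simp only [Set.mem_ofPred_eq] at hX ⊢
    refine hX.trans_le ?_
    have h1 : 1 ≤ η * (m * v) := by
      have h2 : Real.exp (ε / 2 * n) ≤ m * v := hL1e.trans hm1
      have h3 : 1 ≤ η * Real.exp (ε / 2 * n) := by
        have h4 := mul_le_mul_of_nonneg_right F5 (Real.exp_pos (ε / 2 * (n : ℝ))).le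
        rwa [← Real.exp_add, neg_add_cancel, Real.exp_zero] at h4
      exact h3.trans (mul_le_mul_of_nonneg_left h2 hη0.le)
    have h2 : 1 - 2 * η ≤ (m * v) / (1 + (1 + η) * (m * v)) := by
      rw [le_div_iff₀ (by positivity)]
      have e1 : (1 - 2 * η) * (1 + (1 + η) * (m * v)) = m * v - η * (m * v) + 1 - 2 * η -
          2 * η ^ 2 * (m * v) := by ring
      have e2 : 0 ≤ 2 * η ^ 2 * (m * v) := by positivity
      rw [e1]
      linarith
    have h3 : 1 - 4 * η ≤ (1 - η) ^ 2 * ((m * v) / (1 + (1 + η) * (m * v))) := by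
      have h4 : (1 - η) ^ 2 * (1 - 2 * η) ≤
          (1 - η) ^ 2 * ((m * v) / (1 + (1 + η) * (m * v))) :=
        mul_le_mul_of_nonneg_left h2 (sq_nonneg _)
      have h5 : (1 - η) ^ 2 * (1 - 2 * η) = 1 - 4 * η + η ^ 2 * (5 - 2 * η) := by ring
      have h6 : 0 ≤ η ^ 2 * (5 - 2 * η) := mul_nonneg (sq_nonneg _) (by linarith)
      linarith
    have h4 := mul_le_mul_of_nonneg_right h3 hu0.le
    have h5 : (w - ε) * n ≤ (1 - 4 * η) * u := by
      rw [hu, hη]
      have h6 : (1 - 4 * (ε / 16)) * ((w - 3 * ε / 4) * n) - (w - ε) * n =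
          (ε / 4 * (1 - w) + 3 * ε ^ 2 / 16) * n := by ring
      have h7 : 0 ≤ (ε / 4 * (1 - w) + 3 * ε ^ 2 / 16) * n := by
        have : 0 ≤ 1 - w := by linarith
        positivity
      linarith
    refine h5.trans (h4.trans (le_of_eq ?_))
    ring
  refine (measureReal_mono hsub (measure_ne_top _ _)).trans (hlow.trans ?_)
  -- the probability
  rw [div_le_iff₀ hη0]
  unfold bb
  rw [← hv]
  have g1 : 1 / (η ^ 2 * (m * v)) ≤ ε * η / 2 := by
    rw [div_le_iff₀ (by positivity)]
    have h2 : Real.exp (ε / 2 * n) ≤ m * v := hL1e.trans hm1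
    have h3 : 1 ≤ η ^ 3 * ε / 2 * Real.exp (ε / 2 * n) := by
      have h4 := mul_le_mul_of_nonneg_right F1 (Real.exp_pos (ε / 2 * (n : ℝ))).le
      rwa [← Real.exp_add, neg_add_cancel, Real.exp_zero] at h4
    have h4 : η ^ 3 * ε / 2 * Real.exp (ε / 2 * n) ≤ η ^ 3 * ε / 2 * (m * v) :=
      mul_le_mul_of_nonneg_left h2 (by positivity)
    calc (1 : ℝ) ≤ η ^ 3 * ε / 2 * (m * v) := h3.trans h4
      _ = ε * η / 2 * (η ^ 2 * (m * v)) := by ring
  have g2 : (1 + m * v) * (m * (Dl n t z / 2 ^ n)) ^ C ≤ ε * η / 2 := by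
    have hD0 : 0 ≤ Dl n t z := by
      unfold Dl
      positivity
    have h2 : m * (Dl n t z / 2 ^ n) ≤ 2 * Real.exp (-(ε / 4 * n)) := by
      have h3 : m * (Dl n t z / 2 ^ n) = (m * v) * (Dl n t z / ball n t) := by
        rw [hv]
        field_simp
      have h4 : Dl n t z / ball n t ≤ Real.exp ((-(X2 δ) + 2 * e8) * n) := by
        rw [div_le_iff₀ hb]
        refine C6.trans ?_
        calc Real.exp ((h δ - X2 δ + e8) * n) =
              Real.exp ((-(X2 δ) + 2 * e8) * n) * Real.exp ((h δ - e8) * n) := by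
              rw [← Real.exp_add]
              congr 1
              ring
          _ ≤ _ := mul_le_mul_of_nonneg_left C1 (Real.exp_pos _).le
      rw [h3]
      calc (m * v) * (Dl n t z / ball n t) ≤
            (2 * L1) * Real.exp ((-(X2 δ) + 2 * e8) * n) :=
            mul_le_mul hm3 h4 (by positivity) (by positivity)
        _ = 2 * Real.exp ((w - ε / 2) * n + (-(X2 δ) + 2 * e8) * n) := by
            rw [hL1, Real.exp_add]
            ring
        _ ≤ 2 * Real.exp (-(ε / 4 * n)) := by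
            refine mul_le_mul_of_nonneg_left (Real.exp_le_exp.2 ?_) (by norm_num)
            have e1 : (w - ε / 2) * n + (-(X2 δ) + 2 * e8) * n =
                (w - X2 δ - ε / 4) * n := by
              rw [he8]
              ring
            have e2 : -(ε / 4 * (n : ℝ)) = (-(ε / 4)) * n := by ring
            rw [e1, e2]
            exact mul_le_mul_of_nonneg_right (by linarith) hn0.le
    have h3 : (m * (Dl n t z / 2 ^ n)) ^ C ≤ 2 ^ C * Real.exp (-(2 * n)) := by
      refine (pow_le_pow_left₀ (by positivity) h2 C).trans ?_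
      rw [mul_pow, ← Real.exp_nat_mul]
      refine mul_le_mul_of_nonneg_left (Real.exp_le_exp.2 ?_) (by positivity)
      rw [div_le_iff₀ hε] at hC
      have e1 : (C : ℝ) * -(ε / 4 * n) = -(C * ε / 4 * n) := by ring
      rw [e1, neg_le_neg_iff]
      exact mul_le_mul_of_nonneg_right (by linarith) hn0.le
    have h4 : 1 + m * v ≤ 3 * Real.exp n := by
      have h5 : L1 ≤ Real.exp n := by
        rw [hL1, Real.exp_le_exp]
        have : (w - ε / 2) * n ≤ 1 * n := mul_le_mul_of_nonneg_right (by linarith) hn0.le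
        linarith
      linarith
    calc (1 + m * v) * (m * (Dl n t z / 2 ^ n)) ^ C ≤
          (3 * Real.exp n) * (2 ^ C * Real.exp (-(2 * n))) :=
          mul_le_mul h4 h3 (by positivity) (by positivity)
      _ = 3 * 2 ^ C * Real.exp (-(1 * n)) := by
          have e : Real.exp (-(1 * (n : ℝ))) = Real.exp n * Real.exp (-(2 * n)) := by
            rw [← Real.exp_add]
            congr 1
            ring
          rw [e]
          ring
      _ ≤ 3 * 2 ^ C * (ε * η / (6 * 2 ^ C)) := mul_le_mul_of_nonneg_left F2 (by positivity)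
      _ = ε * η / 2 := by
          field_simp
          norm_num
  linarith

end Pool.Agent.U279.GP
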