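import Pool.Agent.U279.GP.Code

/-!
# Codes inside random sets of words: the upper bound
-/

set_option autoImplicit false

namespace Pool.Agent.U279.GP

open MeasureTheory Set Finset ProbabilityTheory Filter Topology
open scoped ENNReal NNReal
open Pool.Agent.U180.CG (cl cl_symm cl_refl nb mem_nb nb_card sparse Dl Nk Z Z_pos inds mem_inds
  ball_pos card_word X1 X2 h X1_pos X2_pos vol_asym mid_asym Dl_asym poly_small exp_small
  exists_W)
open Pool.Agent.U180.BC (Word ball)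

variable {n t N k : ℕ}

/-- The constant of the upper bound. -/
noncomputable def upc (y x : ℝ) : ℝ := if x ≤ y / 2 then 2 * x else y ^ 2 / (2 * (y - x))

theorem upc_nonneg {y x : ℝ} (h0 : 0 ≤ x) (h1 : x < y) : 0 ≤ upc y x := by
  unfold upc
  split_ifs
  · linarith
  · have : 0 < y - x := by linarith
    positivity

theorem upc_le {y x ε : ℝ} (hε : 0 < ε) (h0 : 0 ≤ x) (h1 : x ≤ y - ε) :
    upc y x ≤ y + y ^ 2 / (2 * ε) := by
  unfold upc
  split_ifs with h
  · have : 0 ≤ y ^ 2 / (2 * ε) := by positivity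
    linarith
  · have h2 : y ^ 2 / (2 * (y - x)) ≤ y ^ 2 / (2 * ε) :=
      div_le_div_of_nonneg_left (sq_nonneg _) (by positivity) (by linarith)
    linarith

theorem gap0 {y ε : ℝ} (hy : 0 < y) (hε : 0 < ε) : ∃ γ : ℝ, 0 < γ ∧ ∀ x : ℝ, 0 ≤ x → x ≤ y - ε →
    ∃ σ : ℝ, 0 ≤ σ ∧ σ ≤ y ∧ x ≤ σ ∧ γ ≤ (σ - x) * (upc y x + ε) - σ ^ 2 / 2 := by
  set δ := min ε (y / 2) with hδ
  have hδ0 : 0 < δ := lt_min hε (by linarith)
  have hδ1 : δ ≤ ε := min_le_left _ _
  have hδ2 : δ ≤ y / 2 := min_le_right _ _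
  refine ⟨min (ε * δ / 2) (min (ε * y / 4) (ε ^ 2)), by positivity, fun x h0 h1 => ?_⟩
  by_cases hx : x ≤ y / 2
  · have hu : upc y x = 2 * x := by unfold upc; rw [if_pos hx]
    by_cases hx' : x ≤ y / 2 - δ / 2
    · refine ⟨2 * x + δ, by positivity, by linarith, by linarith, ?_⟩
      refine (min_le_left _ _).trans ?_
      rw [hu]
      nlinarith [mul_nonneg hε.le h0, mul_nonneg hδ0.le (by linarith : (0 : ℝ) ≤ ε - δ)]
    · push Not at hx'
      refine ⟨y, hy.le, le_rfl, by linarith, ?_⟩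
      refine ((min_le_right _ _).trans (min_le_left _ _)).trans ?_
      rw [hu]
      have h2 : 0 ≤ y / 2 - x := by linarith
      have h3 : y / 2 - x ≤ δ / 2 := by linarith
      have h4 : (y / 2 - x) ^ 2 ≤ (δ / 2) ^ 2 := pow_le_pow_left₀ h2 h3 2
      have h5 : δ ^ 2 ≤ ε * (y / 2) := by
        rw [sq]
        exact mul_le_mul hδ1 hδ2 hδ0.le hε.le
      have h6 : (y - x) * (2 * x + ε) - y ^ 2 / 2 =
          -2 * (y / 2 - x) ^ 2 + ε * (y / 2) + ε * (y / 2 - x) := by ring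
      rw [h6]
      nlinarith [mul_nonneg hε.le h2]
  · have hu : upc y x = y ^ 2 / (2 * (y - x)) := by unfold upc; rw [if_neg hx]
    refine ⟨y, hy.le, le_rfl, by linarith, ?_⟩
    refine ((min_le_right _ _).trans (min_le_right _ _)).trans ?_
    rw [hu]
    have h2 : 0 < y - x := by linarith
    have h3 : (y - x) * (y ^ 2 / (2 * (y - x)) + ε) - y ^ 2 / 2 = ε * (y - x) := by
      field_simp
      ring
    rw [h3, sq]
    exact mul_le_mul_of_nonneg_left (by linarith) hε.le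

theorem gap {y ε : ℝ} (hy : 0 < y) (hε : 0 < ε) : ∃ γ : ℝ, 0 < γ ∧ ∃ y' : ℝ, 0 < y' ∧ y' < y ∧
    ∀ x : ℝ, 0 ≤ x → x ≤ y - ε →
    ∃ σ : ℝ, 0 ≤ σ ∧ σ ≤ y' ∧ x ≤ σ ∧ γ ≤ (σ - x) * (upc y x + ε) - σ ^ 2 / 2 := by
  obtain ⟨γ, hγ, hg⟩ := gap0 hy hε
  set K := y + y ^ 2 / (2 * ε) + ε with hK
  have hK0 : 0 < K := by positivity
  set θ := min ε (min (y / 2) (γ / (2 * K))) with hθ
  have hθ0 : 0 < θ := by positivity
  have hθ1 : θ ≤ ε := min_le_left _ _
  have hθ2 : θ ≤ y / 2 := (min_le_right _ _).trans (min_le_left _ _)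
  have hθ3 : θ ≤ γ / (2 * K) := (min_le_right _ _).trans (min_le_right _ _)
  rw [le_div_iff₀ (by positivity)] at hθ3
  refine ⟨γ / 2, by positivity, y - θ, by linarith, by linarith, fun x h0 h1 => ?_⟩
  obtain ⟨σ, s0, s1, s2, s3⟩ := hg x h0 h1
  have hu := upc_le hε h0 h1
  have hu0 := upc_nonneg (y := y) h0 (by linarith)
  refine ⟨min σ (y - θ), le_min s0 (by linarith), min_le_right _ _, le_min s2 (by linarith), ?_⟩
  have h2 : min σ (y - θ) ^ 2 ≤ σ ^ 2 :=
    pow_le_pow_left₀ (le_min s0 (by linarith)) (min_le_left _ _) 2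
  have h3 : σ - θ ≤ min σ (y - θ) := le_min (by linarith) (by linarith)
  have h4 : (σ - x) * (upc y x + ε) - θ * K ≤ (min σ (y - θ) - x) * (upc y x + ε) := by
    have h5 : (σ - θ - x) * (upc y x + ε) ≤ (min σ (y - θ) - x) * (upc y x + ε) :=
      mul_le_mul_of_nonneg_right (by linarith) (by linarith)
    have h6 : θ * (upc y x + ε) ≤ θ * K := mul_le_mul_of_nonneg_left (by linarith) hθ0.le
    nlinarith
  linarith

/-- The error term. -/
noncomputable def er (n : ℕ) (σ : ℝ) : ℝ := (1 + σ * n) + (1 + σ * n) ^ 2 / 2 + 3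

theorem er_le (hn : 1 ≤ n) {σ : ℝ} (h0 : 0 ≤ σ) (h1 : σ ≤ 1) :
    er n σ ≤ σ ^ 2 / 2 * n ^ 2 + 7 * n := by
  have hnR : (1 : ℝ) ≤ n := by exact_mod_cast hn
  unfold er
  have h2 : σ * n ≤ 1 * n := mul_le_mul_of_nonneg_right h1 (by linarith)
  nlinarith

/-- The partition function. -/
theorem log_Z_le (ht : Even t) (htn : 2 * t ≤ n) {y σ : ℝ}
    (hs : ∀ s : ℕ, 1 ≤ s → s ≤ n → ((n : ℝ) + 1 - 2 * s) ^ 2 < 4 * (t : ℝ) * ((n : ℝ) - t) →
      (2 : ℝ) ^ n ≤ Real.exp (-(y * n)) ^ 2 * ball n t * n.choose s)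
    (hV : (1 + y * n) * Real.exp (y * n) ≤ ball n t / 2) (h0 : 0 ≤ σ) (h1 : σ ≤ y) :
    ball n t / 2 ^ n * Real.log (Z (cl n t) (Real.exp (σ * n) / ball n t) univ) ≤ er n σ := by
  have hb := ball_pos n t
  have hn0 : (0 : ℝ) ≤ n := Nat.cast_nonneg n
  obtain ⟨w, hw, he⟩ := exists_W (Real.exp (σ * n)) (Real.exp_pos _).le
  have hw0 : 0 < w := by
    rcases hw.eq_or_lt with h2 | h2
    · rw [← h2, zero_mul] at he
      exact absurd he (Real.exp_pos _).ne
    · exact h2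
  have hσ : 0 ≤ σ * n := mul_nonneg h0 hn0
  have hσy : σ * n ≤ y * n := mul_le_mul_of_nonneg_right h1 hn0
  have hσe : Real.exp (σ * n) ≤ Real.exp (y * n) := Real.exp_le_exp.2 hσy
  have hs1 : w ≤ 1 + σ * n := by
    by_contra hcon
    push Not at hcon
    have h4 : Real.exp (σ * n) < w * Real.exp w := by
      calc Real.exp (σ * n) = 1 * Real.exp (σ * n) := (one_mul _).symm
        _ < w * Real.exp w :=
            mul_lt_mul'' (by linarith) (Real.exp_lt_exp.2 (by linarith)) zero_le_one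
              (Real.exp_pos _).le
    linarith
  have h7 : (1 + σ * n) * Real.exp (σ * n) ≤ ball n t / 2 :=
    (mul_le_mul (by linarith) hσe (Real.exp_pos _).le (by linarith)).trans hV
  have h8 : w * Real.exp w / ball n t ≤ 1 / 2 := by
    rw [he, div_le_iff₀ hb]
    have : Real.exp (σ * n) ≤ (1 + σ * n) * Real.exp (σ * n) :=
      le_mul_of_one_le_left (Real.exp_pos _).le (by linarith)
    linarith
  have h2 := Pool.Agent.U180.CG.prs_le ht htn (κ := Real.exp (-(y * n))) (Real.exp_pos _).le hs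
    hw0 h8
  have e1 : Pool.Agent.U180.CG.prs n t w =
      ball n t / 2 ^ n * Real.log (Z (cl n t) (w * Real.exp w / ball n t) univ) := rfl
  rw [e1, he] at h2
  have h5 : Real.exp (-(y * n)) * Real.exp (σ * n) ≤ 1 := by
    rw [← Real.exp_add, Real.exp_le_one_iff]
    linarith
  have h6 : w ^ 2 ≤ (1 + σ * n) ^ 2 := pow_le_pow_left₀ hw hs1 2
  have h9 : w / ball n t * Real.exp (σ * n) ≤ 1 / 2 := by
    rw [div_mul_eq_mul_div, div_le_iff₀ hb]
    have : w * Real.exp (σ * n) ≤ (1 + σ * n) * Real.exp (σ * n) :=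
      mul_le_mul_of_nonneg_right hs1 (Real.exp_pos _).le
    linarith
  have h10 : 2 * (Real.exp (-(y * n)) + w / ball n t) * Real.exp (σ * n) ≤ 3 := by
    have : 2 * (Real.exp (-(y * n)) + w / ball n t) * Real.exp (σ * n) =
        2 * (Real.exp (-(y * n)) * Real.exp (σ * n)) + 2 * (w / ball n t * Real.exp (σ * n)) := by
      ring
    rw [this]
    linarith
  unfold er
  linarith

/-- The upper bound for the largest code. -/
theorem up (ht : Even t) (htn : 2 * t ≤ n) {y : ℝ}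
    (hs : ∀ s : ℕ, 1 ≤ s → s ≤ n → ((n : ℝ) + 1 - 2 * s) ^ 2 < 4 * (t : ℝ) * ((n : ℝ) - t) →
      (2 : ℝ) ^ n ≤ Real.exp (-(y * n)) ^ 2 * ball n t * n.choose s)
    (hV : (1 + y * n) * Real.exp (y * n) ≤ ball n t / 2)
    {x σ κ : ℝ} (h0 : 0 ≤ σ) (h1 : σ ≤ y)
    (hx : x ≤ σ) (hN : N * (ball n t / 2 ^ n) ≤ Real.exp (x * n)) :
    (law (unif n) N).real {X | κ * n ≤ best (cl n t) X * (ball n t / 2 ^ n)} ≤
      Real.exp ((er n σ - (σ - x) * κ * n ^ 2) / (ball n t / 2 ^ n)) := by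
  have hb := ball_pos n t
  obtain ⟨D, hD⟩ : ∃ D, D = (ball n t : ℝ) / 2 ^ n := ⟨_, rfl⟩
  have hD0 : 0 < D := by rw [hD]; positivity
  have hlog := log_Z_le ht htn hs hV h0 h1
  rw [← hD] at hlog hN ⊢
  have h2 : {X : Fin N → Word n | κ * n ≤ best (cl n t) X * D} =
      {X | ⌈κ * n / D⌉₊ ≤ best (cl n t) X} := by
    ext X
    simp only [Set.mem_ofPred_eq]
    rw [Nat.ceil_le, div_le_iff₀ hD0]
  rw [h2]
  set k := ⌈κ * n / D⌉₊ with hk
  have hlam : 0 < Real.exp (σ * n) / ball n t := by positivity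
  refine (law_best_le_Z hlam k).trans ?_
  have h3 : (N : ℝ) / (Real.exp (σ * n) / ball n t * 2 ^ n) ≤ Real.exp (-((σ - x) * n)) := by
    have h3a : (N : ℝ) / (Real.exp (σ * n) / ball n t * 2 ^ n) =
        N * D / Real.exp (σ * n) := by
      rw [hD]
      field_simp
    have h3b : Real.exp (-((σ - x) * n)) = Real.exp (x * n) / Real.exp (σ * n) := by
      rw [← Real.exp_sub]
      congr 1
      ring
    rw [h3a, h3b]
    exact div_le_div_of_nonneg_right hN (Real.exp_pos _).le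
  have hZ := Z_pos (c := cl n t) hlam.le univ
  have h4 : Z (cl n t) (Real.exp (σ * n) / ball n t) univ ≤ Real.exp (er n σ / D) := by
    rw [← Real.log_le_iff_le_exp (by linarith), le_div_iff₀ hD0, mul_comm]
    exact hlog
  have h3c := pow_le_pow_left₀ (by positivity) h3 k
  rw [← Real.exp_nat_mul] at h3c
  refine (mul_le_mul h3c h4 (by linarith) (Real.exp_pos _).le).trans ?_
  rw [← Real.exp_add, Real.exp_le_exp]
  have h5 : κ * n / D ≤ k := Nat.le_ceil _
  have h6 : 0 ≤ (σ - x) * n := mul_nonneg (by linarith) (Nat.cast_nonneg n)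
  have h7 := mul_le_mul_of_nonneg_left h5 h6
  have h8 : (er n σ - (σ - x) * κ * n ^ 2) / D =
      er n σ / D - (σ - x) * n * (κ * n / D) := by
    ring
  rw [h8]
  linarith

theorem h_le_one {δ : ℝ} : h δ ≤ 1 := by
  have h3 : h δ ≤ Real.log 2 := Real.binEntropy_le_log_two
  linarith [Real.log_two_lt_d9]

theorem h_pos {δ : ℝ} (h0 : 0 < δ) (h1 : δ < 1 / 2) : 0 < h δ :=
  Real.binEntropy_pos h0 (by linarith)

theorem X1_le {δ : ℝ} : X1 δ ≤ h δ / 2 := by
  unfold X1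
  have h3 : h (1 / 2 - √(δ * (1 - δ))) ≤ Real.log 2 := Real.binEntropy_le_log_two
  linarith

/-- **The upper bound, asymptotically.** -/
theorem up_ev {δ : ℝ} (h0 : 0 < δ) (h1 : δ < 1 / 2) {ε : ℝ} (hε : 0 < ε) :
    ∃ η : ℝ, 0 < η ∧ ∃ n₀ : ℕ, ∀ n : ℕ, n₀ ≤ n → ∀ t : ℕ, Even t → |(t : ℝ) - δ * n| ≤ η * n →
    ∀ (x : ℝ) (N : ℕ), 0 ≤ x → x ≤ X1 δ - ε → N * (ball n t / 2 ^ n) ≤ Real.exp (x * n) →
    (law (unif n) N).real {X | (upc (X1 δ) x + ε) * n ≤
      best (cl n t) X * (ball n t / 2 ^ n)} ≤ ε := by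
  have hX1 := X1_pos h0 h1
  obtain ⟨γ, hγ, y, hy0, hy1, hg⟩ := gap hX1 hε
  obtain ⟨e8, he8⟩ : ∃ e8, e8 = min (X1 δ - y) (h δ / 8) := ⟨_, rfl⟩
  have hhp := h_pos h0 h1
  have he80 : 0 < e8 := by
    rw [he8]
    exact lt_min (by linarith) (by linarith)
  have he81 : e8 ≤ X1 δ - y := he8 ▸ min_le_left _ _
  have he82 : e8 ≤ h δ / 8 := he8 ▸ min_le_right _ _
  obtain ⟨η₁, hη₁, A1⟩ := vol_asym h0 h1 he80
  obtain ⟨η₂, hη₂, A2⟩ := mid_asym h0 h1 he80
  refine ⟨min η₁ η₂, lt_min hη₁ hη₂, ?_⟩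
  have A3 : ∀ᶠ n : ℕ in atTop, max (14 / γ) (2 / (γ * ε)) ≤ (n : ℝ) :=
    tendsto_natCast_atTop_atTop.eventually_ge_atTop _
  obtain ⟨n₀, hn₀⟩ := eventually_atTop.1 (((A1.and A2).and A3).and
    ((poly_small (ε := h δ / 16) (by linarith)).and (eventually_ge_atTop 1)))
  refine ⟨n₀, fun n hn t hte ht x N hx0 hx1 hN => ?_⟩
  obtain ⟨⟨⟨B1, B2⟩, B3⟩, B4, B5⟩ := hn₀ n hn
  have hnR : (1 : ℝ) ≤ n := by exact_mod_cast B5
  have hn0 : (0 : ℝ) < n := by linarith
  obtain ⟨C1, C2, C3, C4⟩ := B1 t (ht.trans (mul_le_mul_of_nonneg_right (min_le_left _ _) hn0.le))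
  have C5 := B2 t (ht.trans (mul_le_mul_of_nonneg_right (min_le_right _ _) hn0.le))
  have hb := ball_pos n t
  have hX1l := X1_le (δ := δ)
  have hh1 := h_le_one (δ := δ)
  have hs : ∀ s : ℕ, 1 ≤ s → s ≤ n → ((n : ℝ) + 1 - 2 * s) ^ 2 < 4 * (t : ℝ) * ((n : ℝ) - t) →
      (2 : ℝ) ^ n ≤ Real.exp (-(y * n)) ^ 2 * ball n t * n.choose s := by
    intro s hs1 hsn hs
    have h4 := C5 s hs1 hsn hs
    have e2 : (2 : ℝ) ^ n = Real.exp (Real.log 2 * n) := by
      rw [mul_comm, Real.exp_nat_mul, Real.exp_log (by norm_num)]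
    have e3 : Real.exp (-(y * n)) ^ 2 = Real.exp (-(2 * y * n)) := by
      rw [← Real.exp_nat_mul]
      congr 1
      push_cast
      ring
    rw [e2, e3]
    calc Real.exp (Real.log 2 * n) ≤ Real.exp (-(2 * y * n)) *
          Real.exp ((h δ - e8) * n) *
            Real.exp ((h (1 / 2 - √(δ * (1 - δ))) - e8) * n) := by
          rw [← Real.exp_add, ← Real.exp_add, Real.exp_le_exp]
          have e4 : 2 * X1 δ = h δ + h (1 / 2 - √(δ * (1 - δ))) - Real.log 2 := by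
            unfold X1
            ring
          have e5 : -(2 * y * n) + (h δ - e8) * n +
              (h (1 / 2 - √(δ * (1 - δ))) - e8) * n =
              (h δ + h (1 / 2 - √(δ * (1 - δ))) - 2 * y - 2 * e8) * n := by ring
          rw [e5]
          exact mul_le_mul_of_nonneg_right (by linarith) hn0.le
      _ ≤ _ := by
          refine mul_le_mul (mul_le_mul_of_nonneg_left C1 (Real.exp_pos _).le) h4
            (Real.exp_pos _).le (by positivity)
  have hV : (1 + y * n) * Real.exp (y * n) ≤ ball n t / 2 := by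
    have h2 : 1 + y * n ≤ Real.exp (h δ / 16 * n) := by
      have : y * n ≤ 1 * n := mul_le_mul_of_nonneg_right (by linarith) hn0.le
      linarith
    have h3 : 2 ≤ Real.exp (h δ / 16 * n) := by linarith
    have h4 : (1 + y * n) * Real.exp (y * n) * 2 ≤ Real.exp ((h δ - e8) * n) := by
      calc (1 + y * n) * Real.exp (y * n) * 2 ≤
            Real.exp (h δ / 16 * n) * Real.exp (y * n) * Real.exp (h δ / 16 * n) := by
            refine mul_le_mul ?_ h3 (by norm_num) (by positivity)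
            exact mul_le_mul_of_nonneg_right h2 (Real.exp_pos _).le
        _ = Real.exp ((h δ / 8 + y) * n) := by
            rw [← Real.exp_add, ← Real.exp_add]
            congr 1
            ring
        _ ≤ Real.exp ((h δ - e8) * n) := by
            rw [Real.exp_le_exp]
            exact mul_le_mul_of_nonneg_right (by linarith) hn0.le
    linarith
  obtain ⟨σ, s0, s1, s2, s3⟩ := hg x hx0 hx1
  refine (up hte C3 hs hV s0 s1 s2 hN).trans ?_
  have hD0 : 0 < (ball n t : ℝ) / 2 ^ n := by positivity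
  have hD1 : (ball n t : ℝ) / 2 ^ n ≤ 1 := by
    rw [div_le_one (by positivity)]
    have h2 := Finset.card_le_univ (nb (fun x y : Word n => hammingDist x y ≤ t) univ
      (fun _ => true))
    rw [nb_card t, Fintype.card_fun, Fintype.card_bool, Fintype.card_fin] at h2
    exact_mod_cast h2
  have e1 := er_le B5 s0 (by linarith)
  have e2 : er n σ - (σ - x) * (upc (X1 δ) x + ε) * n ^ 2 ≤ -(γ / 2 * n ^ 2) := by
    have h2 : 14 / γ ≤ n := (le_max_left _ _).trans B3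
    rw [div_le_iff₀ hγ] at h2
    have h3 : γ * n ^ 2 ≤ ((σ - x) * (upc (X1 δ) x + ε) - σ ^ 2 / 2) * n ^ 2 :=
      mul_le_mul_of_nonneg_right s3 (sq_nonneg _)
    nlinarith
  have e3 : (er n σ - (σ - x) * (upc (X1 δ) x + ε) * n ^ 2) / (ball n t / 2 ^ n) ≤
      -(γ / 2 * n ^ 2) := by
    rw [div_le_iff₀ hD0]
    refine e2.trans ?_
    have : 0 ≤ γ / 2 * (n : ℝ) ^ 2 := by positivity
    nlinarith
  refine (Real.exp_le_exp.2 e3).trans ?_
  have h2 : 2 / (γ * ε) ≤ n := (le_max_right _ _).trans B3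
  rw [div_le_iff₀ (by positivity)] at h2
  rw [Real.exp_neg]
  have h3 : 1 / ε ≤ γ / 2 * n ^ 2 := by
    rw [div_le_iff₀ hε]
    nlinarith
  have h4 : 1 / ε ≤ Real.exp (γ / 2 * n ^ 2) := by
    have := Real.add_one_le_exp (γ / 2 * (n : ℝ) ^ 2)
    linarith
  calc (Real.exp (γ / 2 * n ^ 2))⁻¹ ≤ (1 / ε)⁻¹ := inv_anti₀ (by positivity) h4
    _ = ε := by rw [one_div, inv_inv]

end Pool.Agent.U279.GP
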