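import Pool.Agent.U279.GP.CodeLow
import Pool.Agent.U279.GP.CodeUp

/-!
# Codes inside random sets of words: the theorem
-/

set_option autoImplicit false

namespace Pool.Agent.U279.GP

open MeasureTheory Set Finset ProbabilityTheory
open scoped ENNReal NNReal
open Pool.Agent.U180.CG (cl ball_pos X1 X2)
open Pool.Agent.U180.BC (Word ball)

variable {n t N : ℕ}

theorem prob_ge {A : Set (Fin N → Word n)} {ε : ℝ} (h : (law (unif n) N).real Aᶜ ≤ ε) :
    1 - ε ≤ (law (unif n) N).real A := by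
  have h1 := measureReal_union_le (μ := law (unif n) N) A Aᶜ
  rw [Set.union_compl_self, measureReal_def, measure_univ] at h1
  simp only [ENNReal.toReal_one] at h1
  linarith

/-- **The largest code among `N = exp (x n) 2 ^ n / V` random words.** -/
theorem main {δ : ℝ} (h0 : 0 < δ) (h1 : δ < 1 / 2) {ε : ℝ} (hε : 0 < ε) :
    ∃ η : ℝ, 0 < η ∧ ∃ n₀ : ℕ, ∀ n : ℕ, n₀ ≤ n → ∀ t : ℕ, Even t → |(t : ℝ) - δ * n| ≤ η * n →
    ∀ (x : ℝ) (N : ℕ), 0 ≤ x → x ≤ X1 δ - ε → N * (ball n t / 2 ^ n) = Real.exp (x * n) →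
    1 - ε ≤ (law (unif n) N).real {X |
      (min x (X2 δ) - ε) * n ≤ best (cl n t) X * (ball n t / 2 ^ n) ∧
      best (cl n t) X * (ball n t / 2 ^ n) ≤ (upc (X1 δ) x + ε) * n} := by
  obtain ⟨η₁, hη₁, n₁, H1⟩ := up_ev h0 h1 (half_pos hε)
  obtain ⟨η₂, hη₂, n₂, H2⟩ := low_ev h0 h1 (half_pos hε)
  refine ⟨min η₁ η₂, lt_min hη₁ hη₂, max n₁ n₂, fun n hn t hte ht x N hx0 hx1 hN => prob_ge ?_⟩
  have hn0 : (0 : ℝ) ≤ n := Nat.cast_nonneg n
  have e1 := H1 n ((le_max_left _ _).trans hn) t hte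
    (ht.trans (mul_le_mul_of_nonneg_right (min_le_left _ _) hn0)) x N hx0 (by linarith) hN.le
  have e2 := H2 n ((le_max_right _ _).trans hn) t
    (ht.trans (mul_le_mul_of_nonneg_right (min_le_right _ _) hn0)) x N hN.ge
  have hsub : {X : Fin N → Word n | (min x (X2 δ) - ε) * n ≤
      best (cl n t) X * (ball n t / 2 ^ n) ∧
      best (cl n t) X * (ball n t / 2 ^ n) ≤ (upc (X1 δ) x + ε) * n}ᶜ ⊆
      {X | (upc (X1 δ) x + ε / 2) * n ≤ best (cl n t) X * (ball n t / 2 ^ n)} ∪
        {X | best (cl n t) X * (ball n t / 2 ^ n) < (min x (X2 δ) - ε / 2) * n} := by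
    intro X hX
    by_contra hcon
    simp only [Set.mem_union, Set.mem_ofPred_eq, not_or, not_le, not_lt] at hcon
    apply hX
    have h3 : 0 ≤ ε / 2 * n := by positivity
    refine ⟨?_, ?_⟩
    · linarith [hcon.2]
    · linarith [hcon.1]
  refine (measureReal_mono hsub (measure_ne_top _ _)).trans ?_
  refine (measureReal_union_le _ _).trans ?_
  linarith

/-- A code among the words is a family of indices. -/
theorem best_code (X : Fin N → Word n) :
    sSup {k | ∃ C : Finset (Word n), (∀ x ∈ C, ∃ i, X i = x) ∧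
      (∀ x ∈ C, ∀ y ∈ C, x ≠ y → t + 1 ≤ hammingDist x y) ∧ C.card = k} = best (cl n t) X := by
  classical
  unfold best
  congr 1
  ext k
  simp only [Set.mem_ofPred_eq]
  constructor
  · rintro ⟨C, hC1, hC2, rfl⟩
    choose f hf using hC1
    refine ⟨C.attach.image fun x => f x.1 x.2, ?_, ?_⟩
    · intro i hi j hj hij
      obtain ⟨a, -, rfl⟩ := Finset.mem_image.1 hi
      obtain ⟨b, -, rfl⟩ := Finset.mem_image.1 hj
      rw [hf, hf]
      have hab : a.1 ≠ b.1 := by
        intro h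
        apply hij
        have : a = b := Subtype.ext h
        rw [this]
      have := hC2 a.1 a.2 b.1 b.2 hab
      unfold Pool.Agent.U180.CG.cl
      omega
    · rw [Finset.card_image_of_injective, Finset.card_attach]
      intro a b hab
      simp only at hab
      apply Subtype.ext
      rw [← hf a.1 a.2, ← hf b.1 b.2, hab]
  · rintro ⟨s, hs, rfl⟩
    have hne : ∀ i ∈ s, ∀ j ∈ s, i ≠ j → t + 1 ≤ hammingDist (X i) (X j) := by
      intro i hi j hj hij
      have := hs i hi j hj hij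
      unfold Pool.Agent.U180.CG.cl at this
      omega
    refine ⟨s.image X, ?_, ?_, ?_⟩
    · intro x hx
      obtain ⟨i, -, rfl⟩ := Finset.mem_image.1 hx
      exact ⟨i, rfl⟩
    · intro x hx y hy hxy
      obtain ⟨i, hi, rfl⟩ := Finset.mem_image.1 hx
      obtain ⟨j, hj, rfl⟩ := Finset.mem_image.1 hy
      exact hne i hi j hj fun h => hxy (by rw [h])
    · refine Finset.card_image_of_injOn ?_
      intro i hi j hj hij
      by_contra h
      have := hne i hi j hj h
      rw [hij, hammingDist_self] at this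
      omega

end Pool.Agent.U279.GP
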