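import Pool.Agent.U279.GP.Code
import Pool.Agent.U279.GP.Mean

/-!
# Codes inside random sets of words: degrees and locally dense places
-/

set_option autoImplicit false

namespace Pool.Agent.U279.GP

open MeasureTheory Set Finset ProbabilityTheory
open scoped ENNReal NNReal
open Pool.Agent.U180.CG (cl cl_symm cl_refl nb mem_nb nb_card sparse Dl Nk Z Z_pos inds mem_inds
  ball_pos card_word Ind)
open Pool.Agent.U180.BC (Word ball)

variable {n t N m C : ℕ}

theorem msb {N n : ℕ} (A : Set (Fin N → Word n)) : MeasurableSet A := (Set.toFinite A).measurableSet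

theorem msw {n : ℕ} (A : Set (Word n)) : MeasurableSet A := (Set.toFinite A).measurableSet

/-! ### Degrees -/

section deg

variable {E : Word n → Word n → Prop} {v τ : ℝ}

theorem ind_int' (G : Geo (unif n) E v τ) {p : Fin N × Fin N} (hp : p.1 ≠ p.2) :
    ∫ X, ind E N p X ∂(law (unif n) N) = v := by
  unfold ind
  rw [integral_indicator_one (nrE_meas G p), measureReal_def, nrE_one G hp,
    ENNReal.toReal_ofReal G.vpos.le]

theorem ind_cov' (G : Geo (unif n) E v τ) {i j k : Fin N} (hij : i ≠ j) (hik : i ≠ k)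
    (hjk : j ≠ k) : cov[ind E N (i, j), ind E N (i, k); law (unif n) N] = 0 := by
  rw [covariance_eq_sub (ind_memLp G _) (ind_memLp G _), ind_int' G hij, ind_int' G hik]
  have h : ind E N (i, j) * ind E N (i, k) = (nrE E N (i, j) ∩ nrE E N (i, k)).indicator 1 := by
    unfold ind
    rw [Set.inter_indicator_one]
  rw [h, integral_indicator_one ((nrE_meas G _).inter (nrE_meas G _)), measureReal_def,
    nrE_inter G (p := (i, k)) hik _ (nrE_meas G (i, j))
      (nrE_update E (i, j) k hik.symm hjk.symm), nrE_one G (p := (i, j)) hij,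
    ENNReal.toReal_mul, ENNReal.toReal_ofReal G.vpos.le]
  ring

theorem ind_var' (G : Geo (unif n) E v τ) {p : Fin N × Fin N} (hp : p.1 ≠ p.2) :
    Var[ind E N p; law (unif n) N] ≤ v := by
  refine (variance_le_expectation_sq (ind_memLp G p).aestronglyMeasurable).trans (le_of_eq ?_)
  rw [← ind_int' G hp]
  congr 1
  funext X
  unfold ind
  by_cases h : X ∈ nrE E N p
  · simp [Set.indicator_of_mem h]
  · simp [Set.indicator_of_notMem h]

/-- The number of the other points close to the point `i`. -/
noncomputable def dg (E : Word n → Word n → Prop) (X : Fin N → Word n) (i : Fin N) : ℝ :=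
  ∑ j ∈ univ.erase i, ind E N (i, j) X

/-- The degrees are concentrated. -/
theorem deg_prob (G : Geo (unif n) E v τ) {η : ℝ} (hη : 0 < η) (i : Fin N) :
    (law (unif n) N).real {X | (1 + η) * (N * v) ≤ dg E X i} ≤ 1 / (η ^ 2 * (N * v)) := by
  have hv := G.vpos
  have hN : (0 : ℝ) < N := by
    have : 0 < N := Fin.pos i
    exact_mod_cast this
  have hne : ∀ j ∈ (univ : Finset (Fin N)).erase i, i ≠ j := fun j hj =>
    (Finset.ne_of_mem_erase hj).symm
  set W : (Fin N → Word n) → ℝ := fun X => ∑ j ∈ univ.erase i, ind E N (i, j) X with hW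
  have hmem : MemLp W 2 (law (unif n) N) := memLp_finsetSum _ fun p _ => ind_memLp G _
  have hcard : (((univ : Finset (Fin N)).erase i).card : ℝ) ≤ N := by
    have := Finset.card_erase_le (s := (univ : Finset (Fin N))) (a := i)
    rw [Finset.card_univ, Fintype.card_fin] at this
    exact_mod_cast this
  have hint : ∫ X, W X ∂(law (unif n) N) ≤ N * v := by
    rw [hW, integral_finsetSum _ fun p _ => (ind_memLp G _).integrable one_le_two,
      Finset.sum_congr rfl fun j hj => ind_int' G (p := (i, j)) (hne j hj), Finset.sum_const,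
      nsmul_eq_mul]
    exact mul_le_mul_of_nonneg_right hcard hv.le
  have hvar : Var[W; law (unif n) N] ≤ N * v := by
    rw [hW, variance_fun_sum' fun p _ => ind_memLp G _]
    have h1 : ∀ j ∈ univ.erase i, ∑ k ∈ univ.erase i,
        cov[ind E N (i, j), ind E N (i, k); law (unif n) N] ≤ v := by
      intro j hj
      rw [Finset.sum_eq_single_of_mem j hj fun k hk hkj =>
        ind_cov' G (hne j hj) (hne k hk) hkj.symm,
        covariance_self (ind_memLp G _).aemeasurable]
      exact ind_var' G (p := (i, j)) (hne j hj)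
    refine (Finset.sum_le_sum h1).trans ?_
    rw [Finset.sum_const, nsmul_eq_mul]
    exact mul_le_mul_of_nonneg_right hcard hv.le
  have hc : 0 < η * (N * v) := by positivity
  have h := meas_ge_le_variance_div_sq hmem hc
  have hsub : {X | (1 + η) * (N * v) ≤ W X} ⊆
      {X | η * (N * v) ≤ |W X - ∫ X, W X ∂(law (unif n) N)|} := by
    intro X hX
    simp only [Set.mem_ofPred_eq] at hX ⊢
    refine le_trans ?_ (le_abs_self _)
    linarith
  have h2 := (measure_mono hsub).trans h
  have h3 := ENNReal.toReal_mono ENNReal.ofReal_ne_top h2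
  have h0 : 0 ≤ Var[W; law (unif n) N] / (η * (N * v)) ^ 2 :=
    div_nonneg (variance_nonneg _ _) (sq_nonneg _)
  rw [ENNReal.toReal_ofReal h0] at h3
  refine h3.trans ?_
  rw [div_le_div_iff₀ (by positivity) (by positivity)]
  have h4 := mul_le_mul_of_nonneg_right hvar
    (show 0 ≤ η ^ 2 * (N * v) by positivity)
  refine h4.trans (le_of_eq ?_)
  ring

end deg

/-! ### Locally dense places -/

/-- One more coordinate. -/
theorem meas_insert (A : Set (Fin N → Word n)) (v : Fin N) (F : (Fin N → Word n) → Set (Word n))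
    (hA : ∀ X t, Function.update X v t ∈ A ↔ X ∈ A) (hF : ∀ X t, F (Function.update X v t) = F X)
    (p : ℝ≥0∞) (hp : ∀ X ∈ A, unif n (F X) ≤ p) :
    law (unif n) N (A ∩ {X | X v ∈ F X}) ≤ law (unif n) N A * p := by
  have hB := msb (A ∩ {X | X v ∈ F X})
  rw [← lintegral_indicator_one hB, lint_resample (unif n) v _ (measurable_one.indicator hB),
    ← lintegral_indicator_one (msb A),
    ← lintegral_mul_const _ (measurable_one.indicator (msb A))]
  refine lintegral_mono fun X => ?_
  by_cases hX : X ∈ A
  · have h1 : ∀ t, (A ∩ {X : Fin N → Word n | X v ∈ F X}).indicator 1 (Function.update X v t) =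
        (F X).indicator (1 : Word n → ℝ≥0∞) t := by
      intro t
      by_cases ht : t ∈ F X
      · rw [Set.indicator_of_mem, Set.indicator_of_mem ht]
        · rfl
        · refine ⟨(hA X t).2 hX, ?_⟩
          simp only [Set.mem_ofPred_eq, Function.update_self, hF]
          exact ht
      · rw [Set.indicator_of_notMem, Set.indicator_of_notMem ht]
        rintro ⟨-, h⟩
        apply ht
        simpa only [Set.mem_ofPred_eq, Function.update_self, hF] using h
    simp only
    rw [lintegral_congr h1, lintegral_indicator_one (msw _), Set.indicator_of_mem hX]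
    simpa using hp X hX
  · have h1 : ∀ t, (A ∩ {X : Fin N → Word n | X v ∈ F X}).indicator 1 (Function.update X v t) =
        (0 : ℝ≥0∞) := by
      intro t
      rw [Set.indicator_of_notMem]
      rintro ⟨h, -⟩
      exact hX ((hA X t).1 h)
    simp only
    rw [lintegral_congr h1]
    simp

/-- Many coordinates. -/
theorem meas_many (A : Set (Fin N → Word n)) (F : (Fin N → Word n) → Set (Word n)) (p : ℝ≥0∞)
    (hp : ∀ X ∈ A, unif n (F X) ≤ p) (s : Finset (Fin N))
    (hA : ∀ v ∈ s, ∀ X t, Function.update X v t ∈ A ↔ X ∈ A)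
    (hF : ∀ v ∈ s, ∀ X t, F (Function.update X v t) = F X) :
    law (unif n) N (A ∩ {X | ∀ v ∈ s, X v ∈ F X}) ≤ law (unif n) N A * p ^ s.card := by
  classical
  induction s using Finset.induction_on with
  | empty => simp
  | insert v s hv ih =>
    have h1 := ih (fun u hu => hA u (Finset.mem_insert_of_mem hu))
      (fun u hu => hF u (Finset.mem_insert_of_mem hu))
    have h2 : A ∩ {X | ∀ u ∈ insert v s, X u ∈ F X} =
        (A ∩ {X | ∀ u ∈ s, X u ∈ F X}) ∩ {X | X v ∈ F X} := by
      ext X
      simp only [Set.mem_inter_iff, Set.mem_ofPred_eq, Finset.forall_mem_insert]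
      tauto
    have hFv := hF v (Finset.mem_insert_self v s)
    have hAv := hA v (Finset.mem_insert_self v s)
    rw [h2, Finset.card_insert_of_notMem hv, pow_succ, ← mul_assoc]
    refine (meas_insert _ v F ?_ hFv p fun X hX => hp X hX.1).trans ?_
    · intro X t
      simp only [Set.mem_inter_iff, Set.mem_ofPred_eq, hFv, hAv]
      refine and_congr_right fun _ => forall₂_congr fun u hu => ?_
      rw [Function.update_of_ne]
      rintro rfl
      exact hv hu
    · exact mul_le_mul_left h1 p

/-- The words close to `x` and `u` which are not farther from `x` than `u`. -/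
def Wr (n t : ℕ) (x u : Word n) : Set (Word n) :=
  {y | cl n t x y ∧ cl n t u y ∧ hammingDist x y ≤ hammingDist x u}

theorem Wr_le (htn : t ≤ n) {z : ℝ} (hz : 0 < z) (hz1 : z ≤ 1) {x u : Word n}
    (hu : cl n t x u) : unif n (Wr n t x u) ≤ ENNReal.ofReal (Dl n t z / 2 ^ n) := by
  classical
  unfold Wr
  rw [unif_set]
  refine ENNReal.ofReal_le_ofReal (div_le_div_of_nonneg_right ?_ (by positivity))
  refine le_trans (le_of_eq ?_) (sparse htn hz hz1 x u (mem_nb.2 ⟨Finset.mem_univ _, hu⟩))
  norm_cast
  congr 1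
  ext y
  simp only [Finset.mem_filter, Finset.mem_univ, true_and, mem_nb]
  rfl

/-- The point `i` is in a locally dense place. -/
def Dn (n t C : ℕ) (X : Fin N → Word n) (i : Fin N) : Prop :=
  ∃ j : Fin N, cl n t (X i) (X j) ∧ ∃ s : Finset (Fin N), s.card = C ∧ i ∉ s ∧ j ∉ s ∧
    ∀ v ∈ s, X v ∈ Wr n t (X i) (X j)

theorem Dn_prob (htn : t ≤ n) {z : ℝ} (hz : 0 < z) (hz1 : z ≤ 1) (C : ℕ) (i : Fin N) :
    (law (unif n) N).real {X | Dn n t C X i} ≤
      (1 + N * (ball n t / 2 ^ n)) * (N * (Dl n t z / 2 ^ n)) ^ C := by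
  classical
  have G := geo htn hz hz1
  have hb := ball_pos n t
  have hD0 : 0 ≤ Dl n t z := by
    unfold Dl
    positivity
  obtain ⟨p, hp⟩ : ∃ p : ℝ, p = Dl n t z / 2 ^ n := ⟨_, rfl⟩
  obtain ⟨v, hv⟩ : ∃ v : ℝ, v = ball n t / 2 ^ n := ⟨_, rfl⟩
  have hp0 : 0 ≤ p := by rw [hp]; positivity
  have hv0 : 0 ≤ v := by rw [hv]; positivity
  rw [← hp, ← hv]
  -- one configuration
  have h1 : ∀ (j : Fin N) (s : Finset (Fin N)), s.card = C → i ∉ s → j ∉ s →
      (law (unif n) N).real ({X | cl n t (X i) (X j)} ∩ {X | ∀ u ∈ s, X u ∈ Wr n t (X i) (X j)}) ≤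
        (if j = i then 1 else v) * p ^ C := by
    intro j s hs hi hj
    have h2 := meas_many {X : Fin N → Word n | cl n t (X i) (X j)}
      (fun X => Wr n t (X i) (X j)) (ENNReal.ofReal p) (fun X hX => by
        rw [hp]
        exact Wr_le htn hz hz1 hX) s (by
        intro u hu X t'
        have e1 : u ≠ i := fun h => hi (h ▸ hu)
        have e2 : u ≠ j := fun h => hj (h ▸ hu)
        simp only [Set.mem_ofPred_eq, Function.update_of_ne e1.symm, Function.update_of_ne e2.symm])
      (by
        intro u hu X t'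
        have e1 : u ≠ i := fun h => hi (h ▸ hu)
        have e2 : u ≠ j := fun h => hj (h ▸ hu)
        simp only [Function.update_of_ne e1.symm, Function.update_of_ne e2.symm])
    have h3 : law (unif n) N {X : Fin N → Word n | cl n t (X i) (X j)} ≤
        ENNReal.ofReal (if j = i then 1 else v) := by
      split_ifs with h
      · rw [ENNReal.ofReal_one]
        exact prob_le_one
      · rw [hv]
        exact (nrE_one G (p := (i, j)) (fun h' => h h'.symm)).le
    have h4 := h2.trans (mul_le_mul_left h3 _)
    rw [hs, ← ENNReal.ofReal_pow hp0, ← ENNReal.ofReal_mul (by split_ifs <;> linarith)] at h4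
    have h5 := ENNReal.toReal_mono ENNReal.ofReal_ne_top h4
    rwa [ENNReal.toReal_ofReal (by split_ifs <;> positivity)] at h5
  have hsub : {X : Fin N → Word n | Dn n t C X i} ⊆
      ⋃ j ∈ (univ : Finset (Fin N)), ⋃ s ∈ ((univ : Finset (Fin N)).powersetCard C).filter
        (fun s => i ∉ s ∧ j ∉ s),
        ({X | cl n t (X i) (X j)} ∩ {X | ∀ u ∈ s, X u ∈ Wr n t (X i) (X j)}) := by
    rintro X ⟨j, hj, s, hs, his, hjs, hX⟩
    refine Set.mem_biUnion (Finset.mem_univ j) ?_
    refine Set.mem_biUnion (Finset.mem_filter.2 ⟨Finset.mem_powersetCard.2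
      ⟨Finset.subset_univ s, hs⟩, his, hjs⟩) ⟨hj, hX⟩
  refine (measureReal_mono hsub (measure_ne_top _ _)).trans ?_
  refine (measureReal_biUnion_finset_le _ _).trans ?_
  have h6 : ∀ j ∈ (univ : Finset (Fin N)), (law (unif n) N).real
      (⋃ s ∈ ((univ : Finset (Fin N)).powersetCard C).filter (fun s => i ∉ s ∧ j ∉ s),
        ({X | cl n t (X i) (X j)} ∩ {X | ∀ u ∈ s, X u ∈ Wr n t (X i) (X j)})) ≤
      (if j = i then 1 else v) * (N * p) ^ C := by
    intro j _
    refine (measureReal_biUnion_finset_le _ _).trans ?_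
    refine (Finset.sum_le_sum (g := fun _ => (if j = i then 1 else v) * p ^ C)
      fun s hs => ?_).trans ?_
    · rw [Finset.mem_filter, Finset.mem_powersetCard] at hs
      exact h1 j s hs.1.2 hs.2.1 hs.2.2
    · rw [Finset.sum_const, nsmul_eq_mul]
      have h7 : ((((univ : Finset (Fin N)).powersetCard C).filter
          (fun s => i ∉ s ∧ j ∉ s)).card : ℝ) ≤ N ^ C := by
        have e1 := Finset.card_filter_le ((univ : Finset (Fin N)).powersetCard C)
          (fun s => i ∉ s ∧ j ∉ s)
        rw [Finset.card_powersetCard, Finset.card_univ, Fintype.card_fin] at e1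
        exact_mod_cast e1.trans (Nat.choose_le_pow N C)
      have h8 : 0 ≤ (if j = i then 1 else v) * p ^ C := by split_ifs <;> positivity
      refine (mul_le_mul_of_nonneg_right h7 h8).trans (le_of_eq ?_)
      rw [mul_pow]
      ring
  refine (Finset.sum_le_sum h6).trans ?_
  rw [← Finset.sum_mul]
  refine mul_le_mul_of_nonneg_right ?_ (by positivity)
  rw [← Finset.add_sum_erase univ _ (Finset.mem_univ i), if_pos rfl]
  refine add_le_add le_rfl ?_
  refine (Finset.sum_le_sum (g := fun _ => v) fun j hj => ?_).trans ?_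
  · rw [if_neg (Finset.ne_of_mem_erase hj)]
  · rw [Finset.sum_const, nsmul_eq_mul]
    refine mul_le_mul_of_nonneg_right ?_ hv0
    have := Finset.card_erase_le (s := (univ : Finset (Fin N))) (a := i)
    rw [Finset.card_univ, Fintype.card_fin] at this
    exact_mod_cast this

end Pool.Agent.U279.GP
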