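import Pool.Agent.U279.GP.CntK
import Pool.Agent.U279.PR.Up

/-!
# The probability that uniform points of the torus form a packing
-/

set_option autoImplicit false

namespace Pool.Agent.U279.GP

open MeasureTheory Set Finset Filter Topology
open Pool.Agent.N549.HG
open Pool.Agent.U279.PR (y0 y0_pos y0_lt)

/-- The partition function bounds the probability. -/
theorem log_conf_le {n k : ℕ} {r lam : ℝ} (hl : 0 < lam) (h : 0 < conf n r k) :
    Real.log (conf n r k) ≤ k * Real.log k - k * Real.log lam + Real.log (Zr n r lam) := by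
  have h1 : lam ^ k / k.factorial * conf n r k ≤ Zr n r lam := by
    unfold Zr
    exact (summable_Z lam hl.le).le_tsum k fun k _ => mul_nonneg (by positivity) (conf_nonneg k)
  have hf0 : (0 : ℝ) < k.factorial := by exact_mod_cast Nat.factorial_pos k
  have hf : Real.log (k.factorial : ℝ) ≤ k * Real.log k := by
    rw [← Real.log_pow]
    refine Real.log_le_log hf0 ?_
    exact_mod_cast Nat.factorial_le_pow k
  have h2 := Real.log_le_log (by positivity) h1
  rw [Real.log_mul (by positivity) h.ne', Real.log_div (by positivity) hf0.ne', Real.log_pow] at h2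
  linarith

theorem conf_small {n k : ℕ} {r y U : ℝ} (hn : 1 ≤ n) (hr : 0 < r) (hr2 : r ≤ 1 / 2)
    (hkap : kap n * Real.exp (y * n) ≤ 1) (hU0 : 0 < U) (hU : k * ballVol n r = U * n)
    (hUy : U ≤ y) (h : 0 < conf n r k) :
    Real.log (conf n r k) ≤ -(k * (U / 2 * n - 2)) := by
  have hD := ballVol_pos (n := n) hr
  have hn0 : (0 : ℝ) < n := by exact_mod_cast hn
  have hk0 : 0 < k := by
    rcases Nat.eq_zero_or_pos k with rfl | hk
    · rw [Nat.cast_zero, zero_mul] at hU
      have : 0 < U * n := by positivity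
      linarith
    · exact hk
  have hkR : (0 : ℝ) < k := by exact_mod_cast hk0
  obtain ⟨s, hs⟩ : ∃ s, s = U * n := ⟨_, rfl⟩
  rw [← hs] at hU
  have hs0 : 0 < s := by rw [hs]; positivity
  have hsy : s ≤ y * n := by
    rw [hs]
    exact mul_le_mul_of_nonneg_right hUy hn0.le
  have h2 := pressure_le cont2 hn hr hr2 s hs0
  have hact : act n r s = s * Real.exp s / ballVol n r := by
    unfold act
    rfl
  rw [hact] at h2
  have h3 := log_conf_le (n := n) (k := k) (r := r) (lam := s * Real.exp s / ballVol n r)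
    (by positivity) h
  rw [Real.log_div (by positivity) hD.ne', Real.log_mul hs0.ne' (Real.exp_pos _).ne',
    Real.log_exp] at h3
  have h4 : kap n * (s * Real.exp s) ≤ s := by
    have h5 : kap n * Real.exp s ≤ 1 :=
      (mul_le_mul_of_nonneg_left (Real.exp_le_exp.2 hsy) (kap_nonneg n)).trans hkap
    calc kap n * (s * Real.exp s) = s * (kap n * Real.exp s) := by ring
      _ ≤ s * 1 := mul_le_mul_of_nonneg_left h5 hs0.le
      _ = s := mul_one s
  have h5 : Real.log (Zr n r (s * Real.exp s / ballVol n r)) ≤ k * (2 + s / 2) := by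
    have e1 : ballVol n r = s / k := by
      rw [← hU]
      field_simp
    have h6 : ballVol n r * Real.log (Zr n r (s * Real.exp s / ballVol n r)) ≤
        s / k * (k * (2 + s / 2)) := by
      refine h2.trans ?_
      have e2 : s / k * (k * (2 + s / 2)) = 2 * s + s ^ 2 / 2 := by
        field_simp
      rw [e2]
      linarith
    rw [← e1] at h6
    exact le_of_mul_le_mul_left h6 hD
  have hlu : Real.log k + Real.log (ballVol n r) = Real.log s := by
    rw [← hU, Real.log_mul hkR.ne' hD.ne']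
  have h9 : (k : ℝ) * Real.log k - k * (Real.log s + s - Real.log (ballVol n r)) = -(k * s) := by
    rw [← hlu]
    ring
  have e6 : -((k : ℝ) * (U / 2 * n - 2)) = -(k * s) + k * (2 + s / 2) := by
    rw [hs]
    ring
  rw [e6]
  linarith

theorem conf_large {n k : ℕ} {r y U : ℝ} (hn : 4 ≤ n) (hr : 0 < r) (hr2 : r ≤ 1 / 2)
    (hkap : kap n * Real.exp (y * n) ≤ 1) (hy : 0 < y) (hy1 : y ≤ 1)
    (hXn : 1 ≤ Real.exp (y * n) * y) (hU : k * ballVol n r = U * n)
    (hyU : y ≤ U) (h : 0 < conf n r k) :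
    Real.log (conf n r k) ≤ -(k * (y * n - y ^ 2 * n / (2 * U) - Real.log n -
      (3 + (4 + Real.log y ^ 2 / y) + 3 / y))) := by
  have hD := ballVol_pos (n := n) hr
  have hnR : (4 : ℝ) ≤ n := by exact_mod_cast hn
  have hn0 : (0 : ℝ) < n := by linarith
  have hU0 : 0 < U := by linarith
  have hk0 : 0 < k := by
    rcases Nat.eq_zero_or_pos k with rfl | hk
    · rw [Nat.cast_zero, zero_mul] at hU
      have : 0 < U * n := by positivity
      linarith
    · exact hk
  have hkR : (0 : ℝ) < k := by exact_mod_cast hk0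
  obtain ⟨a, ha⟩ : ∃ a, a = Real.exp (y * n) * U := ⟨_, rfl⟩
  have ha0 : 0 < a := by rw [ha]; positivity
  have ha1 : 1 ≤ a := by
    rw [ha]
    exact hXn.trans (mul_le_mul_of_nonneg_left hyU (Real.exp_pos _).le)
  obtain ⟨w, hw0, he⟩ := Pool.Agent.N549.HG.exists_W a ha0
  obtain ⟨L, hL⟩ : ∃ L, L = Real.log U := ⟨_, rfl⟩
  obtain ⟨s, hs'⟩ : ∃ s, s = y * n + L := ⟨_, rfl⟩
  have hloga : Real.log a = s := by
    rw [ha, Real.log_mul (Real.exp_pos _).ne' hU0.ne', Real.log_exp, hs', hL]
  have hs0 : 0 ≤ s := by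
    rw [← hloga]
    exact Real.log_nonneg ha1
  have hws : w ≤ 1 + s := by
    by_contra hcon
    push Not at hcon
    have h4 : a < w * Real.exp w := by
      calc a = 1 * Real.exp s := by rw [← hloga, Real.exp_log ha0, one_mul]
        _ < w * Real.exp w :=
            mul_lt_mul'' (by linarith) (Real.exp_lt_exp.2 (by linarith)) zero_le_one
              (Real.exp_pos _).le
    linarith
  have h2 := pressure_le cont2 (by omega : 1 ≤ n) hr hr2 w hw0
  have hact : act n r w = a / ballVol n r := by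
    unfold act
    rw [he]
  rw [hact, he] at h2
  have h3 := log_conf_le (n := n) (k := k) (r := r) (lam := a / ballVol n r) (by positivity) h
  rw [Real.log_div ha0.ne' hD.ne', hloga] at h3
  have h4 : kap n * a ≤ 4 * U := by
    have : kap n * a = kap n * Real.exp (y * n) * U := by rw [ha]; ring
    rw [this]
    have := mul_le_mul_of_nonneg_right hkap hU0.le
    linarith
  have hLU : L ≤ U := by
    rw [hL]
    linarith [Real.log_le_sub_one_of_pos hU0]
  have hK := sq_log_le hy hyU
  rw [← hL] at hK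
  obtain ⟨K, hKd⟩ : ∃ K, K = 4 + Real.log y ^ 2 / y := ⟨_, rfl⟩
  rw [← hKd] at hK ⊢
  have hK0 : 0 ≤ K := by rw [hKd]; positivity
  have h7 : w + w ^ 2 / 2 + 4 * U ≤ y ^ 2 * n ^ 2 / 2 + (3 + K + 3 / y) * (U * n) :=
    arith hnR hU0 hy hy1 hy hyU hLU hK hK0 hs' hw0.le hws
  have h5 : Real.log (Zr n r (a / ballVol n r)) ≤
      k * (y ^ 2 * n / (2 * U) + (3 + K + 3 / y)) := by
    have e1 : ballVol n r = U * n / k := by
      rw [← hU]
      field_simp
    have h6 : ballVol n r * Real.log (Zr n r (a / ballVol n r)) ≤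
        U * n / k * (k * (y ^ 2 * n / (2 * U) + (3 + K + 3 / y))) := by
      refine h2.trans ?_
      have e2 : U * n / k * (k * (y ^ 2 * n / (2 * U) + (3 + K + 3 / y))) =
          y ^ 2 * n ^ 2 / 2 + (3 + K + 3 / y) * (U * n) := by
        field_simp
      rw [e2]
      linarith
    rw [← e1] at h6
    exact le_of_mul_le_mul_left h6 hD
  have hlu : Real.log k + Real.log (ballVol n r) = L + Real.log n := by
    have := congrArg Real.log hU
    rw [Real.log_mul hkR.ne' hD.ne', Real.log_mul hU0.ne' hn0.ne'] at this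
    rw [hL]
    linarith
  have h9 : (k : ℝ) * Real.log k - k * (s - Real.log (ballVol n r)) =
      k * Real.log n - k * (y * n) := by
    have : Real.log k = L + Real.log n - Real.log (ballVol n r) := by linarith
    rw [this, hs']
    ring
  have e6 : -((k : ℝ) * (y * n - y ^ 2 * n / (2 * U) - Real.log n - (3 + K + 3 / y))) =
      k * Real.log n - k * (y * n) + k * (y ^ 2 * n / (2 * U) + (3 + K + 3 / y)) := by
    ring
  rw [e6]
  linarith

/-- The probability that `k` uniform points of the torus form a packing, for all `k`. -/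
theorem conf_ev {ε : ℝ} (hε : 0 < ε) : ∃ n₀ : ℕ, ∀ n : ℕ, n₀ ≤ n → ∀ r : ℝ, 0 < r → r ≤ 1 / 2 →
    ∀ (k : ℕ) (U : ℝ), k * ballVol n r = U * n →
      conf n r k ≤ Real.exp (-((ex y0 U - ε) * n * k)) := by
  have hX := y0_pos
  have hX1 := y0_lt
  obtain ⟨θ, hθ⟩ : ∃ θ, θ = min (ε / 2) (y0 / 2) := ⟨_, rfl⟩
  have hθ0 : 0 < θ := by rw [hθ]; exact lt_min (by linarith) (by linarith)
  have hθ1 : θ ≤ ε / 2 := hθ ▸ min_le_left _ _
  have hθ2 : θ ≤ y0 / 2 := hθ ▸ min_le_right _ _
  obtain ⟨y, hy⟩ : ∃ y, y = y0 - θ := ⟨_, rfl⟩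
  have hyp : 0 < y := by linarith
  obtain ⟨C, hC⟩ : ∃ C, C = 3 + (4 + Real.log y ^ 2 / y) + 3 / y := ⟨_, rfl⟩
  have A3 : ∀ᶠ n : ℕ in atTop, max (C / (ε / 8)) (1 / (y * y)) ≤ (n : ℝ) :=
    tendsto_natCast_atTop_atTop.eventually_ge_atTop _
  have A4 : ∀ᶠ n : ℕ in atTop, Real.log n ≤ ε / 8 * n := by
    have h2 := Real.isLittleO_log_id_atTop.bound (show 0 < ε / 8 by positivity)
    filter_upwards [tendsto_natCast_atTop_atTop.eventually h2, eventually_ge_atTop 1] with n h3 hn
    have hnR : (1 : ℝ) ≤ n := by exact_mod_cast hn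
    rw [id, Real.norm_of_nonneg (Real.log_nonneg hnR), Real.norm_of_nonneg (by linarith)] at h3
    exact h3
  obtain ⟨n₀, hn₀⟩ := eventually_atTop.1 ((A3.and A4).and
    ((Pool.Agent.U180.CG.poly_small (ε := θ / 4) (by linarith)).and (eventually_ge_atTop 4)))
  refine ⟨n₀, fun n hn r hr hr2 k U hU => ?_⟩
  obtain ⟨⟨B3, B3'⟩, B4, B5⟩ := hn₀ n hn
  have hnR : (4 : ℝ) ≤ n := by exact_mod_cast B5
  have hn0 : (0 : ℝ) < n := by linarith
  have hD := ballVol_pos (n := n) hr
  have hkap : kap n * Real.exp (y * n) ≤ 1 := by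
    have h2 : Real.pi * (n + 1) ≤ Real.exp (θ * n) := by
      have h3 : 1 + (n : ℝ) ≤ Real.exp (θ / 4 * n) := by linarith
      have h4 : 4 ≤ Real.exp (θ / 4 * n) := by linarith
      have e1 : Real.exp (θ * n) = Real.exp (θ / 4 * n) * Real.exp (θ / 4 * n) *
          (Real.exp (θ / 4 * n) * Real.exp (θ / 4 * n)) := by
        rw [← Real.exp_add, ← Real.exp_add]
        congr 1
        ring
      rw [e1]
      have h5 := Real.pi_lt_d2
      have h6 : Real.pi * (n + 1) ≤ Real.exp (θ / 4 * n) * Real.exp (θ / 4 * n) :=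
        mul_le_mul (by linarith) (by linarith) (by positivity) (Real.exp_pos _).le
      have h7 : 1 ≤ Real.exp (θ / 4 * n) * Real.exp (θ / 4 * n) := by nlinarith
      nlinarith [Real.exp_pos (θ / 4 * n)]
    unfold kap
    have e2 : Real.exp (-((1 - Real.log 2) / 2) * n) * Real.exp (y * n) =
        Real.exp (-(θ * n)) := by
      rw [← Real.exp_add]
      congr 1
      rw [hy]
      unfold y0
      ring
    calc Real.pi * (n + 1) * Real.exp (-((1 - Real.log 2) / 2) * n) * Real.exp (y * n)
        = Real.pi * (n + 1) *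
          (Real.exp (-((1 - Real.log 2) / 2) * n) * Real.exp (y * n)) := by ring
      _ ≤ Real.exp (θ * n) * Real.exp (-(θ * n)) := by
          rw [e2]
          exact mul_le_mul_of_nonneg_right h2 (Real.exp_pos _).le
      _ = 1 := by
          rw [← Real.exp_add]
          simp
  have hXn : 1 ≤ Real.exp (y * n) * y := by
    have h2 : 1 / (y * y) ≤ n := (le_max_right _ _).trans B3
    rw [div_le_iff₀ (by positivity)] at h2
    have h3 := Real.add_one_le_exp (y * n)
    have h4 : y * n * y ≤ Real.exp (y * n) * y :=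
      mul_le_mul_of_nonneg_right (by linarith) hyp.le
    nlinarith
  rcases (conf_nonneg (n := n) (r := r) k).eq_or_lt with hz | hz
  · rw [← hz]
    exact (Real.exp_pos _).le
  rcases Nat.eq_zero_or_pos k with rfl | hk
  · rw [Nat.cast_zero, mul_zero, neg_zero, Real.exp_zero]
    exact conf_le_one 0
  have hkR : (0 : ℝ) < k := by exact_mod_cast hk
  have hU0 : 0 < U := by
    have h2 : 0 < U * n := by
      rw [← hU]
      positivity
    exact pos_of_mul_pos_left h2 hn0.le
  rw [← Real.log_le_iff_le_exp hz]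
  have hC0 : 7 ≤ C := by
    have h2 : 0 ≤ Real.log y ^ 2 / y := by positivity
    have h3 : 0 ≤ 3 / y := by positivity
    rw [hC]
    linarith
  have h3 : C ≤ ε / 8 * n := by
    have h4 : C / (ε / 8) ≤ n := (le_max_left _ _).trans B3
    rw [div_le_iff₀ (by positivity)] at h4
    linarith
  have key : ∀ A : ℝ, Real.log (conf n r k) ≤ -(k * A) → (ex y0 U - ε) * n ≤ A →
      Real.log (conf n r k) ≤ -((ex y0 U - ε) * n * k) := by
    intro A hA hA2
    refine hA.trans (neg_le_neg ?_)
    rw [mul_comm]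
    exact mul_le_mul_of_nonneg_left hA2 hkR.le
  rcases le_total U y with hUy | hUy
  · refine key _ (conf_small (by omega) hr hr2 hkap hU0 hU hUy hz) ?_
    unfold ex
    rw [if_pos (by linarith)]
    have : 0 ≤ ε * n := by positivity
    linarith
  · have h2 := conf_large B5 hr hr2 hkap hyp (by linarith) hXn hU hUy hz
    rw [← hC] at h2
    refine key _ h2 ?_
    have e1 : y * n - y ^ 2 * n / (2 * U) = (y - y ^ 2 / (2 * U)) * n := by ring
    rw [e1]
    have h5 : ex y0 U - ε / 2 ≤ y - y ^ 2 / (2 * U) := ex_le hX hθ0 hθ1 hθ2 hy hUy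
    have h6 := mul_le_mul_of_nonneg_right h5 hn0.le
    have h7 : 0 ≤ ε * n := by positivity
    have e2 : (ex y0 U - ε) * n = (ex y0 U - ε / 2) * n - ε / 2 * n := by ring
    rw [e2]
    linarith

end Pool.Agent.U279.GP
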