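import Pool.Agent.U279.GP.Sph
import Pool.Agent.N549.HG.Thermo2
import Pool.Agent.N55.HG.Reg

/-!
# Large deviations of the number of spheres, for every density
-/

set_option autoImplicit false

namespace Pool.Agent.U279.GP

open MeasureTheory Set Finset Filter Topology
open Pool.Agent.N549.HG
open Pool.Agent.U279.PR (y0 y0_pos y0_lt)

theorem ex_ge {X w z : ℝ} (_hw : 0 ≤ w) (hwX : w ≤ X) (hz : 0 < z) :
    w - w ^ 2 / (2 * z) ≤ ex X z := by
  unfold ex
  split_ifs with h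
  · have e : z / 2 - (w - w ^ 2 / (2 * z)) = (z - w) ^ 2 / (2 * z) := by
      field_simp
      ring
    have : 0 ≤ (z - w) ^ 2 / (2 * z) := by positivity
    linarith
  · push Not at h
    have e : X - X ^ 2 / (2 * z) - (w - w ^ 2 / (2 * z)) =
        (X - w) * (2 * z - X - w) / (2 * z) := by
      field_simp
      ring
    have : 0 ≤ (X - w) * (2 * z - X - w) / (2 * z) :=
      div_nonneg (mul_nonneg (by linarith) (by linarith)) (by linarith)
    linarith

theorem ex_eq_min {X y : ℝ} (hy : 0 < y) : ex X y = min y X - min y X ^ 2 / (2 * y) := by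
  unfold ex
  split_ifs with h
  · rw [min_eq_left h]
    field_simp
    ring
  · rw [min_eq_right (le_of_not_ge h)]

theorem ex_le_X {X y : ℝ} (hy : 0 < y) : ex X y ≤ X := by
  rw [ex_eq_min hy]
  have : 0 ≤ min y X ^ 2 / (2 * y) := by positivity
  linarith [min_le_right y X]

theorem ex_scale {X y q : ℝ} (hX : 0 < X) (hy : 0 < y) (hq : 1 ≤ q) :
    ex X y ≤ ex X (y / q) + (q - 1) * X := by
  have hq0 : 0 < q := by linarith
  have hm : 0 < min y X := lt_min hy hX
  have h1 : min y X / q - (min y X / q) ^ 2 / (2 * (y / q)) ≤ ex X (y / q) := by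
    refine ex_ge (by positivity) ?_ (by positivity)
    exact (div_le_self hm.le hq).trans (min_le_right _ _)
  have h2 : min y X / q - (min y X / q) ^ 2 / (2 * (y / q)) = ex X y / q := by
    rw [ex_eq_min hy]
    field_simp
  rw [h2, div_le_iff₀ hq0] at h1
  have h3 : ex X (y / q) ≤ X := ex_le_X (by positivity)
  have h4 : (q - 1) * ex X (y / q) ≤ (q - 1) * X :=
    mul_le_mul_of_nonneg_left h3 (by linarith)
  linarith

/-- The weight of the configurations with `k` spheres. -/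
theorem weight_le {d k : ℕ} {b L s ε₁ : ℝ} {R : Set (Fin d → ℝ)} (hd : 1 ≤ d) (hb : 0 < b)
    (hL : 2 * b < L) (hR : MeasurableSet R) (hR1 : ∀ x, (∀ m, x m ∈ Icc b (L - b)) → x ∈ R)
    (hR2 : ∀ x ∈ R, ∀ m, x m ∈ Icc (0 : ℝ) L) (hs : 0 < s) (hk : 1 ≤ k)
    (hconf : conf d (b / (L + b)) k ≤
      Real.exp (-((ex y0 (k * ballVol d (b / (L + b)) / d) - ε₁) * d * k))) :
    (s * Real.exp s / ballVol d b) ^ k / k.factorial * regVol d b R k ≤
      Real.exp (k * (Real.log s - Real.log (k * ballVol d (b / (L + b))) + 1 + s -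
        (ex y0 (k * ballVol d (b / (L + b)) / d) - ε₁) * d)) := by
  have hV := ballVol_pos (n := d) hb
  have hLb : 0 < L + b := by linarith
  have hk0 : (0 : ℝ) < k := by exact_mod_cast hk
  have hbd := (reg_bounds Pool.Agent.N55.HG.reg hd hb hL hR hR1 hR2 k).2
  have u2 := Pool.Agent.N424.HG.log_fact_low k hk
  have hf0 : (0 : ℝ) < k.factorial := by exact_mod_cast Nat.factorial_pos k
  have h1 : (k.factorial : ℝ)⁻¹ ≤ Real.exp (-(k * Real.log k - k)) := by
    rw [Real.exp_neg]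
    refine inv_anti₀ (Real.exp_pos _) ?_
    rw [← Real.le_log_iff_exp_le hf0]
    exact u2
  have h2 : (L + b) ^ (d * k) = Real.exp (d * k * Real.log (L + b)) := by
    have : ((d : ℝ) * k) = ((d * k : ℕ) : ℝ) := by push_cast; ring
    rw [this, Real.exp_nat_mul, Real.exp_log hLb]
  have h3 : (s * Real.exp s / ballVol d b) ^ k =
      Real.exp (k * (Real.log s + s - Real.log (ballVol d b))) := by
    rw [Real.exp_nat_mul, Real.exp_sub, Real.exp_add, Real.exp_log hs, Real.exp_log hV]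
  have h4 : Real.log (k * ballVol d (b / (L + b))) =
      Real.log k + Real.log (ballVol d b) - d * Real.log (L + b) := by
    have e : ballVol d (b / (L + b)) = ballVol d b / (L + b) ^ d := by
      have h := Pool.Agent.N342.HG.ballVol_scale d (c := (L + b)⁻¹) (by positivity) b
      rw [div_eq_inv_mul, h, inv_pow]
      ring
    rw [e, Real.log_mul hk0.ne' (by positivity), Real.log_div hV.ne' (by positivity), Real.log_pow]
    ring
  calc (s * Real.exp s / ballVol d b) ^ k / k.factorial * regVol d b R k =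
        (s * Real.exp s / ballVol d b) ^ k * ((k.factorial : ℝ)⁻¹ * regVol d b R k) := by
        rw [div_eq_mul_inv]
        ring
    _ ≤ Real.exp (k * (Real.log s + s - Real.log (ballVol d b))) *
        (Real.exp (-(k * Real.log k - k)) * (Real.exp (d * k * Real.log (L + b)) *
          Real.exp (-((ex y0 (k * ballVol d (b / (L + b)) / d) - ε₁) * d * k)))) := by
        rw [h3]
        refine mul_le_mul_of_nonneg_left ?_ (Real.exp_pos _).le
        refine mul_le_mul h1 (hbd.trans ?_) ENNReal.toReal_nonneg (Real.exp_pos _).le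
        rw [h2]
        exact mul_le_mul_of_nonneg_left hconf (Real.exp_pos _).le
    _ = _ := by
        rw [← Real.exp_add, ← Real.exp_add, ← Real.exp_add, h4]
        congr 1
        ring

/-- The rate function. -/
noncomputable def rate (x y : ℝ) : ℝ := y * ex y0 y - x * y + x ^ 2 / 2

theorem arith2 {S x y y' q ε₁ ε δ e1 e2 Lg : ℝ} (hS : 0 ≤ S) (hx : 0 < x) (hx1 : x ≤ 1)
    (hy' : 0 < y') (hy : y = q * y') (hq : 1 ≤ q) (hq1 : q ≤ 1 + ε₁) (hε₁ : 0 < ε₁)
    (hε : ε = 3 * ε₁) (hδ : 0 < δ) (hδ1 : δ ≤ 1) (he : e2 ≤ e1 + ε₁)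
    (hLg : Lg ≤ x / y' - 1) :
    S * (y * δ) * (Lg + 1 + x / δ - (e1 - ε₁) / δ) - S * ((1 - ε₁) * (x * δ + x ^ 2 / 2)) ≤
      -((y * e2 - x * y + x ^ 2 / 2 - ε * (1 + y)) * S) := by
  have hy0 : 0 < y := by rw [hy]; exact mul_pos (by linarith) hy'
  have h1 : y * (Lg + 1) ≤ q * x := by
    have h2 : y' * (Lg + 1) ≤ x := by
      have h3 : y' * (Lg + 1) ≤ y' * (x / y') := mul_le_mul_of_nonneg_left (by linarith) hy'.le
      rwa [mul_div_cancel₀ x hy'.ne'] at h3
    rw [hy, mul_assoc]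
    exact mul_le_mul_of_nonneg_left h2 (by linarith)
  have e3 : S * (y * δ) * (Lg + 1 + x / δ - (e1 - ε₁) / δ) =
      S * (δ * (y * (Lg + 1)) + y * x - y * (e1 - ε₁)) := by
    field_simp
  have h4 : δ * (y * (Lg + 1)) ≤ δ * (q * x) := mul_le_mul_of_nonneg_left h1 hδ.le
  have h5 : δ * (q * x) ≤ δ * x + ε₁ := by
    have h6 : (q - 1) * (δ * x) ≤ ε₁ * 1 :=
      mul_le_mul (by linarith) (mul_le_one₀ hδ1 hx.le hx1) (by positivity) hε₁.le
    linarith
  have h7 : y * e2 ≤ y * e1 + y * ε₁ := by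
    have := mul_le_mul_of_nonneg_left he hy0.le
    linarith
  have h8 : ε₁ * (x * δ) ≤ ε₁ := by
    have : x * δ ≤ 1 := mul_le_one₀ hx1 hδ.le hδ1
    calc ε₁ * (x * δ) ≤ ε₁ * 1 := mul_le_mul_of_nonneg_left this hε₁.le
      _ = ε₁ := mul_one _
  have h9 : ε₁ * (x ^ 2 / 2) ≤ ε₁ := by
    have : x ^ 2 ≤ 1 := pow_le_one₀ hx.le hx1
    calc ε₁ * (x ^ 2 / 2) ≤ ε₁ * 1 := mul_le_mul_of_nonneg_left (by linarith) hε₁.le
      _ = ε₁ := mul_one _
  have h10 : 0 ≤ ε₁ * y := by positivity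
  rw [e3]
  have key : δ * (y * (Lg + 1)) + y * x - y * (e1 - ε₁) - (1 - ε₁) * (x * δ + x ^ 2 / 2) ≤
      -(y * e2 - x * y + x ^ 2 / 2 - ε * (1 + y)) := by
    rw [hε]
    linarith
  calc S * (δ * (y * (Lg + 1)) + y * x - y * (e1 - ε₁)) -
        S * ((1 - ε₁) * (x * δ + x ^ 2 / 2)) =
        S * (δ * (y * (Lg + 1)) + y * x - y * (e1 - ε₁) -
          (1 - ε₁) * (x * δ + x ^ 2 / 2)) := by ring
    _ ≤ S * (-(y * e2 - x * y + x ^ 2 / 2 - ε * (1 + y))) :=
        mul_le_mul_of_nonneg_left key hS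
    _ = _ := by ring

/-- **Large deviations of the number of spheres**, for every boundary condition and every number of
spheres. -/
theorem ld_ev {ε : ℝ} (hε : 0 < ε) : ∃ d₀ : ℕ, ∀ d : ℕ, d₀ ≤ d → ∀ b : ℝ, 0 < b → ∃ L₀ : ℝ,
    ∀ L : ℝ, L₀ ≤ L → ∀ R : Set (Fin d → ℝ), MeasurableSet R →
    (∀ x, (∀ m, x m ∈ Icc b (L - b)) → x ∈ R) → (∀ x ∈ R, ∀ m, x m ∈ Icc (0 : ℝ) L) →
    ∀ s : ℝ, 0 < s → s * Real.exp s ≤ Real.exp (((1 - Real.log 2) / 2 - ε) * d) →
    ∀ k : ℕ, 1 ≤ k →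
      (s * Real.exp s / ballVol d b) ^ k / k.factorial * regVol d b R k /
        ZReg d b R (s * Real.exp s / ballVol d b) ≤
      Real.exp (-((rate (s / d) (k * ballVol d b / (L ^ d * d)) -
        ε * (1 + k * ballVol d b / (L ^ d * d))) * (d ^ 2 * L ^ d / ballVol d b))) := by
  obtain ⟨ε₁, hε₁⟩ : ∃ ε₁, ε₁ = ε / 3 := ⟨_, rfl⟩
  have hε₁0 : 0 < ε₁ := by rw [hε₁]; positivity
  obtain ⟨n₁, H1⟩ := conf_ev hε₁0
  obtain ⟨n₂, H2⟩ := grand Pool.Agent.N55.HG.reg ε₁ hε₁0
  refine ⟨max (max n₁ n₂) 1, fun d hd b hb => ?_⟩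
  have hd1 : 1 ≤ d := (le_max_right _ _).trans hd
  have hdR : (1 : ℝ) ≤ d := by exact_mod_cast hd1
  have hd0 : (0 : ℝ) < d := by linarith
  obtain ⟨L₂, H2⟩ := H2 d ((le_max_right _ _).trans ((le_max_left _ _).trans hd)) b hb
  have H1 := H1 d ((le_max_left _ _).trans ((le_max_left _ _).trans hd))
  have hq : ∀ᶠ L : ℝ in atTop, ((L + b) / L) ^ d < 1 + ε₁ := by
    have h1 : Tendsto (fun L : ℝ => (1 + b / L) ^ d) atTop (𝓝 ((1 + 0) ^ d)) :=
      (tendsto_const_nhds.add (tendsto_const_nhds.div_atTop tendsto_id)).pow d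
    rw [add_zero, one_pow] at h1
    filter_upwards [h1.eventually (gt_mem_nhds (show (1 : ℝ) < 1 + ε₁ by linarith)),
      eventually_gt_atTop 0] with L h2 h3
    rwa [add_div, div_self h3.ne']
  obtain ⟨L₁, hL₁⟩ := eventually_atTop.1 hq
  refine ⟨max L₂ (max L₁ (3 * b)), fun L hL R hR hR1 hR2 s hs hsX k hk => ?_⟩
  have hL3 : 3 * b ≤ L := (le_max_right _ _).trans ((le_max_right _ _).trans hL)
  have hL0 : 0 < L := by linarith
  have hLb : 0 < L + b := by linarith
  have hk0 : (0 : ℝ) < k := by exact_mod_cast hk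
  have hV := ballVol_pos (n := d) hb
  obtain ⟨q, hqd⟩ : ∃ q, q = ((L + b) / L) ^ d := ⟨_, rfl⟩
  have hq1 : q ≤ 1 + ε₁ := by
    rw [hqd]
    exact (hL₁ L ((le_max_left _ _).trans ((le_max_right _ _).trans hL))).le
  have hq0 : 1 ≤ q := by
    rw [hqd]
    refine one_le_pow₀ ?_
    rw [le_div_iff₀ hL0]
    linarith
  have hV' : ballVol d (b / (L + b)) = ballVol d b / (L + b) ^ d := ballVol_div d hLb
  obtain ⟨y, hy⟩ : ∃ y, y = k * ballVol d b / (L ^ d * d) := ⟨_, rfl⟩
  obtain ⟨y', hy'⟩ : ∃ y', y' = k * ballVol d (b / (L + b)) / d := ⟨_, rfl⟩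
  have hy'0 : 0 < y' := by
    rw [hy', hV']
    positivity
  have hyq : y = q * y' := by
    rw [hy, hy', hV', hqd, div_pow]
    field_simp
  have hy0 : 0 < y := by rw [hyq]; exact mul_pos (by linarith) hy'0
  have hr : 0 < b / (L + b) := by positivity
  have hr2 : b / (L + b) ≤ 1 / 2 := by
    rw [div_le_iff₀ hLb]
    linarith
  have hconf := H1 _ hr hr2 k y' (by
    rw [hy']
    field_simp)
  rw [hy'] at hconf
  have hw := weight_le hd1 hb (by linarith) hR hR1 hR2 hs hk hconf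
  rw [← hy'] at hw
  -- the partition function
  obtain ⟨lam, hlam⟩ : ∃ lam, lam = s * Real.exp s / ballVol d b := ⟨_, rfl⟩
  have hlam0 : 0 < lam := by rw [hlam]; positivity
  have hact : act d b s = lam := by
    rw [hlam]
    unfold act
    rfl
  have hg := (H2 L ((le_max_left _ _).trans hL) R hR hR1 hR2 s hs (hsX.trans (by
    rw [Real.exp_le_exp]
    exact mul_le_mul_of_nonneg_right (by linarith) hd0.le))).2
  rw [hact] at hg
  have hZ1 : 1 ≤ ZReg d b R lam :=
    (Zr_ge_one Pool.Agent.N364.HG.conf_eq _ (by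
      have : 0 < L - 2 * b := by linarith
      positivity)).trans
      (ZReg_bounds Pool.Agent.N55.HG.reg hd1 hb (by linarith) hR hR1 hR2 hlam0.le).1
  have hZ0 : 0 < ZReg d b R lam := by linarith
  obtain ⟨x, hx⟩ : ∃ x, x = s / d := ⟨_, rfl⟩
  have hx0 : 0 < x := by rw [hx]; positivity
  have hx1 : x ≤ 1 := by
    rw [hx, div_le_one hd0]
    by_contra hcon
    push Not at hcon
    have h1 : Real.exp (((1 - Real.log 2) / 2 - ε) * d) ≤ Real.exp d := by
      rw [Real.exp_le_exp]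
      have h2 : (1 - Real.log 2) / 2 - ε ≤ 1 := by
        have := Real.log_pos (show (1 : ℝ) < 2 by norm_num)
        linarith
      calc ((1 - Real.log 2) / 2 - ε) * d ≤ 1 * d := mul_le_mul_of_nonneg_right h2 hd0.le
        _ = d := one_mul _
    have h2 : 1 * Real.exp d < s * Real.exp s :=
      mul_lt_mul'' (by linarith) (Real.exp_lt_exp.2 hcon) zero_le_one (Real.exp_pos _).le
    linarith
  obtain ⟨S, hS⟩ : ∃ S, S = (d : ℝ) ^ 2 * L ^ d / ballVol d b := ⟨_, rfl⟩
  have hS0 : 0 < S := by rw [hS]; positivity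
  have hlogZ : S * ((1 - ε₁) * (x * (1 / d) + x ^ 2 / 2)) ≤ Real.log (ZReg d b R lam) := by
    have h1 := (abs_le.1 hg).1
    have h2 : (1 - ε₁) * (s + s ^ 2 / 2) ≤
        ballVol d b / L ^ d * Real.log (ZReg d b R lam) := by linarith
    have h3 : S * ((1 - ε₁) * (x * (1 / d) + x ^ 2 / 2)) =
        L ^ d / ballVol d b * ((1 - ε₁) * (s + s ^ 2 / 2)) := by
      rw [hS, hx]
      field_simp
    rw [h3]
    have h4 := mul_le_mul_of_nonneg_left h2 (show 0 ≤ L ^ d / ballVol d b by positivity)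
    refine h4.trans (le_of_eq ?_)
    field_simp
  have hk' : (k : ℝ) = S * (y * (1 / d)) := by
    rw [hS, hy]
    field_simp
  have hLg : Real.log s - Real.log (k * ballVol d (b / (L + b))) ≤ x / y' - 1 := by
    have h1 : (k : ℝ) * ballVol d (b / (L + b)) = y' * d := by
      rw [hy']
      field_simp
    rw [h1, ← Real.log_div hs.ne' (by positivity)]
    have h2 : s / (y' * d) = x / y' := by
      rw [hx]
      field_simp
    rw [h2]
    exact Real.log_le_sub_one_of_pos (by positivity)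
  have he : ex y0 y ≤ ex y0 y' + ε₁ := by
    have h1 := ex_scale y0_pos hy0 hq0
    have h2 : y / q = y' := by
      rw [hyq]
      field_simp
    rw [h2] at h1
    have h3 : (q - 1) * y0 ≤ ε₁ * 1 :=
      mul_le_mul (by linarith) (by linarith [y0_lt]) y0_pos.le hε₁0.le
    linarith
  have key := arith2 (δ := 1 / (d : ℝ)) (ε := ε) hS0.le hx0 hx1 hy'0 hyq hq0 hq1 hε₁0
    (by rw [hε₁]; ring) (by positivity) (by rw [div_le_one hd0]; exact hdR) he hLg
  rw [← hlam, ← hx, ← hy, ← hS]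
  rw [← hlam] at hw
  rw [div_le_iff₀ hZ0]
  refine hw.trans ?_
  have h5 : Real.exp (S * ((1 - ε₁) * (x * (1 / d) + x ^ 2 / 2))) ≤ ZReg d b R lam := by
    rw [← Real.le_log_iff_exp_le hZ0]
    exact hlogZ
  refine le_trans ?_ (mul_le_mul_of_nonneg_left h5 (Real.exp_pos _).le)
  rw [← Real.exp_add, Real.exp_le_exp]
  unfold rate
  have e1 : (k : ℝ) * (Real.log s - Real.log (k * ballVol d (b / (L + b))) + 1 + s -
      (ex y0 y' - ε₁) * d) = S * (y * (1 / d)) *
        (Real.log s - Real.log (k * ballVol d (b / (L + b))) + 1 + x / (1 / d) -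
          (ex y0 y' - ε₁) / (1 / d)) := by
    rw [← hk', hx]
    field_simp
  rw [e1]
  linarith

end Pool.Agent.U279.GP
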